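import Pool.Agent.Lib_helper26.Ebe.Defs

/-!
# Lower bounds for the dimension of `S_1 U`
-/

namespace Pool.Agent.Lib_helper97.Ebe

open MvPolynomial Pool.Agent.Lib_helper26.Ebe

/-- The space of linear forms. -/
noncomputable def L1 (n : ℕ) : Submodule ℂ (MvPolynomial (Fin n) ℂ) :=
  Submodule.span ℂ (Set.range (X : Fin n → MvPolynomial (Fin n) ℂ))

/-- The space `S_1 U` spanned by the products `X_i u`, `u ∈ U`. -/
noncomputable def S1 {n : ℕ} (U : Submodule ℂ (MvPolynomial (Fin n) ℂ)) :
    Submodule ℂ (MvPolynomial (Fin n) ℂ) := L1 n * U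

theorem lf_mem_L1 {n : ℕ} (a : Fin n → ℂ) : lf a ∈ L1 n := by
  unfold lf L1
  refine Submodule.sum_mem _ fun i _ => ?_
  rw [← smul_eq_C_mul]
  exact Submodule.smul_mem _ _ (Submodule.subset_span ⟨i, rfl⟩)

theorem mem_L1_iff {n : ℕ} (f : MvPolynomial (Fin n) ℂ) : f ∈ L1 n ↔ ∃ a, f = lf a := by
  constructor
  · intro h
    unfold L1 at h
    rw [Submodule.mem_span_range_iff_exists_fun] at h
    obtain ⟨c, hc⟩ := h
    refine ⟨c, ?_⟩
    rw [← hc]
    unfold lf
    simp_rw [smul_eq_C_mul]
  · rintro ⟨a, rfl⟩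
    exact lf_mem_L1 a

theorem eval_lf {n : ℕ} (a x : Fin n → ℂ) : eval x (lf a) = ∑ i, a i * x i := by
  simp [lf]

theorem lf_ne_zero {n : ℕ} {a : Fin n → ℂ} (ha : a ≠ 0) : lf a ≠ 0 := by
  classical
  intro h
  apply ha
  funext i
  have h2 := congrArg (eval (Pi.single i 1)) h
  simpa [lf, Pi.single_apply] using h2

/-- `S_1` of a span. -/
theorem S1_span {n : ℕ} (s : Set (MvPolynomial (Fin n) ℂ)) :
    S1 (Submodule.span ℂ s) = Submodule.span ℂ {f | ∃ i, ∃ u ∈ s, f = X i * u} := by
  unfold S1 L1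
  rw [Submodule.span_mul_span]
  congr 1
  ext f
  constructor
  · rintro ⟨_, ⟨i, rfl⟩, u, hu, rfl⟩
    exact ⟨i, u, hu, rfl⟩
  · rintro ⟨i, u, hu, rfl⟩
    exact ⟨_, ⟨i, rfl⟩, u, hu, rfl⟩

/-- `S_1` of the span of a family. -/
theorem S1_span_range {n : ℕ} {ι : Type*} (f : ι → MvPolynomial (Fin n) ℂ) :
    S1 (Submodule.span ℂ (Set.range f)) =
      Submodule.span ℂ (Set.range (fun x : Fin n × ι => X x.1 * f x.2)) := by
  rw [S1_span]
  congr 1
  ext g
  constructor
  · rintro ⟨i, _, ⟨k, rfl⟩, rfl⟩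
    exact ⟨(i, k), rfl⟩
  · rintro ⟨⟨i, k⟩, rfl⟩
    exact ⟨i, f k, ⟨k, rfl⟩, rfl⟩

theorem S1_eq_span {n : ℕ} (U : Submodule ℂ (MvPolynomial (Fin n) ℂ)) :
    S1 U = Submodule.span ℂ {f | ∃ i, ∃ u ∈ U, f = X i * u} := by
  conv_lhs => rw [← Submodule.span_eq U]
  exact S1_span _

theorem X_mul_mem_S1 {n : ℕ} {U : Submodule ℂ (MvPolynomial (Fin n) ℂ)} (i : Fin n)
    {u : MvPolynomial (Fin n) ℂ} (hu : u ∈ U) : X i * u ∈ S1 U :=
  Submodule.mul_mem_mul (Submodule.subset_span ⟨i, rfl⟩) hu

theorem lf_mul_mem_S1 {n : ℕ} {U : Submodule ℂ (MvPolynomial (Fin n) ℂ)} (a : Fin n → ℂ)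
    {u : MvPolynomial (Fin n) ℂ} (hu : u ∈ U) : lf a * u ∈ S1 U :=
  Submodule.mul_mem_mul (lf_mem_L1 a) hu

theorem S1_mono {n : ℕ} {U V : Submodule ℂ (MvPolynomial (Fin n) ℂ)} (h : U ≤ V) :
    S1 U ≤ S1 V := mul_le_mul' le_rfl h

instance S1_finite {n : ℕ} (U : Submodule ℂ (MvPolynomial (Fin n) ℂ))
    [FiniteDimensional ℂ U] : FiniteDimensional ℂ (S1 U) := by
  have hU : U.FG := Module.Finite.iff_fg.mp inferInstance
  have hL : (L1 n).FG := Submodule.fg_span (Set.finite_range _)
  exact Module.Finite.iff_fg.mpr (hL.mul hU)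

/-- Finitely many evaluations separate a finite-dimensional space of polynomials. -/
theorem exists_points {n : ℕ} (U : Submodule ℂ (MvPolynomial (Fin n) ℂ))
    [FiniteDimensional ℂ U] :
    ∃ x : Fin (Module.finrank ℂ U) → (Fin n → ℂ),
      LinearIndependent ℂ (fun i => ((aeval (x i)).toLinearMap.domRestrict U : U →ₗ[ℂ] ℂ)) := by
  classical
  let ev : (Fin n → ℂ) → Module.Dual ℂ U := fun x => (aeval x).toLinearMap.domRestrict U
  have hbot : (Submodule.span ℂ (Set.range ev)).dualCoannihilator = ⊥ := by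
    rw [eq_bot_iff]
    intro u hu
    rw [Submodule.mem_dualCoannihilator] at hu
    rw [Submodule.mem_bot]
    ext1
    apply MvPolynomial.funext
    intro x
    have := hu (ev x) (Submodule.subset_span ⟨x, rfl⟩)
    rw [ZeroMemClass.coe_zero, map_zero]
    exact this
  have hfr : Module.finrank ℂ (Submodule.span ℂ (Set.range ev)) = Module.finrank ℂ U := by
    have := Subspace.finrank_add_finrank_dualCoannihilator_eq (Submodule.span ℂ (Set.range ev))
    rw [hbot, finrank_bot, add_zero] at this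
    exact this
  obtain ⟨f, hf, _, hli⟩ := Submodule.exists_fun_fin_finrank_span_eq ℂ (Set.range ev)
  choose x hx using hf
  refine ⟨fun i => x (Fin.cast hfr.symm i), ?_⟩
  have : (fun i : Fin (Module.finrank ℂ U) => ev (x (Fin.cast hfr.symm i))) =
      f ∘ Fin.cast hfr.symm := by
    funext i
    exact hx _
  change LinearIndependent ℂ (fun i : Fin (Module.finrank ℂ U) => ev (x (Fin.cast hfr.symm i)))
  rw [this]
  exact hli.comp _ (Fin.cast_injective _)

theorem exists_points_le {n s : ℕ} (U : Submodule ℂ (MvPolynomial (Fin n) ℂ))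
    [FiniteDimensional ℂ U] (hs : s ≤ Module.finrank ℂ U) :
    ∃ x : Fin s → (Fin n → ℂ),
      LinearIndependent ℂ (fun i => ((aeval (x i)).toLinearMap.domRestrict U : U →ₗ[ℂ] ℂ)) := by
  obtain ⟨x, hx⟩ := exists_points U
  exact ⟨x ∘ Fin.castLE hs, hx.comp _ (Fin.castLE_injective hs)⟩

theorem eval_sub {n k : ℕ} (g : Fin n × Fin k → ℂ) (y : Fin k → ℂ)
    (f : MvPolynomial (Fin n) ℂ) : eval y (sub g f) = eval (mv g y) f := by
  unfold sub
  have : (eval y).comp (aeval (fun i => ∑ j, C (g (i, j)) * X j) :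
      MvPolynomial (Fin n) ℂ →ₐ[ℂ] MvPolynomial (Fin k) ℂ).toRingHom = eval (mv g y) := by
    apply MvPolynomial.ringHom_ext
    · intro r
      simp
    · intro i
      simp [mv]
  exact RingHom.congr_fun this f

/-- `s ≤ n` points of `ℂ^(n+1)` lie in the image of an injective linear map `ℂ^n → ℂ^(n+1)`
whose image is the kernel of a nonzero linear form. -/
theorem exists_hyperplane {n s : ℕ} (hs : s ≤ n) (x : Fin s → (Fin (n + 1) → ℂ)) :
    ∃ (a : Fin (n + 1) → ℂ) (g : Fin (n + 1) × Fin n → ℂ) (y : Fin s → (Fin n → ℂ))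
      (h : (Fin (n + 1) → ℂ) →ₗ[ℂ] (Fin n → ℂ)),
      a ≠ 0 ∧ (∀ z, ∑ i, a i * mv g z i = 0) ∧ (∀ i, mv g (y i) = x i) ∧
      (∀ z, h (mv g z) = z) := by
  classical
  -- the linear form
  let T : (Fin (n + 1) → ℂ) →ₗ[ℂ] (Fin s → ℂ) := LinearMap.pi fun i =>
    ∑ j, (x i j) • LinearMap.proj j
  have hT : LinearMap.ker T ≠ ⊥ := by
    apply LinearMap.ker_ne_bot_of_finrank_lt
    simp
    omega
  obtain ⟨a, haT, ha⟩ := (Submodule.ne_bot_iff _).mp hT
  have haT' : ∀ i, ∑ j, a j * x i j = 0 := by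
    intro i
    have := congrFun (LinearMap.mem_ker.mp haT) i
    simp only [T, LinearMap.pi_apply, LinearMap.sum_apply, LinearMap.smul_apply,
      LinearMap.proj_apply, smul_eq_mul, Pi.zero_apply] at this
    rw [← this]
    exact Finset.sum_congr rfl fun j _ => mul_comm _ _
  let φ : Module.Dual ℂ (Fin (n + 1) → ℂ) := ∑ j, a j • LinearMap.proj j
  have hφ : ∀ z, φ z = ∑ j, a j * z j := by
    intro z
    simp [φ, LinearMap.sum_apply]
  have hφ0 : φ ≠ 0 := by
    intro h0
    apply ha
    funext j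
    have := LinearMap.congr_fun h0 (Pi.single j 1)
    rw [hφ] at this
    simpa [Pi.single_apply] using this
  have hker : Module.finrank ℂ (LinearMap.ker φ) = n := by
    have := Module.Dual.finrank_ker_add_one_of_ne_zero hφ0
    simp at this
    exact this
  let e : (Fin n → ℂ) ≃ₗ[ℂ] LinearMap.ker φ :=
    LinearEquiv.ofFinrankEq _ _ (by rw [hker]; simp)
  let E : (Fin n → ℂ) →ₗ[ℂ] (Fin (n + 1) → ℂ) := (LinearMap.ker φ).subtype ∘ₗ e.toLinearMap
  have hE : Function.Injective E := (Submodule.injective_subtype _).comp e.injective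
  let g : Fin (n + 1) × Fin n → ℂ := fun p => E (Pi.single p.2 1) p.1
  have hg : ∀ z, mv g z = E z := by
    intro z
    funext i
    have hz : z = ∑ j, z j • (Pi.single j (1 : ℂ) : Fin n → ℂ) := by
      funext k
      simp [Finset.sum_apply, Pi.single_apply]
    conv_rhs => rw [hz, map_sum, Finset.sum_apply]
    unfold mv
    refine Finset.sum_congr rfl fun j _ => ?_
    rw [map_smul, Pi.smul_apply, smul_eq_mul, mul_comm]
  obtain ⟨h, hh⟩ := LinearMap.exists_leftInverse_of_injective E (LinearMap.ker_eq_bot.mpr hE)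
  refine ⟨a, g, fun i => e.symm ⟨x i, ?_⟩, h, ha, ?_, ?_, ?_⟩
  · rw [LinearMap.mem_ker, hφ]
    exact haT' i
  · intro z
    rw [hg, ← hφ]
    exact (e z).2
  · intro i
    rw [hg]
    simp [E]
  · intro z
    rw [hg]
    exact LinearMap.congr_fun hh z

theorem map_L1 {n : ℕ} (g : Fin (n + 1) × Fin n → ℂ)
    (h : (Fin (n + 1) → ℂ) →ₗ[ℂ] (Fin n → ℂ)) (hh : ∀ z, h (mv g z) = z) :
    (L1 (n + 1)).map (sub g).toLinearMap = L1 n := by
  classical
  apply le_antisymm
  · unfold L1
    rw [Submodule.map_span, Submodule.span_le]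
    rintro _ ⟨_, ⟨i, rfl⟩, rfl⟩
    simp only [AlgHom.toLinearMap_apply, sub, aeval_X, SetLike.mem_coe]
    refine Submodule.sum_mem _ fun j _ => ?_
    rw [← smul_eq_C_mul]
    exact Submodule.smul_mem _ _ (Submodule.subset_span ⟨j, rfl⟩)
  · conv_lhs => unfold L1
    rw [Submodule.span_le]
    rintro _ ⟨j, rfl⟩
    refine ⟨lf (fun i => h (Pi.single i 1) j), lf_mem_L1 _, ?_⟩
    rw [AlgHom.toLinearMap_apply]
    apply MvPolynomial.funext
    intro y
    rw [eval_sub, eval_lf, eval_X]
    conv_rhs => rw [← hh y]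
    have hz : mv g y = ∑ i, mv g y i • (Pi.single i (1 : ℂ) : Fin (n + 1) → ℂ) := by
      funext k
      simp [Finset.sum_apply, Pi.single_apply]
    conv_rhs => rw [hz, map_sum, Finset.sum_apply]
    refine Finset.sum_congr rfl fun i _ => ?_
    rw [map_smul, Pi.smul_apply, smul_eq_mul, mul_comm]

/-- The lower bound as a sum. -/
theorem S1_lower_sum {n : ℕ} : ∀ (U : Submodule ℂ (MvPolynomial (Fin n) ℂ))
    [FiniteDimensional ℂ U],
    ∑ i ∈ Finset.range (min (Module.finrank ℂ U) n), (n - i) ≤ Module.finrank ℂ (S1 U) := by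
  induction n with
  | zero => intro U _; simp
  | succ n ih =>
    intro U _
    classical
    set κ := Module.finrank ℂ U with hκ
    obtain ⟨x, hx⟩ := exists_points_le (s := min κ n) U (min_le_left _ _)
    obtain ⟨a, g, y, h, ha, hag, hy, hh⟩ := exists_hyperplane (min_le_right κ n) x
    set U' := U.map (sub g).toLinearMap with hU'
    have : FiniteDimensional ℂ U' := by
      have hU : U.FG := Module.Finite.iff_fg.mp inferInstance
      exact Module.Finite.iff_fg.mpr (hU.map _)
    have hU'r : min κ n ≤ Module.finrank ℂ U' := by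
      have hli : LinearIndependent ℂ
          (fun i => ((aeval (y i)).toLinearMap.domRestrict U' : U' →ₗ[ℂ] ℂ)) := by
        rw [Fintype.linearIndependent_iff] at hx ⊢
        intro c hc
        apply hx c
        ext u
        have h1 := LinearMap.congr_fun hc ⟨sub g u, Submodule.mem_map.mpr ⟨u, u.2, rfl⟩⟩
        simp only [LinearMap.sum_apply, LinearMap.smul_apply, LinearMap.domRestrict_apply,
          AlgHom.toLinearMap_apply, LinearMap.zero_apply] at h1 ⊢
        rw [← h1]
        refine Finset.sum_congr rfl fun i _ => ?_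
        congr 1
        rw [← hy i]
        exact (eval_sub g (y i) (u : MvPolynomial (Fin (n + 1)) ℂ)).symm
      have := hli.fintype_card_le_finrank
      rw [Fintype.card_fin, Subspace.dual_finrank_eq] at this
      exact this
    have hih := ih U'
    -- rank-nullity
    let φ : S1 U →ₗ[ℂ] MvPolynomial (Fin n) ℂ := (sub g).toLinearMap.domRestrict (S1 U)
    have hrange : LinearMap.range φ = S1 U' := by
      have h1 : LinearMap.range φ = (S1 U).map (sub g).toLinearMap := by
        ext f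
        constructor
        · rintro ⟨u, rfl⟩
          exact ⟨u, u.2, rfl⟩
        · rintro ⟨u, hu, rfl⟩
          exact ⟨⟨u, hu⟩, rfl⟩
      rw [h1]
      unfold S1
      rw [Submodule.map_mul, map_L1 g h hh]
    have hsa : sub g (lf a) = 0 := by
      apply MvPolynomial.funext
      intro z
      rw [eval_sub, eval_lf, map_zero]
      exact hag z
    have hkerle : κ ≤ Module.finrank ℂ (LinearMap.ker φ) := by
      let ψ : U →ₗ[ℂ] LinearMap.ker φ :=
        { toFun := fun u => ⟨⟨lf a * u, lf_mul_mem_S1 a u.2⟩, by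
            rw [LinearMap.mem_ker]
            change sub g (lf a * u) = 0
            rw [map_mul, hsa, zero_mul]⟩
          map_add' := fun u v => by
            ext1; ext1
            simp [mul_add]
          map_smul' := fun c u => by
            ext1; ext1
            simp }
      have hψ : Function.Injective ψ := by
        intro u v huv
        have h1 : lf a * (u : MvPolynomial (Fin (n + 1)) ℂ) = lf a * v := by
          have := congrArg (fun w : LinearMap.ker φ =>
            ((w : S1 U) : MvPolynomial (Fin (n + 1)) ℂ)) huv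
          exact this
        exact Subtype.ext (mul_left_cancel₀ (lf_ne_zero ha) h1)
      exact LinearMap.finrank_le_finrank_of_injective hψ
    have hrn := LinearMap.finrank_range_add_finrank_ker φ
    rw [hrange] at hrn
    rw [← hrn]
    have hmono : ∑ i ∈ Finset.range (min κ n), (n - i) ≤
        ∑ i ∈ Finset.range (min (Module.finrank ℂ U') n), (n - i) := by
      apply Finset.sum_le_sum_of_subset
      intro i hi
      simp only [Finset.mem_range] at hi ⊢
      omega
    have hcomb : ∑ i ∈ Finset.range (min κ (n + 1)), (n + 1 - i) ≤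
        κ + ∑ i ∈ Finset.range (min κ n), (n - i) := by
      rcases Nat.lt_or_ge n κ with h1 | h1
      · rw [min_eq_right (by omega), min_eq_right (by omega), Finset.sum_range_succ']
        simp only [Nat.sub_zero]
        have : ∑ k ∈ Finset.range n, (n + 1 - (k + 1)) = ∑ i ∈ Finset.range n, (n - i) :=
          Finset.sum_congr rfl fun i _ => by omega
        rw [this]
        omega
      · rw [min_eq_left (by omega), min_eq_left (by omega)]
        have : ∑ i ∈ Finset.range κ, (n + 1 - i) = ∑ i ∈ Finset.range κ, ((n - i) + 1) :=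
          Finset.sum_congr rfl fun i hi => by
            rw [Finset.mem_range] at hi
            omega
        rw [this, Finset.sum_add_distrib]
        simp
        omega
    omega

/-- If `dim U = κ ≤ n` then `dim S_1 U ≥ κ n - κ (κ - 1) / 2`. -/
theorem S1_lower {n : ℕ} (U : Submodule ℂ (MvPolynomial (Fin n) ℂ))
    [FiniteDimensional ℂ U] {κ : ℕ} (hU : Module.finrank ℂ U = κ) (hκ : κ ≤ n) :
    κ * n ≤ Module.finrank ℂ (S1 U) + κ * (κ - 1) / 2 := by
  have h1 := S1_lower_sum U
  rw [hU, min_eq_left hκ] at h1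
  have h2 : ∑ i ∈ Finset.range κ, (n - i) + ∑ i ∈ Finset.range κ, i = κ * n := by
    rw [← Finset.sum_add_distrib]
    rw [Finset.sum_congr rfl (g := fun _ => n) (fun i hi => by
      rw [Finset.mem_range] at hi; omega)]
    simp
  rw [Finset.sum_range_id] at h2
  omega

/-- If `dim U ≥ n` then `dim S_1 U ≥ n (n + 1) / 2`. -/
theorem S1_lower' {n : ℕ} (U : Submodule ℂ (MvPolynomial (Fin n) ℂ))
    [FiniteDimensional ℂ U] (hU : n ≤ Module.finrank ℂ U) :
    n * (n + 1) / 2 ≤ Module.finrank ℂ (S1 U) := by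
  have h1 := S1_lower_sum U
  rw [min_eq_right hU] at h1
  have h2 : ∑ i ∈ Finset.range n, (n - i) = n * (n + 1) / 2 := by
    have h3 := Finset.sum_range_id (n + 1)
    rw [Nat.add_sub_cancel, mul_comm] at h3
    have h4 : ∑ i ∈ Finset.range (n + 1), (n + 1 - 1 - i) = ∑ i ∈ Finset.range (n + 1), i :=
      Finset.sum_range_reflect (fun i => i) (n + 1)
    rw [← h3, ← h4, Finset.sum_range_succ]
    simp only [Nat.add_sub_cancel, Nat.sub_self, Nat.add_zero]
  omega

/-- `dim S_1 U ≤ n dim U`. -/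
theorem S1_upper {n : ℕ} (U : Submodule ℂ (MvPolynomial (Fin n) ℂ))
    [FiniteDimensional ℂ U] :
    Module.finrank ℂ (S1 U) ≤ n * Module.finrank ℂ U := by
  have : FiniteDimensional ℂ (L1 n) :=
    Module.Finite.iff_fg.mpr (Submodule.fg_span (Set.finite_range _))
  have hL : Module.finrank ℂ (L1 n) ≤ n := by
    have h1 := finrank_range_le_card (R := ℂ) (X : Fin n → MvPolynomial (Fin n) ℂ)
    rw [Fintype.card_fin] at h1
    exact h1
  unfold S1
  rw [← Submodule.mulMap_range]
  refine (LinearMap.finrank_range_le _).trans ?_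
  rw [Module.finrank_tensorProduct]
  exact Nat.mul_le_mul_right _ hL

end Pool.Agent.Lib_helper97.Ebe
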