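import Mathlib

/-!
# The numerical theorem
-/

namespace Pool.Agent.Lib_helper97.Ebe

/-- `f(y) = κ y - (y² + 3 y)/2 ≤ (κ - 1)(κ - 2)/2` for integers `y`, with `κ = K + 1`. -/
theorem quad_bound (K y : ℤ) : 2 * (K + 1) * y - (y * y + 3 * y) ≤ K * (K - 1) := by
  have h : 0 ≤ (y - K) * (y - K + 1) := by
    rcases lt_or_ge y K with h1 | h1
    · have h2 : y - K < 0 := by linarith
      have h3 : y - K + 1 ≤ 0 := by linarith [Int.add_one_le_iff.mpr h2]
      exact mul_nonneg_of_nonpos_of_nonpos h2.le h3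
    · exact mul_nonneg (by linarith) (by linarith)
  nlinarith [h]

theorem aux12 {T s x κ rT r0 j0 : ℤ} (h8 : T * T + 3 * T ≤ 2 * rT + 2) (h6 : r0 - rT ≥ κ * s)
    (h5 : r0 + j0 ≤ j0 * κ) (h11 : j0 = T + s) (h9 : x + 2 ≤ κ) :
    2 * (T + s + x) ≤ κ * (κ - 1) := by
  have h10 := quad_bound (κ - 1) T
  subst h11
  nlinarith

theorem aux13 {κ K : ℤ} (h : κ ≤ K) (h3 : 1 ≤ κ) : κ * (κ - 1) ≤ K * (K - 1) := by
  have := mul_nonneg (sub_nonneg.mpr h) (by linarith : 0 ≤ K + κ - 1)
  nlinarith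

theorem auxK {K n : ℤ} (h : K * (K - 1) + 4 ≤ 2 * n) (h2 : n ≤ 2 * K - 1) : K ≤ 3 := by
  by_contra hlt
  push Not at hlt
  nlinarith

theorem auxn {K n : ℤ} (h : K * (K - 1) + 4 ≤ 2 * n) (h2 : n ≤ K + 1) (h5 : 5 ≤ n) : False := by
  nlinarith

theorem auxmain {K n s T x rn κ : ℤ} (hn : n = T + s + x)
    (hbase : 2 * rn ≥ 2 * κ * s + (T * T + 3 * T) + (x * x + 3 * x) - 4)
    (hK : K * (K - 1) + 4 ≤ 2 * n) (h : (K + 1) * s ≤ κ * s) :
    2 * K * n ≤ 2 * rn + K * (K - 1) := by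
  have h3 := quad_bound K T
  have h4 := quad_bound K x
  subst hn
  nlinarith

theorem numeric {n : ℕ} (hn : 5 ≤ n) (r : ℕ → ℕ) (t : ℕ) (htn : t ≤ n) (h0 : r 0 = 0)
    (h1 : r 1 = 1)
    (hpos : ∀ j, 1 ≤ j → j ≤ n → r (j-1) + 1 ≤ r j)
    (hL : ∀ j, 3 ≤ j → j ≤ t → r (j-1) + (j+1) ≤ r j)
    (hS : ∀ j, 3 ≤ j → t < j → j ≤ n → r j + r (j-2) ≤ 2 * r (j-1))
    (hP : ∀ j, 3 ≤ j → t < j → j < n → r j + r (j-2) = 2 * r (j-1) → r j + 1 < r (j-1) + j →
      r j + j ≤ j * (r j - r (j-1)))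
    (hTop : t < n → r n + r (n-2) = 2 * r (n-1) → r n + 1 < r (n-1) + n → False)
    (hSA : ∀ j, 3 ≤ j → j ≤ n → r (j-2) + r 2 ≤ r j) (h2 : 3 ≤ t → 4 ≤ r 2)
    (K : ℕ) (hK : K * (K-1) + 4 ≤ 2 * n) :
    2 * K * n ≤ 2 * r n + K * (K-1) ∨
      (n = 5 ∧ r 2 = 4 ∧ r 3 = 7 ∧ r 4 = 10 ∧ r 5 = 11) := by
  -- `r 2 ≥ 4`
  have hr2 : 4 ≤ r 2 := by
    by_contra hlt
    have ht : t ≤ 2 := by
      by_contra ht
      exact hlt (h2 (by omega))
    have p2 := hpos 2 (by omega) (by omega)
    have p3 := hpos 3 (by omega) (by omega)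
    have p4 := hpos 4 (by omega) (by omega)
    have p5 := hpos 5 (by omega) (by omega)
    have s3 := hS 3 (by omega) (by omega) (by omega)
    have s4 := hS 4 (by omega) (by omega) (by omega)
    have s5 := hS 5 (by omega) (by omega) (by omega)
    have a4 := hSA 4 (by omega) (by omega)
    have a5 := hSA 5 (by omega) (by omega)
    have q3 := hP 3 (by omega) (by omega) (by omega)
    have q4 := hP 4 (by omega) (by omega) (by omega)
    norm_num at p2 p3 p4 p5 s3 s4 s5 a4 a5 q3 q4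
    omega
  -- `T`
  obtain ⟨T, hT2, hTn, hLT, hST⟩ : ∃ T, 2 ≤ T ∧ T ≤ n ∧ (∀ j, 3 ≤ j → j ≤ T → j ≤ t) ∧
      (∀ j, T < j → 3 ≤ j ∧ t < j) := ⟨max t 2, by omega, by omega, by omega, by omega⟩
  have head : ∀ j, 2 ≤ j → j ≤ T → (j : ℤ) * j + 3 * j ≤ 2 * (r j : ℤ) + 2 := by
    intro j hj
    induction j, hj using Nat.le_induction with
    | base => intro _; push_cast; omega
    | succ j hj ih =>
      intro hjT
      have h3 := ih (by omega)
      have h4 := hL (j + 1) (by omega) (hLT _ (by omega) hjT)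
      rw [Nat.add_sub_cancel] at h4
      have h5 : (r j : ℤ) + (j + 1 + 1) ≤ r (j + 1) := by exact_mod_cast h4
      push_cast
      nlinarith
  -- the last plateau
  obtain ⟨j0, hTj0, hj0n, hj0, hstrict⟩ : ∃ j0, T ≤ j0 ∧ j0 ≤ n ∧
      (j0 = T ∨ (T < j0 ∧ r j0 + r (j0 - 2) = 2 * r (j0 - 1))) ∧
      (∀ j, j0 < j → j ≤ n → r j + r (j - 2) < 2 * r (j - 1)) := by
    classical
    set P : ℕ → Prop := fun j => j = T ∨ (T < j ∧ r j + r (j - 2) = 2 * r (j - 1)) with hPdef
    have hPT : P T := Or.inl rfl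
    refine ⟨Nat.findGreatest P n, Nat.le_findGreatest hTn hPT, Nat.findGreatest_le n,
      Nat.findGreatest_spec (P := P) hTn hPT, ?_⟩
    intro j hj hjn
    have hnot : ¬ P j := Nat.findGreatest_is_greatest hj hjn
    have hTj : T < j := lt_of_le_of_lt (Nat.le_findGreatest hTn hPT) hj
    have h3 := hST j hTj
    have h4 := hS j h3.1 h3.2 hjn
    simp only [hPdef, not_or, not_and] at hnot
    have h5 := hnot.2 hTj
    omega
  -- the tail
  have tail : ∀ i, 1 ≤ i → i + j0 ≤ n →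
      (r (n - i) : ℤ) - r (n - i - 1) ≥ i + 2 ∧
      2 * ((r n : ℤ) - r (n - i)) ≥ i * i + 3 * i - 2 := by
    intro i hi
    induction i, hi using Nat.le_induction with
    | base =>
      intro hin
      have h3 := hstrict n (by omega) le_rfl
      have h4 := hSA n (by omega) le_rfl
      have h5 := hpos n (by omega) le_rfl
      have h6 : n - 1 - 1 = n - 2 := by omega
      rw [h6]
      push_cast
      constructor <;> omega
    | succ i hi ih =>
      intro hin
      obtain ⟨h3, h4⟩ := ih (by omega)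
      have h5 := hstrict (n - i) (by omega) (by omega)
      have h6 : n - i - 2 = n - (i + 1) - 1 := by omega
      have h7 : n - i - 1 = n - (i + 1) := by omega
      rw [h6, h7] at h5
      rw [h7] at h3
      push_cast
      constructor
      · omega
      · nlinarith
  -- the middle
  set κ : ℤ := (r j0 : ℤ) - r (j0 - 1) with hκ
  have mid : ∀ i, i + T ≤ j0 →
      (r (j0 - i) : ℤ) - r (j0 - i - 1) ≥ κ ∧ (r j0 : ℤ) - r (j0 - i) ≥ κ * i := by
    intro i
    induction i with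
    | zero => intro _; simp [hκ]
    | succ i ih =>
      intro hi
      obtain ⟨h3, h4⟩ := ih (by omega)
      have h5 := hST (j0 - i) (by omega)
      have h6 := hS (j0 - i) h5.1 h5.2 (by omega)
      have h7 : j0 - i - 1 = j0 - (i + 1) := by omega
      have h8 : j0 - i - 2 = j0 - (i + 1) - 1 := by omega
      rw [h8, h7] at h6
      rw [h7] at h3
      push_cast
      constructor
      · omega
      · nlinarith
  -- the basic bound
  obtain ⟨x, hx⟩ : ∃ x, j0 + x = n := ⟨n - j0, by omega⟩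
  obtain ⟨s, hs⟩ : ∃ s, T + s = j0 := ⟨j0 - T, by omega⟩
  have hxκ : 1 ≤ x → (x : ℤ) + 2 ≤ κ := by
    intro hx1
    have h3 := (tail x hx1 (by omega)).1
    have h4 : n - x = j0 := by omega
    rw [h4] at h3
    linarith
  have hbase : 2 * (r n : ℤ) ≥ 2 * κ * s + (T * T + 3 * T) + (x * x + 3 * x) - 4 := by
    have h3 := (mid s (by omega)).2
    have h4 : j0 - s = T := by omega
    rw [h4] at h3
    have h5 := head T hT2 le_rfl
    rcases Nat.eq_zero_or_pos x with hx0 | hx0
    · subst hx0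
      have h6 : j0 = n := by omega
      rw [← h6]
      push_cast
      nlinarith
    · have h6 := (tail x hx0 (by omega)).2
      have h7 : n - x = j0 := by omega
      rw [h7] at h6
      nlinarith
  have hnZ : (n : ℤ) = T + s + x := by exact_mod_cast (by omega : n = T + s + x)
  have hKZ : (K : ℤ) * (K - 1) + 4 ≤ 2 * n := by
    rcases Nat.eq_zero_or_pos K with hK0 | hK0
    · subst hK0; push_cast; omega
    · obtain ⟨k, rfl⟩ := Nat.exists_eq_add_of_le' hK0
      rw [Nat.add_sub_cancel] at hK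
      push_cast
      have : (((k + 1) * k + 4 : ℕ) : ℤ) ≤ ((2 * n : ℕ) : ℤ) := by exact_mod_cast hK
      push_cast at this
      linarith
  have hgoalZ : 2 * (K : ℤ) * n ≤ 2 * r n + K * (K - 1) →
      2 * K * n ≤ 2 * r n + K * (K-1) := by
    intro h
    rcases Nat.eq_zero_or_pos K with hK0 | hK0
    · subst hK0; simp
    · obtain ⟨k, rfl⟩ := Nat.exists_eq_add_of_le' hK0
      rw [Nat.add_sub_cancel]
      push_cast at h
      have : ((2 * (k + 1) * n : ℕ) : ℤ) ≤ ((2 * r n + (k + 1) * k : ℕ) : ℤ) := by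
        push_cast
        linarith
      exact_mod_cast this
  have hmain : ((K : ℤ) + 1) * s ≤ κ * s → 2 * (K : ℤ) * n ≤ 2 * r n + K * (K - 1) := by
    intro h
    exact auxmain hnZ hbase hKZ h
  rcases Nat.eq_zero_or_pos s with hs0 | hs0
  · left
    apply hgoalZ
    apply hmain
    rw [hs0]; simp
  rcases le_or_gt ((K : ℤ) + 1) κ with hKκ | hKκ
  · left
    apply hgoalZ
    apply hmain
    exact mul_le_mul_of_nonneg_right hKκ (by positivity)
  -- a plateau with `κ ≤ K`
  have hplat : r j0 + r (j0 - 2) = 2 * r (j0 - 1) := by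
    rcases hj0 with h | h
    · omega
    · exact h.2
  have hj0' := hST j0 (by omega)
  have hκK : κ ≤ K := by linarith
  have hKpos : (0 : ℤ) ≤ K := by positivity
  -- `κ ≥ j0 - 1`
  have hκj : (j0 : ℤ) - 1 ≤ κ := by
    by_contra hlt
    push Not at hlt
    have hlt2 : r j0 + 1 < r (j0 - 1) + j0 := by
      have : (r j0 : ℤ) + 1 < r (j0 - 1) + j0 := by linarith
      exact_mod_cast this
    rcases Nat.eq_zero_or_pos x with hx0 | hx0
    · have : j0 = n := by omega
      rw [this] at hplat hlt2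
      exact hTop (by omega) hplat hlt2
    · have h3 := hP j0 hj0'.1 hj0'.2 (by omega) hplat hlt2
      have h4 : r (j0 - 1) + 1 ≤ r j0 := hpos j0 (by omega) hj0n
      have h5 : (r j0 : ℤ) + j0 ≤ j0 * κ := by
        rw [hκ]
        have : ((r j0 + j0 : ℕ) : ℤ) ≤ ((j0 * (r j0 - r (j0 - 1)) : ℕ) : ℤ) := by
          exact_mod_cast h3
        rw [Nat.cast_mul, Nat.cast_sub (by omega)] at this
        push_cast at this
        exact this
      have h6 := (mid s (by omega)).2
      have h7 : j0 - s = T := by omega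
      rw [h7] at h6
      have h8 := head T hT2 le_rfl
      have h9 := hxκ hx0
      have h11 : (j0 : ℤ) = T + s := by exact_mod_cast hs.symm
      -- `2 n ≤ κ (κ - 1)`
      have h12 : 2 * (n : ℤ) ≤ κ * (κ - 1) := by
        rw [hnZ]
        exact aux12 h8 h6 h5 h11 h9
      have h13 : κ * (κ - 1) ≤ K * (K - 1) := by
        have hx0' : (1 : ℤ) ≤ x := by exact_mod_cast hx0
        exact aux13 hκK (by linarith)
      linarith
  -- the only remaining case is the exception
  have hx1 : 1 ≤ x := by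
    by_contra hx0
    have : x = 0 := by omega
    have h3 : (j0 : ℤ) = n := by exact_mod_cast (by omega : j0 = n)
    have h4 : (n : ℤ) ≤ K + 1 := by linarith
    have h5 : (5 : ℤ) ≤ n := by exact_mod_cast hn
    exact auxn hKZ h4 h5
  have h3 := hxκ hx1
  have h4 : (n : ℤ) ≤ 2 * κ - 1 := by
    have : (n : ℤ) = j0 + x := by exact_mod_cast hx.symm
    linarith
  have h5 : (K : ℤ) ≤ 3 := auxK hKZ (by linarith)
  have hK3 : K ≤ 3 := by exact_mod_cast h5
  have hn5 : n = 5 := by
    have : (n : ℤ) ≤ 5 := by linarith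
    have : n ≤ 5 := by exact_mod_cast this
    omega
  subst hn5
  have hj04 : j0 = 4 := by omega
  subst hj04
  have g5 := hpos 5 (by omega) le_rfl
  norm_num at hplat hκ g5
  have hκ3 : (r 4 : ℤ) - r 3 = 3 := by
    push_cast at h4 hκK
    omega
  have hT : T = 2 ∨ T = 3 := by omega
  have hr3 : T ≠ 3 := by
    intro hT3
    have g1 := hLT 3 le_rfl (by omega)
    have g2 := hL 3 le_rfl g1
    norm_num at g2
    omega
  rcases Nat.lt_or_ge (r 5) 12 with hr5 | hr5
  · right
    refine ⟨rfl, ?_, ?_, ?_, ?_⟩ <;> omega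
  · left
    interval_cases K <;> omega

end Pool.Agent.Lib_helper97.Ebe
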