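import Pool.Agent.Lib_helper26.Ebe.Defs

/-!
# Reduction to homogeneous coprime families
-/

namespace Pool.Agent.Lib_helper97.Ebe

open MvPolynomial Pool.Agent.Lib_helper26.SOS Pool.Agent.Lib_helper26.Ebe

variable {n : ℕ}

/-- The change of exponents. -/
noncomputable def ex (N D : ℕ) (i0 i1 : Fin n) (c : ℕ) (α : Fin n →₀ ℕ) : Fin n →₀ ℕ :=
  α + (Finsupp.single i0 (N * (α.degree + c)) + Finsupp.single i1 ((N + 1) * (D - (α.degree + c))))

/-- The corresponding linear map on polynomials. -/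
noncomputable def Ph (N D : ℕ) (i0 i1 : Fin n) : MvPolynomial (Fin n) ℂ →ₗ[ℂ] MvPolynomial (Fin n) ℂ :=
  (basisMonomials (Fin n) ℂ).constr ℂ (fun α => monomial (ex N D i0 i1 0 α) 1)

theorem Ph_monomial (N D : ℕ) (i0 i1 : Fin n) (α : Fin n →₀ ℕ) (a : ℂ) :
    Ph N D i0 i1 (monomial α a) = monomial (ex N D i0 i1 0 α) a := by
  have h1 : (monomial α a : MvPolynomial (Fin n) ℂ) = a • basisMonomials (Fin n) ℂ α := by
    rw [coe_basisMonomials, smul_monomial, smul_eq_mul, mul_one]
  rw [h1, map_smul]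
  unfold Ph
  rw [Module.Basis.constr_basis, smul_monomial, smul_eq_mul, mul_one]

theorem Ph_cj (N D : ℕ) (i0 i1 : Fin n) (p : MvPolynomial (Fin n) ℂ) :
    Ph N D i0 i1 (cj p) = cj (Ph N D i0 i1 p) := by
  induction p using MvPolynomial.induction_on' with
  | monomial α a => unfold cj; rw [map_monomial, Ph_monomial, Ph_monomial, map_monomial]
  | add p r hp hr =>
    unfold cj at *
    rw [map_add, map_add, map_add, map_add, hp, hr]

/-- The left part of an exponent. -/
noncomputable def lp (γ : Fin n ⊕ Fin n →₀ ℕ) : Fin n →₀ ℕ :=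
  γ.comapDomain Sum.inl Sum.inl_injective.injOn

/-- The right part of an exponent. -/
noncomputable def rp (γ : Fin n ⊕ Fin n →₀ ℕ) : Fin n →₀ ℕ :=
  γ.comapDomain Sum.inr Sum.inr_injective.injOn

/-- The linear map on polynomials in two groups of variables. -/
noncomputable def Ps (N D : ℕ) (i0 i1 : Fin n) (c : ℕ) :
    MvPolynomial (Fin n ⊕ Fin n) ℂ →ₗ[ℂ] MvPolynomial (Fin n ⊕ Fin n) ℂ :=
  (basisMonomials (Fin n ⊕ Fin n) ℂ).constr ℂ
    (fun γ => monomial (Finsupp.sumElim (ex N D i0 i1 c (lp γ)) (ex N D i0 i1 c (rp γ))) 1)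

theorem Ps_monomial (N D : ℕ) (i0 i1 : Fin n) (c : ℕ) (γ : Fin n ⊕ Fin n →₀ ℕ) (a : ℂ) :
    Ps N D i0 i1 c (monomial γ a) =
      monomial (Finsupp.sumElim (ex N D i0 i1 c (lp γ)) (ex N D i0 i1 c (rp γ))) a := by
  have h1 : (monomial γ a : MvPolynomial (Fin n ⊕ Fin n) ℂ) =
      a • basisMonomials (Fin n ⊕ Fin n) ℂ γ := by
    rw [coe_basisMonomials, smul_monomial, smul_eq_mul, mul_one]
  rw [h1, map_smul]
  unfold Ps
  rw [Module.Basis.constr_basis, smul_monomial, smul_eq_mul, mul_one]

theorem lp_add_rp (α β : Fin n →₀ ℕ) :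
    lp (α.mapDomain Sum.inl + β.mapDomain Sum.inr : Fin n ⊕ Fin n →₀ ℕ) = α ∧
      rp (α.mapDomain Sum.inl + β.mapDomain Sum.inr : Fin n ⊕ Fin n →₀ ℕ) = β := by
  constructor
  · ext i
    simp only [lp, Finsupp.comapDomain_apply, Finsupp.add_apply,
      Finsupp.mapDomain_apply Sum.inl_injective]
    rw [Finsupp.mapDomain_of_notMem_range]
    · simp
    · simp
  · ext i
    simp only [rp, Finsupp.comapDomain_apply, Finsupp.add_apply,
      Finsupp.mapDomain_apply Sum.inr_injective]
    rw [Finsupp.mapDomain_of_notMem_range]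
    · simp
    · simp

theorem sumElim_eq (α β : Fin n →₀ ℕ) :
    (α.mapDomain Sum.inl + β.mapDomain Sum.inr : Fin n ⊕ Fin n →₀ ℕ) =
      Finsupp.sumElim α β := by
  ext i
  rcases i with i | i
  · rw [Finsupp.add_apply, Finsupp.mapDomain_apply Sum.inl_injective,
      Finsupp.mapDomain_of_notMem_range _ _ (by simp)]
    simp
  · rw [Finsupp.add_apply, Finsupp.mapDomain_apply Sum.inr_injective,
      Finsupp.mapDomain_of_notMem_range _ _ (by simp)]
    simp

theorem Ps_mul (N D : ℕ) (i0 i1 : Fin n) (p r : MvPolynomial (Fin n) ℂ) :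
    Ps N D i0 i1 0 (rename Sum.inl p * rename Sum.inr r) =
      rename Sum.inl (Ph N D i0 i1 p) * rename Sum.inr (Ph N D i0 i1 r) := by
  induction p using MvPolynomial.induction_on' with
  | monomial α a =>
    induction r using MvPolynomial.induction_on' with
    | monomial β b =>
      rw [Ph_monomial, Ph_monomial, rename_monomial, rename_monomial, rename_monomial,
        rename_monomial, monomial_mul, monomial_mul, Ps_monomial, (lp_add_rp α β).1,
        (lp_add_rp α β).2, sumElim_eq]
    | add p r hp hr => simp only [map_add, mul_add, hp, hr]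
  | add p r hp hr => simp only [map_add, add_mul, hp, hr]

theorem ex_succ (N D : ℕ) (i0 i1 k : Fin n) (α : Fin n →₀ ℕ) :
    ex N D i0 i1 0 (Finsupp.single k 1 + α) = Finsupp.single k 1 + ex N D i0 i1 1 α := by
  unfold ex
  rw [map_add, Finsupp.degree_single, add_zero, add_comm 1 α.degree, add_assoc]

theorem Ps_q_mul (N D : ℕ) (i0 i1 : Fin n) (A : MvPolynomial (Fin n ⊕ Fin n) ℂ) :
    Ps N D i0 i1 0 (q n * A) = q n * Ps N D i0 i1 1 A := by
  classical
  induction A using MvPolynomial.induction_on' with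
  | monomial γ a =>
    unfold q
    rw [Finset.sum_mul, Finset.sum_mul, map_sum]
    refine Finset.sum_congr rfl fun k _ => ?_
    rw [Ps_monomial]
    have hX : (X (Sum.inl k) * X (Sum.inr k) : MvPolynomial (Fin n ⊕ Fin n) ℂ) =
        monomial (Finsupp.single (Sum.inl k) 1 + Finsupp.single (Sum.inr k) 1) 1 := by
      rw [X, X, monomial_mul, one_mul]
    rw [hX, monomial_mul, monomial_mul, Ps_monomial, one_mul]
    congr 1
    have h1 : lp (Finsupp.single (Sum.inl k) 1 + Finsupp.single (Sum.inr k) 1 + γ) =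
        Finsupp.single k 1 + lp γ := by
      ext i
      simp [lp, Finsupp.single_apply]
    have h2 : rp (Finsupp.single (Sum.inl k) 1 + Finsupp.single (Sum.inr k) 1 + γ) =
        Finsupp.single k 1 + rp γ := by
      ext i
      simp [rp, Finsupp.single_apply]
    rw [h1, h2, ex_succ, ex_succ]
    ext i
    rcases i with i | i <;> simp
  | add p r hp hr => simp only [map_add, mul_add, hp, hr]

theorem Ph_isHomogeneous {N D : ℕ} (i0 i1 : Fin n) {p : MvPolynomial (Fin n) ℂ}
    (hp : p.totalDegree ≤ D) : (Ph N D i0 i1 p).IsHomogeneous ((N + 1) * D) := by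
  have h1 : Ph N D i0 i1 p = ∑ α ∈ p.support, monomial (ex N D i0 i1 0 α) (coeff α p) := by
    conv_lhs => rw [p.as_sum, map_sum]
    exact Finset.sum_congr rfl fun α _ => Ph_monomial _ _ _ _ _ _
  rw [h1]
  refine IsHomogeneous.sum _ _ _ fun α hα => ?_
  apply isHomogeneous_monomial
  have h2 : α.degree ≤ D := (le_totalDegree hα).trans hp
  unfold ex
  simp only [map_add, Finsupp.degree_single, add_zero]
  obtain ⟨e, rfl⟩ := Nat.exists_eq_add_of_le h2
  rw [Nat.add_sub_cancel_left]
  ring

theorem ex_inj {N D : ℕ} {i0 i1 : Fin n} (h01 : i1 ≠ i0) (hN : D < N) {α β : Fin n →₀ ℕ}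
    (hα : α.degree ≤ D) (hβ : β.degree ≤ D)
    (h : ex N D i0 i1 0 α = ex N D i0 i1 0 β) : α = β := by
  have h1 := DFunLike.congr_fun h i0
  simp only [ex, Finsupp.add_apply, Finsupp.single_eq_same, add_zero] at h1
  rw [Finsupp.single_eq_of_ne h01.symm, Finsupp.single_eq_of_ne h01.symm, add_zero, add_zero] at h1
  have h2 : α i0 ≤ α.degree := Finsupp.le_degree _ _
  have h3 : β i0 ≤ β.degree := Finsupp.le_degree _ _
  have h4 : α.degree = β.degree := by
    have h5 := congrArg (· / N) h1
    rw [Nat.add_mul_div_left _ _ (by omega), Nat.add_mul_div_left _ _ (by omega),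
      Nat.div_eq_of_lt (by omega), Nat.div_eq_of_lt (by omega)] at h5
    omega
  unfold ex at h
  rw [h4] at h
  exact add_right_cancel h

theorem Ph_inj {N D : ℕ} {i0 i1 : Fin n} (h01 : i1 ≠ i0) (hN : D < N)
    {p : MvPolynomial (Fin n) ℂ} (hp : p.totalDegree ≤ D) (h : Ph N D i0 i1 p = 0) : p = 0 := by
  classical
  have h1 : Ph N D i0 i1 p = ∑ α ∈ p.support, monomial (ex N D i0 i1 0 α) (coeff α p) := by
    conv_lhs => rw [p.as_sum, map_sum]
    exact Finset.sum_congr rfl fun α _ => Ph_monomial _ _ _ _ _ _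
  ext α
  rw [coeff_zero]
  by_contra hα
  have hα' : α ∈ p.support := mem_support_iff.mpr hα
  have h2 := congrArg (coeff (ex N D i0 i1 0 α)) (h1.symm.trans h)
  rw [coeff_sum, coeff_zero, Finset.sum_eq_single α] at h2
  · rw [coeff_monomial, if_pos rfl] at h2
    exact hα h2
  · intro β hβ hne
    rw [coeff_monomial, if_neg]
    intro heq
    exact hne (ex_inj h01 hN ((le_totalDegree hβ).trans hp) ((le_totalDegree hα').trans hp) heq)
  · intro h3
    exact absurd hα' h3

/-- The property of being realised by homogeneous polynomials of degree `D`. -/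
def HG (n m D : ℕ) : Prop :=
  ∃ p : Fin m → MvPolynomial (Fin n) ℂ, LinearIndependent ℂ p ∧ (∀ i, (p i).IsHomogeneous D) ∧
    ∃ A : MvPolynomial (Fin n ⊕ Fin n) ℂ,
      ∑ i, rename Sum.inl (p i) * rename Sum.inr (cj (p i)) = q n * A

theorem exists_HG {n m : ℕ} (hn : 2 ≤ n) (hm : m ∈ S 1 n) : ∃ D, HG n m D := by
  classical
  obtain ⟨p, hp, A, hA⟩ := hm
  have hpol := polarized p A hA
  rw [pow_one] at hpol
  let i0 : Fin n := ⟨0, by omega⟩
  let i1 : Fin n := ⟨1, by omega⟩
  have h01 : i1 ≠ i0 := by simp [i0, i1, Fin.ext_iff]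
  set D := Finset.univ.sup (fun i => (p i).totalDegree) with hD
  have hdeg : ∀ i, (p i).totalDegree ≤ D := fun i =>
    Finset.le_sup (f := fun i => (p i).totalDegree) (Finset.mem_univ i)
  refine ⟨(D + 1 + 1) * D, fun i => Ph (D + 1) D i0 i1 (p i), ?_, ?_, Ps (D + 1) D i0 i1 1 A, ?_⟩
  · rw [Fintype.linearIndependent_iff] at hp ⊢
    intro c hc
    apply hp c
    apply Ph_inj (N := D + 1) (D := D) h01 (by omega)
    · refine (totalDegree_finsetSum _ _).trans (Finset.sup_le fun i _ => ?_)
      exact (totalDegree_smul_le _ _).trans (hdeg i)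
    · rw [map_sum, ← hc]
      exact Finset.sum_congr rfl fun i _ => map_smul _ _ _
  · intro i
    exact Ph_isHomogeneous i0 i1 (hdeg i)
  · rw [← Ps_q_mul, ← hpol, map_sum]
    refine Finset.sum_congr rfl fun i _ => ?_
    rw [Ps_mul, Ph_cj]

theorem hc_mul_top (f g : MvPolynomial (Fin n) ℂ) :
    homogeneousComponent (f.totalDegree + g.totalDegree) (f * g) =
      homogeneousComponent f.totalDegree f * homogeneousComponent g.totalDegree g := by
  classical
  have h0 : homogeneousComponent (f.totalDegree + g.totalDegree) (f * g) =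
      homogeneousComponent (f.totalDegree + g.totalDegree)
        ((∑ i ∈ Finset.range (f.totalDegree + 1), homogeneousComponent i f) *
          ∑ i ∈ Finset.range (g.totalDegree + 1), homogeneousComponent i g) := by
    rw [sum_homogeneousComponent f, sum_homogeneousComponent g]
  rw [h0, Finset.sum_mul_sum, map_sum]
  rw [Finset.sum_eq_single f.totalDegree, map_sum, Finset.sum_eq_single g.totalDegree]
  · rw [homogeneousComponent_of_mem
      ((homogeneousComponent_isHomogeneous _ _).mul (homogeneousComponent_isHomogeneous _ _)),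
      if_pos]
    rfl
  · intro j hj hne
    rw [homogeneousComponent_of_mem
      ((homogeneousComponent_isHomogeneous _ _).mul (homogeneousComponent_isHomogeneous _ _)),
      if_neg]
    omega
  · intro h; simp at h
  · intro i hi hne
    rw [map_sum]
    refine Finset.sum_eq_zero fun j hj => ?_
    rw [homogeneousComponent_of_mem
      ((homogeneousComponent_isHomogeneous _ _).mul (homogeneousComponent_isHomogeneous _ _)),
      if_neg]
    rw [Finset.mem_range] at hi hj
    omega
  · intro h; simp at h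

theorem hc_top_ne_zero {f : MvPolynomial (Fin n) ℂ} (hf : f ≠ 0) :
    homogeneousComponent f.totalDegree f ≠ 0 := by
  classical
  obtain ⟨α, hα, h2⟩ : ∃ α ∈ f.support, f.totalDegree = α.degree := by
    have := Finset.exists_mem_eq_sup f.support (by simpa using hf)
      (fun α => α.degree)
    exact this
  intro h
  have h3 := congrArg (coeff α) h
  rw [coeff_homogeneousComponent, if_pos h2.symm, coeff_zero] at h3
  exact (mem_support_iff.mp hα) h3

theorem q_not_dvd_inl {n : ℕ} {h : MvPolynomial (Fin n) ℂ} (hh : h ≠ 0) :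
    ¬ q n ∣ rename Sum.inl h := by
  rintro ⟨t, ht⟩
  apply hh
  apply MvPolynomial.funext
  intro z
  have := congrArg (eval (Sum.elim z 0)) ht
  rw [eval_rename_inl, map_mul, eval_q] at this
  simpa using this

theorem q_not_dvd_inr {n : ℕ} {h : MvPolynomial (Fin n) ℂ} (hh : h ≠ 0) :
    ¬ q n ∣ rename Sum.inr h := by
  rintro ⟨t, ht⟩
  apply hh
  apply MvPolynomial.funext
  intro z
  have := congrArg (eval (Sum.elim 0 z)) ht
  rw [eval_rename_inr, map_mul, eval_q] at this
  simpa using this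

theorem cj_mul {n : ℕ} (f g : MvPolynomial (Fin n) ℂ) : cj (f * g) = cj f * cj g := by
  unfold cj; rw [map_mul]

theorem cj_ne_zero {n : ℕ} {f : MvPolynomial (Fin n) ℂ} (hf : f ≠ 0) : cj f ≠ 0 := by
  unfold cj
  intro h
  exact hf (map_injective _ (starRingEnd ℂ).injective (by rw [h, map_zero]))

/-- Division by a common factor. -/
theorem HG_descend {n m D : ℕ} (hn : 2 ≤ n) (hm0 : m ≠ 0)
    (p : Fin m → MvPolynomial (Fin n) ℂ) (hp : LinearIndependent ℂ p)
    (hhom : ∀ i, (p i).IsHomogeneous D)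
    (A : MvPolynomial (Fin n ⊕ Fin n) ℂ)
    (hA : ∑ i, rename Sum.inl (p i) * rename Sum.inr (cj (p i)) = q n * A)
    (h : MvPolynomial (Fin n) ℂ) (hdvd : ∀ i, h ∣ p i) (hu : ¬ IsUnit h) :
    ∃ D' < D, HG n m D' := by
  classical
  have i₀ : Fin m := ⟨0, Nat.pos_of_ne_zero hm0⟩
  have hh : h ≠ 0 := by
    rintro rfl
    exact hp.ne_zero i₀ (zero_dvd_iff.mp (hdvd i₀))
  have hdeg : 0 < h.totalDegree := by
    rw [Nat.pos_iff_ne_zero]
    intro h0
    apply hu
    rw [totalDegree_eq_zero_iff_eq_C] at h0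
    rw [h0] at hh ⊢
    exact (IsUnit.mk0 _ (by rintro h1; rw [h1, C_0] at hh; exact hh rfl)).map C
  set e := h.totalDegree with he
  set H := homogeneousComponent e h with hH
  have hH0 : H ≠ 0 := hc_top_ne_zero hh
  -- the quotients
  have key : ∀ i, ∃ s : MvPolynomial (Fin n) ℂ, p i = H * s ∧ s.IsHomogeneous (D - e) ∧ e ≤ D := by
    intro i
    obtain ⟨r, hr⟩ := hdvd i
    have hpi := hp.ne_zero i
    have hr0 : r ≠ 0 := by rintro rfl; exact hpi (by rw [hr, mul_zero])
    have h1 := hc_mul_top h r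
    rw [← hr, ← he] at h1
    rw [homogeneousComponent_of_mem (hhom i)] at h1
    have h2 : e + r.totalDegree = D := by
      by_contra hne
      rw [if_neg hne] at h1
      exact mul_ne_zero hH0 (hc_top_ne_zero hr0) h1.symm
    rw [if_pos h2] at h1
    refine ⟨_, h1, ?_, by omega⟩
    have h3 : D - e = r.totalDegree := by omega
    rw [h3]
    exact homogeneousComponent_isHomogeneous _ _
  choose s hs1 hs2 hs3 using key
  have heD := hs3 i₀
  refine ⟨D - e, by omega, s, ?_, hs2, ?_⟩
  · have h1 : p = (LinearMap.mulLeft ℂ H) ∘ s := by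
      funext i
      exact hs1 i
    rw [h1] at hp
    exact hp.of_comp _
  · have h1 : ∑ i, rename Sum.inl (p i) * rename Sum.inr (cj (p i)) =
        (rename Sum.inl H * rename Sum.inr (cj H)) *
          ∑ i, rename Sum.inl (s i) * rename Sum.inr (cj (s i)) := by
      rw [Finset.mul_sum]
      refine Finset.sum_congr rfl fun i _ => ?_
      rw [hs1 i, cj_mul, map_mul, map_mul]
      ring
    have h2 : q n ∣ (rename Sum.inl H * rename Sum.inr (cj H)) *
          ∑ i, rename Sum.inl (s i) * rename Sum.inr (cj (s i)) := ⟨A, h1.symm.trans hA⟩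
    rcases (q_prime hn).dvd_or_dvd h2 with h3 | h3
    · rcases (q_prime hn).dvd_or_dvd h3 with h4 | h4
      · exact absurd h4 (q_not_dvd_inl hH0)
      · exact absurd h4 (q_not_dvd_inr (cj_ne_zero hH0))
    · obtain ⟨B, hB⟩ := h3
      exact ⟨B, hB⟩

/-- Module (H): reduction to homogeneous coprime families. -/
theorem homogeneous_coprime {n m : ℕ} (hn : 2 ≤ n) (hm : m ∈ S 1 n) (hm0 : m ≠ 0) :
    ∃ D, ∃ p : Fin m → MvPolynomial (Fin n) ℂ, LinearIndependent ℂ p ∧
      (∀ i, (p i).IsHomogeneous D) ∧ (∀ h, (∀ i, h ∣ p i) → IsUnit h) ∧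
      ∃ A : MvPolynomial (Fin n ⊕ Fin n) ℂ,
        ∑ i, rename Sum.inl (p i) * rename Sum.inr (cj (p i)) = q n * A := by
  classical
  have hex := exists_HG hn hm
  obtain ⟨p, hp, hhom, A, hA⟩ := Nat.find_spec hex
  refine ⟨Nat.find hex, p, hp, hhom, ?_, A, hA⟩
  intro h hdvd
  by_contra hu
  obtain ⟨D', hD', hG⟩ := HG_descend hn hm0 p hp hhom A hA h hdvd hu
  exact Nat.find_min hex hD' hG

end Pool.Agent.Lib_helper97.Ebe
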