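import Pool.Agent.Lib_helper97.Ebe.X2

/-!
# Three variables: if the rank on generic planes is at most three then `dim U_a ≤ 1`
-/

namespace Pool.Agent.Lib_helper97.Ebe

open MvPolynomial Module Pool.Agent.Lib_helper26.Ebe Pool.Agent.Lib_helper26.SOS

variable {n m : ℕ}

/-- Either `V` contains no multiple of the square of a generic linear form, or there is a
polynomial family divisible by `q ^ 2`. -/
theorem sq_family (hn : 2 ≤ n) (V : Submodule ℂ (MvPolynomial (Fin n) ℂ))
    [FiniteDimensional ℂ V] :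
    Gen (fun b : Fin n → ℂ => ∀ v ∈ V, lf b ^ 2 ∣ v → v = 0) ∨
    ∃ (m : ℕ) (p x : Fin m → MvPolynomial (Fin n) ℂ) (k : ℕ)
      (w : MvPolynomial (Fin n ⊕ Fin n) ℂ), (∀ j, p j ∈ V) ∧ ¬ q n ∣ w ∧
      fam p x = q n ^ (k + 2) * w := by
  classical
  let p : Fin (finrank ℂ V) → MvPolynomial (Fin n) ℂ := fun j => (finBasis ℂ V j).1
  have hp : LinearIndependent ℂ p :=
    (finBasis ℂ V).linearIndependent.map' V.subtype V.ker_subtype
  have hpV : ∀ j, p j ∈ V := fun j => (finBasis ℂ V j).2
  have hrep : ∀ v ∈ V, ∃ c : Fin (finrank ℂ V) → ℂ, v = ∑ j, c j • p j := by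
    intro v hv
    refine ⟨fun j => (finBasis ℂ V).repr ⟨v, hv⟩ j, ?_⟩
    have := (finBasis ℂ V).sum_repr ⟨v, hv⟩
    have := congrArg Subtype.val this
    rw [Submodule.coe_sum] at this
    exact this.symm
  rcases kernel_dichotomy (τ := Fin n)
    ({r | ∃ Y ∈ kerF n, r = fun j => aeval Y (p j)} ∪
      {r | ∃ Y ∈ kerF n, ∃ i, r = fun j => aeval Y (pderiv i (p j))} :
        Set (Fin (finrank ℂ V) → MvPolynomial (Fin n) ℂ)) with h | ⟨x, hx0, hx⟩
  · left
    refine (h.and (gen_ne_zero (by omega))).mono fun b hb v hvV hv => ?_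
    obtain ⟨hb, hb0⟩ := hb
    obtain ⟨c, hc⟩ := hrep v hvV
    obtain ⟨g, hg⟩ := hv
    have hkr : ∀ Y ∈ kerF n, krl b (fun i => eval b (Y i)) = 0 := by
      intro Y hY
      have : (fun i => eval b (Y i)) ∈ Zs (kerF n) b := ⟨Y, hY, rfl⟩
      rw [Zs_kerF hb0] at this
      exact this
    have hc0 : c = 0 := by
      apply hb
      rintro r (⟨Y, hY, rfl⟩ | ⟨Y, hY, i, rfl⟩)
      · have h1 : eval (fun i => eval b (Y i)) v = 0 := by
          rw [hg, map_mul, map_pow, eval_lf', hkr Y hY]
          ring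
        rw [hc, map_sum] at h1
        rw [← h1]
        refine Finset.sum_congr rfl fun j _ => ?_
        rw [eval_aeval, smul_eval, mul_comm]
      · have h1 : eval (fun i => eval b (Y i)) (pderiv i v) = 0 := by
          rw [hg, pderiv_mul, pderiv_pow, map_add, map_mul, map_mul, map_mul, map_mul, map_pow,
            map_pow, eval_lf', hkr Y hY]
          simp
        rw [hc, map_sum, map_sum] at h1
        rw [← h1]
        refine Finset.sum_congr rfl fun j _ => ?_
        rw [eval_aeval, Derivation.map_smul, smul_eval, mul_comm]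
    rw [hc, hc0]
    simp
  right
  -- the family
  have hv0 := fam_ne_zero hp hx0
  have hqv : q n ∣ fam p x := by
    apply q_dvd_of_eval hn
    intro z b hb hz
    have : z ∈ Zs (kerF n) b := by
      rw [Zs_kerF hb]
      exact hz
    obtain ⟨Y, hY, rfl⟩ := this
    have h1 := congrArg (eval b) (hx _ (Or.inl ⟨Y, hY, rfl⟩))
    rw [map_sum, map_zero] at h1
    rw [eval_fam, ← h1]
    refine Finset.sum_congr rfl fun j _ => ?_
    rw [map_mul, eval_aeval]
  have hqv' : ∀ i, q n ∣ pderiv (Sum.inl i) (fam p x) := by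
    intro i
    rw [pderiv_inl_fam]
    apply q_dvd_of_eval hn
    intro z b hb hz
    have : z ∈ Zs (kerF n) b := by
      rw [Zs_kerF hb]
      exact hz
    obtain ⟨Y, hY, rfl⟩ := this
    have h1 := congrArg (eval b) (hx _ (Or.inr ⟨Y, hY, i, rfl⟩))
    rw [map_sum, map_zero] at h1
    rw [eval_fam, ← h1]
    refine Finset.sum_congr rfl fun j _ => ?_
    rw [map_mul, eval_aeval]
  have hq := q_prime hn
  have hq0 := q_ne_zero (n := n) (by omega)
  obtain ⟨k, w, hw, hk⟩ : ∃ k w, ¬ q n ∣ w ∧ fam p x = q n ^ k * w := by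
    have hf : FiniteMultiplicity (q n) (fam p x) :=
      FiniteMultiplicity.of_not_isUnit hq.not_isUnit hv0
    obtain ⟨c, hc, hc'⟩ := hf.exists_eq_pow_mul_and_not_dvd
    exact ⟨_, c, hc', hc⟩
  obtain ⟨e, rfl⟩ : ∃ e, k = e + 2 := by
    rcases k with _ | _ | e
    · rw [pow_zero, one_mul] at hk
      rw [hk] at hqv
      exact absurd hqv hw
    · rw [zero_add, pow_one] at hk
      have h1 := hqv' ⟨0, by omega⟩
      rw [hk, pderiv_mul, pderiv_inl_q] at h1
      have h2 := (dvd_add_left (dvd_mul_right _ _)).mp h1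
      rcases hq.dvd_or_dvd h2 with h3 | h3
      · rw [← rename_X (Sum.inr : Fin n → Fin n ⊕ Fin n)] at h3
        exact absurd h3 (q_not_dvd_inr (X_ne_zero _))
      · exact absurd h3 hw
    · exact ⟨e, rfl⟩
  exact ⟨_, p, x, e, w, hpV, hw, hk⟩

/-- Iterated derivatives of a family `q ^ K * w`. -/
theorem family_der {V : Submodule ℂ (MvPolynomial (Fin n) ℂ)}
    {p x : Fin m → MvPolynomial (Fin n) ℂ} (hp : ∀ j, p j ∈ V) {K : ℕ}
    {w : MvPolynomial (Fin n ⊕ Fin n) ℂ} (h : fam p x = q n ^ K * w) (L : List (Fin n))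
    (hL : L.length = K) (b : Fin n → ℂ) :
    ∃ H : MvPolynomial (Fin n) ℂ, mon L * sp b w + lf b * H ∈ V := by
  obtain ⟨g, hg⟩ := der_sum p x L
  obtain ⟨H, hH⟩ := der_q (D := K) w L hL.le
  have h1 : sp b (fam p g) ∈ V := by
    rw [sp_fam]
    exact V.sum_mem fun j _ => V.smul_mem _ (hp j)
  have h2 : fam p g = C (K.descFactorial L.length : ℂ) * rename Sum.inl (mon L) * w +
      q n * H := by
    have h3 : fam p g = der L (fam p x) := hg.symm
    rw [h3, h, hH, hL, Nat.sub_self, pow_zero, mul_one, zero_add, pow_one]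
  have hc : (K.descFactorial L.length : ℂ) ≠ 0 := by
    rw [hL, Nat.descFactorial_self]
    exact_mod_cast K.factorial_ne_zero
  rw [h2, map_add, map_mul, map_mul, map_mul, sp_inl, sp_q'] at h1
  have h4 : sp b (C (K.descFactorial L.length : ℂ)) = C (K.descFactorial L.length : ℂ) := by
    simp [sp]
  rw [h4] at h1
  have h5 := V.smul_mem (K.descFactorial L.length : ℂ)⁻¹ h1
  refine ⟨(K.descFactorial L.length : ℂ)⁻¹ • sp b H, ?_⟩
  convert h5 using 1
  rw [smul_add, mul_smul_comm, smul_eq_C_mul (C _ * mon L * sp b w), ← mul_assoc, ← mul_assoc,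
    ← C_mul, inv_mul_cancel₀ hc, C_1, one_mul]

/-- Products of linear forms in a space containing all monomials of the same degree. -/
theorem prod_lf_mem {N : Submodule ℂ (MvPolynomial (Fin n) ℂ)} {K : ℕ}
    (h : ∀ L : List (Fin n), L.length = K → mon L ∈ N) :
    ∀ (A : List (Fin n → ℂ)) (L : List (Fin n)), A.length + L.length = K →
      (A.map lf).prod * mon L ∈ N := by
  intro A
  induction A with
  | nil =>
    intro L hL
    rw [List.length_nil, zero_add] at hL
    rw [List.map_nil, List.prod_nil, one_mul]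
    exact h L hL
  | cons a A ih =>
    intro L hL
    rw [List.length_cons] at hL
    have h1 : ((a :: A).map lf).prod * mon L = ∑ i, a i • ((A.map lf).prod * mon (i :: L)) := by
      rw [List.map_cons, List.prod_cons]
      conv_lhs => rw [lf]
      rw [Finset.sum_mul, Finset.sum_mul]
      refine Finset.sum_congr rfl fun i _ => ?_
      have : mon (i :: L) = X i * mon L := by simp [mon]
      rw [this, smul_eq_C_mul]
      ring
    rw [h1]
    exact N.sum_mem fun i _ => N.smul_mem _ (ih _ (by rw [List.length_cons]; omega))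

theorem exists_lift_X {k : ℕ} {g : Fin n × Fin k → ℂ} (hg : Function.Injective (mv g))
    (i : Fin k) : ∃ a' : Fin n → ℂ, sub g (lf a') = X i := by
  obtain ⟨a', ha'⟩ := exists_lift_functional hg (Pi.single i 1)
  refine ⟨a', ?_⟩
  apply MvPolynomial.funext
  intro x
  rw [Pool.Agent.Lib_helper26.Ebe.eval_sub, eval_lf', ha', eval_X, krl_apply,
    Finset.sum_eq_single i]
  · simp
  · intro j _ hj
    simp [hj]
  · simp

/-- A coprime space of binary forms of degree at least three and of dimension at most three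
does not contain `S_2 · s`. -/
theorem no_S2_mul {D : ℕ} (hD : 3 ≤ D) {W : Submodule ℂ (MvPolynomial (Fin 2) ℂ)}
    [FiniteDimensional ℂ W] (hW : W ≤ homogeneousSubmodule (Fin 2) ℂ D)
    (hr : finrank ℂ W ≤ 3) (hc : Cop W) {s : MvPolynomial (Fin 2) ℂ} (hs : s ≠ 0)
    (h0 : X 0 * X 0 * s ∈ W) (h1 : X 0 * X 1 * s ∈ W) (h2 : X 1 * X 1 * s ∈ W) : False := by
  classical
  let e : Fin 3 → MvPolynomial (Fin 2) ℂ := ![X 0 * X 0 * s, X 0 * X 1 * s, X 1 * X 1 * s]
  have he : LinearIndependent ℂ e := by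
    rw [Fintype.linearIndependent_iff]
    intro c hc
    rw [Fin.sum_univ_three] at hc
    have h3 : (C (c 0) * (X 0 * X 0) + C (c 1) * (X 0 * X 1) + C (c 2) * (X 1 * X 1)) * s = 0 := by
      have he0 : e 0 = X 0 * X 0 * s := rfl
      have he1 : e 1 = X 0 * X 1 * s := rfl
      have he2 : e 2 = X 1 * X 1 * s := rfl
      rw [← hc, he0, he1, he2]
      simp only [smul_eq_C_mul]
      ring
    have h4 := (mul_eq_zero.mp h3).resolve_right hs
    have e0 := congrArg (eval ![1, 0]) h4
    have e2 := congrArg (eval ![0, 1]) h4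
    have e1 := congrArg (eval ![1, 1]) h4
    simp at e0 e1 e2
    rw [e0, e2, zero_add, add_zero] at e1
    intro i
    fin_cases i
    · exact e0
    · exact e1
    · exact e2
  have heW : ∀ i, e i ∈ W := by
    intro i
    fin_cases i
    · exact h0
    · exact h1
    · exact h2
  have hspan : Submodule.span ℂ (Set.range e) = W := by
    apply Submodule.eq_of_le_of_finrank_le
    · rw [Submodule.span_le]
      rintro _ ⟨i, rfl⟩
      exact heW i
    · rw [finrank_span_eq_card he, Fintype.card_fin]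
      exact hr
  have hdvd : ∀ v ∈ W, s ∣ v := by
    intro v hv
    rw [← hspan] at hv
    obtain ⟨c, rfl⟩ := (Submodule.mem_span_range_iff_exists_fun ℂ).mp hv
    apply Finset.dvd_sum
    intro i _
    rw [smul_eq_C_mul]
    apply Dvd.dvd.mul_left
    fin_cases i
    · exact dvd_mul_left _ _
    · exact dvd_mul_left _ _
    · exact dvd_mul_left _ _
  have hu := hc s hdvd
  rw [isUnit_iff_eq_C_of_isReduced] at hu
  obtain ⟨r, hr, rfl⟩ := hu
  have h5 : (X 0 * X 0 * C r : MvPolynomial (Fin 2) ℂ).IsHomogeneous (1 + 1 + 0) :=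
    ((isHomogeneous_X _ _).mul (isHomogeneous_X _ _)).mul (isHomogeneous_C _ _)
  have h6 : (X 0 * X 0 * C r : MvPolynomial (Fin 2) ℂ).IsHomogeneous D := by
    rw [← mem_homogeneousSubmodule]
    exact hW h0
  have h7 := h5.inj_right h6 (mul_ne_zero (mul_ne_zero (X_ne_zero _) (X_ne_zero _)) hs)
  omega

/-- Polynomial parametrization of the planes in `ℂ^3`. -/
noncomputable def planeF : Fin 3 × Fin 2 → MvPolynomial (Fin 3 ⊕ (Fin 2 × Fin 2)) ℂ :=
  fun x => (![-(X (Sum.inl 1) * X (Sum.inr (0, x.2))) - X (Sum.inl 2) * X (Sum.inr (1, x.2)),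
    X (Sum.inl 0) * X (Sum.inr (0, x.2)), X (Sum.inl 0) * X (Sum.inr (1, x.2))] : Fin 3 → _) x.1

theorem eval_aeval' {τ σ : Type*} (y : σ → MvPolynomial τ ℂ) (x : τ → ℂ)
    (f : MvPolynomial σ ℂ) : eval x (aeval y f) = eval (fun i => eval x (y i)) f := by
  have : ((eval x).comp ((aeval y : MvPolynomial σ ℂ →ₐ[ℂ] MvPolynomial τ ℂ) :
      MvPolynomial σ ℂ →+* MvPolynomial τ ℂ)) = eval (fun i => eval x (y i)) := by
    apply MvPolynomial.ringHom_ext
    · intro r
      simp [MvPolynomial.algebraMap_eq]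
    · intro i
      simp
  exact RingHom.congr_fun this f

/-- Transfer of genericity from the parametrizations of planes to the planes. -/
theorem gen_transfer {P : (Fin 3 × Fin 2 → ℂ) → Prop} (h : Gen P) :
    Gen (fun b : Fin 3 → ℂ => ∃ g, P g ∧ Function.Injective (mv g) ∧
      Set.range (mv g) = (kr b : Set (Fin 3 → ℂ))) := by
  classical
  obtain ⟨Φ, h0, hΦ⟩ := h
  let det : MvPolynomial (Fin 3 ⊕ (Fin 2 × Fin 2)) ℂ :=
    X (Sum.inr (0, 0)) * X (Sum.inr (1, 1)) - X (Sum.inr (0, 1)) * X (Sum.inr (1, 0))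
  let Ψ : MvPolynomial (Fin 3 ⊕ (Fin 2 × Fin 2)) ℂ := aeval planeF Φ * X (Sum.inl 0) * det
  have hΨ : Ψ ≠ 0 := by
    let μ : MvPolynomial (Fin 3 × Fin 2) ℂ := X (1, 0) * X (2, 1) - X (1, 1) * X (2, 0)
    have hμ : μ ≠ 0 := by
      intro h
      have := congrArg (eval (fun x : Fin 3 × Fin 2 =>
        if x = (1, 0) then (1 : ℂ) else if x = (2, 1) then 1 else 0)) h
      simp [μ] at this
    obtain ⟨g, hg⟩ := exists_eval_ne_zero (mul_ne_zero h0 hμ)
    rw [map_mul] at hg
    have hg1 := left_ne_zero_of_mul hg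
    have hg2 := right_ne_zero_of_mul hg
    let β : Fin 3 → ℂ := ![g (1, 0) * g (2, 1) - g (1, 1) * g (2, 0),
      g (2, 0) * g (0, 1) - g (2, 1) * g (0, 0), g (0, 0) * g (1, 1) - g (0, 1) * g (1, 0)]
    have hβ : β 0 ≠ 0 := by
      simpa [μ, β] using hg2
    let M : Fin 2 × Fin 2 → ℂ := fun x => g (x.1.succ, x.2) / β 0
    have hx : ∀ x, eval (Sum.elim β M) (planeF x) = g x := by
      rintro ⟨i, j⟩
      have h3 : β 0 * g (0, j) + β 1 * g (1, j) + β 2 * g (2, j) = 0 := by
        fin_cases j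
        · simp [β]; ring
        · simp [β]; ring
      have p0 : planeF (0, j) = -(X (Sum.inl 1) * X (Sum.inr (0, j))) -
        X (Sum.inl 2) * X (Sum.inr (1, j)) := rfl
      have p1 : planeF (1, j) = X (Sum.inl 0) * X (Sum.inr (0, j)) := rfl
      have p2 : planeF (2, j) = X (Sum.inl 0) * X (Sum.inr (1, j)) := rfl
      fin_cases i
      · show eval _ (planeF (0, j)) = g (0, j)
        rw [p0]
        simp only [map_sub, map_neg, map_mul, eval_X, Sum.elim_inl, Sum.elim_inr, M,
          Fin.succ_zero_eq_one, Fin.succ_one_eq_two]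
        field_simp
        linear_combination -h3
      · show eval _ (planeF (1, j)) = g (1, j)
        rw [p1]
        simp only [map_mul, eval_X, Sum.elim_inl, Sum.elim_inr, M, Fin.succ_zero_eq_one]
        field_simp
      · show eval _ (planeF (2, j)) = g (2, j)
        rw [p2]
        simp only [map_mul, eval_X, Sum.elim_inl, Sum.elim_inr, M, Fin.succ_one_eq_two]
        field_simp
    intro h
    have h4 := congrArg (eval (Sum.elim β M)) h
    rw [map_mul, map_mul, eval_aeval', map_zero] at h4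
    have h5 : (fun i => eval (Sum.elim β M) (planeF i)) = g := funext hx
    rw [h5, eval_X, Sum.elim_inl] at h4
    have h6 := (mul_eq_zero.mp h4).resolve_left (mul_ne_zero hg1 hβ)
    simp only [det, map_sub, map_mul, eval_X, Sum.elim_inr, M, Fin.succ_zero_eq_one,
      Fin.succ_one_eq_two] at h6
    have h7 : β 0 = g (1, 0) * g (2, 1) - g (1, 1) * g (2, 0) := rfl
    apply hβ
    field_simp at h6
    rw [h7]
    simpa using h6
  have hgen : Gen (fun x : Fin 3 ⊕ (Fin 2 × Fin 2) → ℂ => eval x Ψ ≠ 0) := ⟨Ψ, hΨ, fun x hx => hx⟩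
  refine hgen.pair.mono fun b hb => ?_
  obtain ⟨M, hM⟩ := hb.exists
  simp only [Ψ, map_mul] at hM
  have hM1 := left_ne_zero_of_mul (left_ne_zero_of_mul hM)
  have hM2 := right_ne_zero_of_mul (left_ne_zero_of_mul hM)
  have hM3 := right_ne_zero_of_mul hM
  rw [eval_aeval'] at hM1
  rw [eval_X, Sum.elim_inl] at hM2
  let g : Fin 3 × Fin 2 → ℂ := fun i => eval (Sum.elim b M) (planeF i)
  have hg0 : ∀ j, g (0, j) = -(b 1 * M (0, j)) - b 2 * M (1, j) := by
    intro j
    simp [g, planeF]
  have hg1 : ∀ j, g (1, j) = b 0 * M (0, j) := by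
    intro j
    simp [g, planeF]
  have hg2 : ∀ j, g (2, j) = b 0 * M (1, j) := by
    intro j
    simp [g, planeF]
  have hdet : M (0, 0) * M (1, 1) - M (0, 1) * M (1, 0) ≠ 0 := by
    simpa [det] using hM3
  have hinj : Function.Injective (mv g) := by
    intro x y hxy
    have h1 := congrFun hxy 1
    have h2 := congrFun hxy 2
    simp only [mv, Fin.sum_univ_two, hg1, hg2] at h1 h2
    have h3 : M (0, 0) * (x 0 - y 0) + M (0, 1) * (x 1 - y 1) = 0 := by
      apply mul_left_cancel₀ hM2
      linear_combination h1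
    have h4 : M (1, 0) * (x 0 - y 0) + M (1, 1) * (x 1 - y 1) = 0 := by
      apply mul_left_cancel₀ hM2
      linear_combination h2
    have h5 : x 0 - y 0 = 0 := by
      apply mul_left_cancel₀ hdet
      linear_combination M (1, 1) * h3 - M (0, 1) * h4
    have h6 : x 1 - y 1 = 0 := by
      apply mul_left_cancel₀ hdet
      linear_combination M (0, 0) * h4 - M (1, 0) * h3
    funext i
    fin_cases i
    · exact sub_eq_zero.mp h5
    · exact sub_eq_zero.mp h6
  have hb0 : b ≠ 0 := by
    rintro rfl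
    exact hM2 rfl
  refine ⟨g, hΦ _ hM1, hinj, ?_⟩
  have hle : mvS g ≤ kr b := by
    intro z hz
    rw [← SetLike.mem_coe, coe_mvS] at hz
    obtain ⟨x, rfl⟩ := hz
    rw [mem_kr]
    simp only [mv, Fin.sum_univ_two, Fin.sum_univ_three, hg0, hg1, hg2]
    ring
  have heq : mvS g = kr b := by
    apply Submodule.eq_of_le_of_finrank_eq hle
    have h1 : finrank ℂ (mvS g) = 2 := by
      have := LinearMap.finrank_range_of_inj
        (f := Matrix.toLin' (Matrix.of fun i j => g (i, j))) hinj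
      rw [finrank_fin_fun] at this
      exact this
    have := finrank_kr hb0
    omega
  rw [← coe_mvS, heq]

theorem map_sub_homogeneous {k D : ℕ} (g : Fin n × Fin k → ℂ)
    {V : Submodule ℂ (MvPolynomial (Fin n) ℂ)} (hV : V ≤ homogeneousSubmodule (Fin n) ℂ D) :
    V.map (sub g).toLinearMap ≤ homogeneousSubmodule (Fin k) ℂ D := by
  rintro _ ⟨v, hv, rfl⟩
  have h1 := hV hv
  rw [mem_homogeneousSubmodule] at h1 ⊢
  have := h1.aeval (fun i => ∑ j, C (g (i, j)) * X j) (n := 1) (fun i =>
    IsHomogeneous.sum _ _ _ fun j _ => by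
      have := (isHomogeneous_C (Fin k) (g (i, j))).mul (isHomogeneous_X ℂ j)
      rwa [zero_add] at this)
  rw [one_mul] at this
  exact this

/-- The first part: no multiples of squares. -/
theorem gen_sq3 (V : Submodule ℂ (MvPolynomial (Fin 3) ℂ)) [FiniteDimensional ℂ V] {D : ℕ}
    (hD : 3 ≤ D) (hV : V ≤ homogeneousSubmodule (Fin 3) ℂ D)
    (hc : Gen (fun g : Fin 3 × Fin 2 → ℂ => Cop (V.map (sub g).toLinearMap)))
    (hr : rk V 2 ≤ 3) :
    Gen (fun b : Fin 3 → ℂ => ∀ v ∈ V, lf b ^ 2 ∣ v → v = 0) := by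
  rcases sq_family (by norm_num : 2 ≤ 3) V with h | ⟨m, p, x, k, w, hp, hw, hk⟩
  · exact h
  exfalso
  obtain ⟨Φ, hΦ0, hΦ⟩ := gen_transfer hc
  have hq := q_prime (n := 3) (by norm_num)
  obtain ⟨z, b, hzb, hwb, hb0⟩ := exists_point (by norm_num) (w * rename Sum.inr Φ) (by
    intro hd
    rcases hq.dvd_or_dvd hd with h3 | h3
    · exact hw h3
    · exact q_not_dvd_inr hΦ0 h3) 0
  rw [map_mul, eval_rename_inr] at hwb
  have hbn : b ≠ 0 := by
    rintro rfl
    exact hb0 rfl
  obtain ⟨g, hcop, hinj, hrange⟩ := hΦ b (right_ne_zero_of_mul hwb)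
  have hzk : z ∈ kr b := by
    rw [mem_kr, ← hzb]
    exact Finset.sum_congr rfl fun i _ => mul_comm _ _
  have hω : sub g (sp b w) ≠ 0 := by
    intro h0
    rw [sub_eq_zero_iff, hrange] at h0
    apply left_ne_zero_of_mul hwb
    rw [← eval_sp]
    exact h0 z hzk
  have hgb : sub g (lf b) = 0 := by
    rw [sub_eq_zero_iff, hrange]
    intro z hz
    rw [eval_lf']
    exact hz
  let N : Submodule ℂ (MvPolynomial (Fin 3) ℂ) :=
    (V.map (sub g).toLinearMap).comap
      (LinearMap.mulRight ℂ (sub g (sp b w)) ∘ₗ (sub g).toLinearMap)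
  have hN : ∀ f, f ∈ N ↔ sub g f * sub g (sp b w) ∈ V.map (sub g).toLinearMap :=
    fun f => Iff.rfl
  have hmon : ∀ L : List (Fin 3), L.length = k + 2 → mon L ∈ N := by
    intro L hL
    rw [hN]
    obtain ⟨H, hH⟩ := family_der hp hk L hL b
    refine ⟨_, hH, ?_⟩
    rw [AlgHom.toLinearMap_apply, map_add, map_mul, map_mul, hgb, zero_mul, add_zero]
  obtain ⟨a0, ha0⟩ := exists_lift_X hinj 0
  obtain ⟨a1, ha1⟩ := exists_lift_X hinj 1
  have hprod : ∀ a a', sub g (lf a) * sub g (lf a') * (X 0 ^ k * sub g (sp b w)) ∈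
      V.map (sub g).toLinearMap := by
    intro a a'
    have h1 := prod_lf_mem hmon (a :: a' :: List.replicate k a0) [] (by simp)
    rw [hN] at h1
    convert h1 using 1
    simp only [mon, List.map_cons, List.map_replicate, List.prod_cons, List.prod_replicate,
      List.map_nil, List.prod_nil, mul_one, map_mul, map_pow, ha0]
    ring
  refine no_S2_mul hD (map_sub_homogeneous g hV) ((finrank_map_le_rk V g).trans hr) hcop
    (s := X 0 ^ k * sub g (sp b w)) (mul_ne_zero (pow_ne_zero _ (X_ne_zero _)) hω) ?_ ?_ ?_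
  · have := hprod a0 a0
    rwa [ha0] at this
  · have := hprod a0 a1
    rwa [ha0, ha1] at this
  · have := hprod a1 a1
    rwa [ha1] at this

/-- In three variables, if the rank on generic planes is at most three then generically
`dim U_a ≤ 1`. -/
theorem finrank_U_le_one (V : Submodule ℂ (MvPolynomial (Fin 3) ℂ)) [FiniteDimensional ℂ V]
    {D : ℕ} (hD : 3 ≤ D) (hV : V ≤ homogeneousSubmodule (Fin 3) ℂ D)
    (hc : Gen (fun g : Fin 3 × Fin 2 → ℂ => Cop (V.map (sub g).toLinearMap)))
    (hr : rk V 2 ≤ 3) :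
    Gen (fun a : Fin 3 → ℂ => finrank ℂ (U V a) ≤ 1) := by
  classical
  refine ((((gen_sq3 V hD hV hc hr).and (first_order (by norm_num) V)).and
    (gen_transfer hc)).and (gen_ne_zero (by norm_num))).mono fun b hb => ?_
  obtain ⟨⟨⟨hsq, hFO⟩, g, hcop, hinj, hrange⟩, hb0⟩ := hb
  by_contra hlt
  push Not at hlt
  have hfd := U_fd V hb0
  have hgb : sub g (lf b) = 0 := by
    rw [sub_eq_zero_iff, hrange]
    intro z hz
    rw [eval_lf']
    exact hz
  obtain ⟨u, hu0⟩ : ∃ u : U V b, u ≠ 0 := by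
    have : Nontrivial (U V b) := Module.nontrivial_of_finrank_pos (R := ℂ) (by omega)
    exact exists_ne 0
  obtain ⟨u', huu'⟩ := exists_linearIndependent_pair_of_one_lt_finrank hlt hu0
  rw [LinearIndependent.pair_iff] at huu'
  have hτ : ∀ c c' : ℂ, c • sub g u.1 + c' • sub g u'.1 = 0 → c = 0 ∧ c' = 0 := by
    intro c c' h
    apply huu'
    rw [← map_smul, ← map_smul, ← map_add, sub_eq_zero_iff, hrange] at h
    obtain ⟨f, hf⟩ := (lf_dvd_iff hb0 _).mpr h
    have h1 : lf b * (c • u.1 + c' • u'.1) ∈ V :=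
      (U V b).add_mem ((U V b).smul_mem c u.2) ((U V b).smul_mem c' u'.2)
    have h2 := hsq _ h1 ⟨f, by rw [hf]; ring⟩
    apply Subtype.ext
    exact (mul_eq_zero.mp h2).resolve_left (lf_ne_zero hb0)
  have hτ0 : sub g u.1 ≠ 0 := by
    intro h
    have := hτ 1 0 (by rw [h]; simp)
    exact one_ne_zero this.1
  have hτ0' : sub g u'.1 ≠ 0 := by
    intro h
    have := hτ 0 1 (by rw [h]; simp)
    exact one_ne_zero this.2
  have hXu : ∀ (v : U V b) (i : Fin 2), X i * sub g v.1 ∈ V.map (sub g).toLinearMap := by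
    intro v i
    obtain ⟨a', ha'⟩ := exists_lift_X hinj i
    obtain ⟨Dv, hDv⟩ := hFO v.1 v.2
    refine ⟨_, hDv a', ?_⟩
    rw [AlgHom.toLinearMap_apply, map_add, map_mul, map_mul, hgb, zero_mul, add_zero, ha']
  have hWr := (finrank_map_le_rk V g).trans hr
  obtain ⟨c, hc0, hcne⟩ : ∃ c : Fin 4 → ℂ, c 0 • (X 0 * sub g u.1) + c 1 • (X 1 * sub g u.1) +
      c 2 • (X 0 * sub g u'.1) + c 3 • (X 1 * sub g u'.1) = 0 ∧ c ≠ 0 := by
    let e : Fin 4 → MvPolynomial (Fin 2) ℂ :=
      ![X 0 * sub g u.1, X 1 * sub g u.1, X 0 * sub g u'.1, X 1 * sub g u'.1]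
    have heW : ∀ i, e i ∈ V.map (sub g).toLinearMap := by
      intro i
      fin_cases i
      · exact hXu u 0
      · exact hXu u 1
      · exact hXu u' 0
      · exact hXu u' 1
    have he : ¬ LinearIndependent ℂ e := by
      intro he
      have h8 : LinearIndependent ℂ (fun i => (⟨e i, heW i⟩ : V.map (sub g).toLinearMap)) := by
        apply LinearIndependent.of_comp (V.map (sub g).toLinearMap).subtype
        exact he
      have h9 := h8.fintype_card_le_finrank
      rw [Fintype.card_fin] at h9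
      omega
    rw [Fintype.not_linearIndependent_iff] at he
    obtain ⟨c, hc, i, hi⟩ := he
    refine ⟨c, ?_, fun h => hi (by rw [h]; rfl)⟩
    rw [Fin.sum_univ_four] at hc
    exact hc
  let α : Fin 2 → ℂ := ![c 0, c 1]
  let α' : Fin 2 → ℂ := ![c 2, c 3]
  have hα : lf α = C (c 0) * X 0 + C (c 1) * X 1 := by
    rw [lf, Fin.sum_univ_two]
    rfl
  have hα' : lf α' = C (c 2) * X 0 + C (c 3) * X 1 := by
    rw [lf, Fin.sum_univ_two]
    rfl
  have hrel : lf α * sub g u.1 + lf α' * sub g u'.1 = 0 := by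
    rw [← hc0, hα, hα']
    simp only [smul_eq_C_mul]
    ring
  by_cases hI : Ind α α'
  · have h1 : lf α ∣ sub g u'.1 := by
      have h2 : lf α ∣ lf α' * sub g u'.1 :=
        ⟨-sub g u.1, by linear_combination hrel⟩
      exact ((lf_prime hI.left).dvd_or_dvd h2).resolve_left hI.not_dvd
    obtain ⟨s, hs⟩ := h1
    have hs' : sub g u.1 = -(lf α' * s) := by
      apply mul_left_cancel₀ (lf_ne_zero hI.left)
      rw [hs] at hrel
      linear_combination hrel
    have hs0 : s ≠ 0 := by
      rintro rfl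
      rw [mul_zero] at hs
      exact hτ0' hs
    have hδ : c 0 * c 3 - c 1 * c 2 ≠ 0 := by
      obtain ⟨i, j, hij⟩ := hI
      intro h0
      apply hij
      fin_cases i <;> fin_cases j
      · simp [α, α']
      · simp only [α, α']
        show c 0 * c 3 - c 1 * c 2 = 0
        exact h0
      · simp only [α, α']
        show c 1 * c 2 - c 0 * c 3 = 0
        linear_combination -h0
      · simp [α, α']
    have hW1 : ∀ i : Fin 2, X i * lf α * s ∈ V.map (sub g).toLinearMap := by
      intro i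
      have := hXu u' i
      rwa [hs, ← mul_assoc] at this
    have hW2 : ∀ i : Fin 2, X i * lf α' * s ∈ V.map (sub g).toLinearMap := by
      intro i
      have := hXu u i
      rw [hs'] at this
      have h2 := (V.map (sub g).toLinearMap).neg_mem this
      convert h2 using 1
      ring
    have hCδ : C (c 0 * c 3 - c 1 * c 2)⁻¹ * C (c 0 * c 3 - c 1 * c 2) =
        (1 : MvPolynomial (Fin 2) ℂ) := by
      rw [← C_mul, inv_mul_cancel₀ hδ, C_1]
    have hCd : C (c 0 * c 3 - c 1 * c 2) =
        (C (c 0) * C (c 3) - C (c 1) * C (c 2) : MvPolynomial (Fin 2) ℂ) := by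
      rw [C_sub, C_mul, C_mul]
    have hW3 : ∀ i : Fin 2, X i * X 0 * s ∈ V.map (sub g).toLinearMap := by
      intro i
      have h3 := (V.map (sub g).toLinearMap).smul_mem (c 0 * c 3 - c 1 * c 2)⁻¹
        ((V.map (sub g).toLinearMap).sub_mem
          ((V.map (sub g).toLinearMap).smul_mem (c 3) (hW1 i))
          ((V.map (sub g).toLinearMap).smul_mem (c 1) (hW2 i)))
      convert h3 using 1
      simp only [smul_eq_C_mul]
      rw [hα, hα']
      rw [hCd] at hCδ
      linear_combination (-(X i * X 0 * s)) * hCδ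
    have hW4 : ∀ i : Fin 2, X i * X 1 * s ∈ V.map (sub g).toLinearMap := by
      intro i
      have h3 := (V.map (sub g).toLinearMap).smul_mem (c 0 * c 3 - c 1 * c 2)⁻¹
        ((V.map (sub g).toLinearMap).sub_mem
          ((V.map (sub g).toLinearMap).smul_mem (c 0) (hW2 i))
          ((V.map (sub g).toLinearMap).smul_mem (c 2) (hW1 i)))
      convert h3 using 1
      simp only [smul_eq_C_mul]
      rw [hα, hα']
      rw [hCd] at hCδ
      linear_combination (-(X i * X 1 * s)) * hCδ
    exact no_S2_mul hD (map_sub_homogeneous g hV) hWr hcop hs0 (hW3 0) (hW4 0) (hW4 1)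
  · have hα'0 : α' ≠ 0 := by
      intro h0
      rw [h0, lf_zero, zero_mul, add_zero] at hrel
      have h1 := (mul_eq_zero.mp hrel).resolve_right hτ0
      have hα0 : α = 0 := by
        by_contra hne
        exact lf_ne_zero hne h1
      apply hcne
      funext i
      fin_cases i
      · exact congrFun hα0 0
      · exact congrFun hα0 1
      · exact congrFun h0 0
      · exact congrFun h0 1
    obtain ⟨t, ht⟩ := eq_smul_of_not_ind hI hα'0
    rw [ht, lf_smul] at hrel
    have h1 : lf α' * (t • sub g u.1 + (1 : ℂ) • sub g u'.1) = 0 := by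
      rw [one_smul, smul_eq_C_mul]
      linear_combination hrel
    have h2 := hτ t 1 ((mul_eq_zero.mp h1).resolve_left (lf_ne_zero hα'0))
    exact one_ne_zero h2.2

end Pool.Agent.Lib_helper97.Ebe
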