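import Pool.Agent.Lib_helper97.Ebe.FO

/-!
# The plateau lemma
-/

namespace Pool.Agent.Lib_helper97.Ebe

open MvPolynomial Module Pool.Agent.Lib_helper26.Ebe Pool.Agent.Lib_helper26.SOS

variable {n m : ℕ}

/-- A nonzero polynomial is divisible by only finitely many members of a pencil of linear
forms. -/
theorem pencil_dvd_finite {η η' : Fin n → ℂ} (hI : Ind η η') {f : MvPolynomial (Fin n) ℂ}
    (hf : f ≠ 0) : {c : ℂ | lf (η + c • η') ∣ f}.Finite := by
  have hI' := hI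
  obtain ⟨i, j, hij⟩ := hI
  let δ := η i * η' j - η j * η' i
  let y : Fin n → ℂ := Pi.single i (η' j / δ) - Pi.single j (η' i / δ)
  have hy : krl η y = 1 := by
    simp only [y, map_sub, krl_single]
    have : δ ≠ 0 := hij
    field_simp
    rfl
  have hy' : krl η' y = 0 := by
    simp only [y, map_sub, krl_single]
    ring
  have hg : Gen (fun x : Fin n → ℂ => eval x f ≠ 0) := ⟨f, hf, fun x hx => hx⟩
  have hg' : Gen (fun x : Fin n → ℂ => krl η' x ≠ 0) :=
    ⟨lf η', lf_ne_zero hI'.right, fun x hx => by rwa [eval_lf'] at hx⟩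
  obtain ⟨a, ha, ha'⟩ := ((hg.line y).and hg').exists
  have hinj : Function.Injective (fun c : ℂ => -(krl η a + c * krl η' a)) := by
    intro c c' h
    simp only [neg_inj, add_right_inj] at h
    exact mul_right_cancel₀ ha' h
  refine (ha.preimage hinj.injOn).subset fun c hc => ?_
  obtain ⟨w, hw⟩ := hc
  simp only [Set.mem_preimage, Set.mem_ofPred_eq, not_not]
  rw [hw, map_mul]
  have : eval (a + (-(krl η a + c * krl η' a)) • y) (lf (η + c • η')) = 0 := by
    rw [lf_add, lf_smul, map_add, map_mul, eval_C, eval_lf', eval_lf', map_add, map_add,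
      map_smul, map_smul, hy, hy']
    simp only [smul_eq_mul]
    ring
  rw [this, zero_mul]

/-- A subspace containing a generic point is everything. -/
theorem gen_mem_submodule {S : Submodule ℂ (Fin n → ℂ)} (h : Gen (fun x => x ∈ S))
    (x : Fin n → ℂ) : x ∈ S := by
  obtain ⟨a, ha, ha'⟩ := ((h.line x).and h).exists
  obtain ⟨c, hc, hc0⟩ : ∃ c : ℂ, a + c • x ∈ S ∧ c ≠ 0 := by
    by_contra hne
    push Not at hne
    apply Set.infinite_univ (α := ℂ)
    refine (ha.union (Set.finite_singleton (0 : ℂ))).subset fun c _ => ?_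
    by_cases hc : a + c • x ∈ S
    · exact Or.inr (hne c hc)
    · exact Or.inl hc
  have h1 : c • x ∈ S := by
    have := S.sub_mem hc ha'
    rwa [add_sub_cancel_left] at this
  have := S.smul_mem c⁻¹ h1
  rwa [smul_smul, inv_mul_cancel₀ hc0, one_smul] at this

theorem kr_smul {a : Fin n → ℂ} {c : ℂ} (hc : c ≠ 0) : kr (c • a) = kr a := by
  ext z
  rw [mem_kr, mem_kr]
  have : ∑ i, (c • a) i * z i = c * ∑ i, a i * z i := by
    rw [Finset.mul_sum]
    exact Finset.sum_congr rfl fun i _ => by rw [Pi.smul_apply, smul_eq_mul, mul_assoc]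
  rw [this, mul_eq_zero]
  exact ⟨fun h => h.resolve_left hc, Or.inr⟩

/-- The good `η` for `b`. -/
structure PGood (V : Submodule ℂ (MvPolynomial (Fin n) ℂ)) (b η : Fin n → ℂ) : Prop where
  ind : Ind η b
  sup : van V ((kr η : Set (Fin n → ℂ)) ∩ kr b) ≤ van V (kr η) ⊔ van V (kr b)
  inj : van (U V b) (kr η) = ⊥

/-- The good pairs `η, η'` for `b`. -/
def EGood (V : Submodule ℂ (MvPolynomial (Fin n) ℂ)) (b η η' : Fin n → ℂ) : Prop :=
  van V ((kr η : Set (Fin n → ℂ)) ∩ (kr b ∪ kr η')) ≤ van V (kr η)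

theorem Ind.smul_left {a b : Fin n → ℂ} (h : Ind a b) {c : ℂ} (hc : c ≠ 0) : Ind (c • a) b := by
  obtain ⟨i, j, h⟩ := h
  refine ⟨i, j, fun h0 => h ?_⟩
  simp only [Pi.smul_apply, smul_eq_mul] at h0
  have : c * (a i * b j - a j * b i) = 0 := by linear_combination h0
  exact (mul_eq_zero.mp this).resolve_left hc

theorem PGood.smul {V : Submodule ℂ (MvPolynomial (Fin n) ℂ)} {b η : Fin n → ℂ}
    (h : PGood V b η) {c : ℂ} (hc : c ≠ 0) : PGood V b (c • η) := by
  refine ⟨Ind.smul_left h.ind hc, ?_, ?_⟩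
  · rw [kr_smul hc]; exact h.sup
  · rw [kr_smul hc]; exact h.inj

theorem PGood.exists_v {V : Submodule ℂ (MvPolynomial (Fin n) ℂ)} {b η : Fin n → ℂ}
    (h : PGood V b η) {u d : MvPolynomial (Fin n) ℂ} (hw : lf η * u + lf b * d ∈ V) :
    ∃ v, d - lf η * v ∈ U V b := by
  have h1 : lf η * u + lf b * d ∈ van V ((kr η : Set (Fin n → ℂ)) ∩ kr b) := by
    refine ⟨hw, ?_⟩
    rintro z ⟨hz, hz'⟩
    rw [map_add, map_mul, map_mul, eval_lf', eval_lf', show krl η z = 0 from hz,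
      show krl b z = 0 from hz', zero_mul, zero_mul, add_zero]
  obtain ⟨x, hx, y, hy, hxy⟩ := Submodule.mem_sup.mp (h.sup h1)
  rw [mem_van_kr h.ind.left] at hx
  rw [mem_van_kr h.ind.right] at hy
  obtain ⟨-, u2, rfl⟩ := hx
  obtain ⟨hyV, u1, rfl⟩ := hy
  have h2 : lf b * (u1 - d) = lf η * (u - u2) := by linear_combination hxy
  have h3 : lf b ∣ u - u2 := by
    have : lf b ∣ lf η * (u - u2) := ⟨_, h2.symm⟩
    exact ((lf_prime h.ind.right).dvd_or_dvd this).resolve_left h.ind.symm.not_dvd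
  obtain ⟨s, hs⟩ := h3
  have h4 : u1 - d = lf η * s := by
    apply mul_left_cancel₀ (lf_ne_zero h.ind.right)
    rw [h2, hs]
    ring
  refine ⟨-s, ?_⟩
  have : d - lf η * -s = u1 := by linear_combination -h4
  rw [this]
  exact hyV

theorem plateau_pair {V : Submodule ℂ (MvPolynomial (Fin n) ℂ)} {b η η' : Fin n → ℂ}
    (h : PGood V b η) (h' : PGood V b η') (hI : Ind η η') (hE : EGood V b η η')
    (hE' : EGood V b η' η) {d d' v v' v'' : MvPolynomial (Fin n) ℂ}
    (hv : d - lf η * v ∈ U V b) (hv' : d' - lf η' * v' ∈ U V b)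
    (hv'' : (d + d') - lf (η + η') * v'' ∈ U V b) :
    lf (η + η') ∣ v - v' := by
  have hx : lf η * (v'' - v) + lf η' * (v'' - v') ∈ U V b := by
    have h1 := (U V b).sub_mem ((U V b).add_mem hv hv') hv''
    convert h1 using 1
    rw [lf_add]
    ring
  have hxV := mem_U.mp hx
  have h1 : lf η ∣ v'' - v' := by
    have h2 : lf b * (lf η * (v'' - v) + lf η' * (v'' - v')) ∈
        van V ((kr η : Set (Fin n → ℂ)) ∩ (kr b ∪ kr η')) := by
      refine ⟨hxV, ?_⟩
      rintro z ⟨hz, hz' | hz'⟩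
      · rw [map_mul, eval_lf' b, show krl b z = 0 from hz', zero_mul]
      · rw [map_mul, map_add, map_mul, map_mul, eval_lf' η, eval_lf' η',
          show krl η z = 0 from hz, show krl η' z = 0 from hz', zero_mul, zero_mul, add_zero,
          mul_zero]
    obtain ⟨-, h4⟩ := (mem_van_kr h.ind.left).mp (hE h2)
    rw [mul_add, mul_left_comm] at h4
    have h5 := (dvd_add_right (dvd_mul_right _ _)).mp h4
    rcases (lf_prime h.ind.left).dvd_or_dvd h5 with h6 | h6
    · exact absurd h6 h.ind.not_dvd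
    · exact ((lf_prime h.ind.left).dvd_or_dvd h6).resolve_left hI.not_dvd
  have h1' : lf η' ∣ v'' - v := by
    have h2 : lf b * (lf η * (v'' - v) + lf η' * (v'' - v')) ∈
        van V ((kr η' : Set (Fin n → ℂ)) ∩ (kr b ∪ kr η)) := by
      refine ⟨hxV, ?_⟩
      rintro z ⟨hz, hz' | hz'⟩
      · rw [map_mul, eval_lf' b, show krl b z = 0 from hz', zero_mul]
      · rw [map_mul, map_add, map_mul, map_mul, eval_lf' η, eval_lf' η',
          show krl η z = 0 from hz', show krl η' z = 0 from hz, zero_mul, zero_mul, add_zero,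
          mul_zero]
    obtain ⟨-, h4⟩ := (mem_van_kr h'.ind.left).mp (hE' h2)
    rw [mul_add, add_comm, mul_left_comm] at h4
    have h5 := (dvd_add_right (dvd_mul_right _ _)).mp h4
    rcases (lf_prime h'.ind.left).dvd_or_dvd h5 with h6 | h6
    · exact absurd h6 h'.ind.not_dvd
    · exact ((lf_prime h'.ind.left).dvd_or_dvd h6).resolve_left hI.symm.not_dvd
  obtain ⟨s, hs⟩ := h1
  obtain ⟨t, ht⟩ := h1'
  have hx0 : lf η * (v'' - v) + lf η' * (v'' - v') = lf η * (lf η' * (t + s)) := by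
    rw [hs, ht]
    ring
  rw [hx0] at hx
  have h2 : lf η * (lf η' * (t + s)) ∈ van (U V b) (kr η) := by
    refine ⟨hx, fun z hz => ?_⟩
    rw [map_mul, eval_lf', show krl η z = 0 from hz, zero_mul]
  rw [h.inj, Submodule.mem_bot] at h2
  have h3 := (mul_eq_zero.mp ((mul_eq_zero.mp h2).resolve_left
    (lf_ne_zero h.ind.left))).resolve_left (lf_ne_zero h'.ind.left)
  refine ⟨s, ?_⟩
  rw [lf_add]
  linear_combination hs - ht - lf η' * h3

/-- The core of the plateau lemma. -/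
theorem plateau_core (V : Submodule ℂ (MvPolynomial (Fin n) ℂ)) {b : Fin n → ℂ} (hb : b ≠ 0)
    (hsq : ∀ v ∈ V, lf b ^ 2 ∣ v → v = 0)
    (hFO : ∀ u ∈ U V b, ∃ D : (Fin n → ℂ) →ₗ[ℂ] MvPolynomial (Fin n) ℂ,
      ∀ η, lf η * u + lf b * D η ∈ V)
    (hP : Gen (fun η => PGood V b η))
    (hE : Gen (fun x : Fin n ⊕ Fin n → ℂ => EGood V b (x ∘ Sum.inl) (x ∘ Sum.inr)))
    (hn : 2 ≤ n) :
    ∀ u ∈ U V b, ∀ η, lf η * u ∈ V := by
  intro u hu
  obtain ⟨D, hD⟩ := hFO u hu
  have hE1 := hE.pair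
  have hE2 := hE.pair'
  obtain ⟨η₀, ⟨⟨hη₀, hη₀E⟩, hη₀E'⟩, hη₀0⟩ :=
    (((hP.and hE1).and hE2).and (gen_ne_zero (n := n) (by omega))).exists
  simp only [Sum.elim_comp_inl, Sum.elim_comp_inr] at hη₀E hη₀E'
  obtain ⟨v₀, hv₀⟩ := hη₀.exists_v (hD η₀)
  -- the constant
  have hgen : Gen (fun η => D η - lf η * v₀ ∈ U V b) := by
    refine (((((hP.line η₀).and hP).and hη₀E).and hη₀E').and (gen_ind_left hη₀0 hn)).mono
      fun η hη => ?_
    obtain ⟨⟨⟨⟨hη1, hη2⟩, hη3⟩, hη4⟩, hη5⟩ := hη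
    obtain ⟨v, hv⟩ := hη2.exists_v (hD η)
    suffices h : v - v₀ = 0 by
      rw [sub_eq_zero.mp h] at hv
      exact hv
    by_contra hne
    have hfin := pencil_dvd_finite hη5 hne
    apply Set.infinite_univ (α := ℂ)
    refine ((hfin.union hη1).union (Set.finite_singleton (0 : ℂ))).subset fun c _ => ?_
    by_cases hc0 : c = 0
    · exact Or.inr hc0
    by_cases hc : PGood V b (η + c • η₀)
    · left; left
      obtain ⟨v'', hv''⟩ := hc.exists_v (hD (η + c • η₀))
      refine plateau_pair hη2 (hη₀.smul hc0) ?_ ?_ ?_ (d := D η) (d' := D (c • η₀)) hv ?_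
        (v'' := v'') ?_
      · exact (Ind.smul_left hη5.symm hc0).symm
      · unfold EGood
        rw [kr_smul hc0]
        exact hη4
      · unfold EGood
        rw [kr_smul hc0]
        exact hη3
      · rw [map_smul, lf_smul, smul_eq_C_mul, mul_assoc, ← mul_sub, ← smul_eq_C_mul]
        exact (U V b).smul_mem _ hv₀
      · rw [← map_add]
        exact hv''
    · exact Or.inl (Or.inr hc)
  have hall : ∀ η, D η - lf η * v₀ ∈ U V b := by
    let T : (Fin n → ℂ) →ₗ[ℂ] MvPolynomial (Fin n) ℂ :=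
      { toFun := fun η => D η - lf η * v₀
        map_add' := fun x y => by
          rw [map_add, lf_add]
          ring
        map_smul' := fun c x => by
          rw [map_smul, lf_smul, RingHom.id_apply, smul_sub, smul_eq_C_mul (lf x * v₀),
            mul_assoc] }
    intro η
    exact gen_mem_submodule (S := (U V b).comap T) hgen η
  have hDb : D b ∈ U V b := by
    rw [mem_U]
    have := V.sub_mem (hD b) (mem_U.mp hu)
    rwa [add_sub_cancel_left] at this
  have hv₀0 : v₀ = 0 := by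
    have h1 : lf b * v₀ ∈ U V b := by
      have := (U V b).sub_mem hDb (hall b)
      rwa [sub_sub_cancel] at this
    have h2 := hsq _ (mem_U.mp h1) ⟨v₀, by ring⟩
    exact (mul_eq_zero.mp ((mul_eq_zero.mp h2).resolve_left (lf_ne_zero hb))).resolve_left
      (lf_ne_zero hb)
  intro η
  have h1 := hall η
  rw [hv₀0, mul_zero, sub_zero, mem_U] at h1
  have := V.sub_mem (hD η) h1
  rwa [add_sub_cancel_right] at this

/-- The moving set of a family with renamed parameters. -/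
theorem Zs_rename {τ σ : Type*} (ρ : τ → σ) (Y : Set (Fin n → MvPolynomial τ ℂ)) (x : σ → ℂ) :
    Zs {y | ∃ y' ∈ Y, y = fun i => rename ρ (y' i)} x = Zs Y (x ∘ ρ) := by
  ext z
  constructor
  · rintro ⟨y, ⟨y', hy', rfl⟩, rfl⟩
    exact ⟨y', hy', by funext i; rw [eval_rename]⟩
  · rintro ⟨y', hy', rfl⟩
    exact ⟨_, ⟨y', hy', rfl⟩, by funext i; rw [eval_rename]⟩

theorem Zs_union {τ : Type*} (Y Y' : Set (Fin n → MvPolynomial τ ℂ)) (x : τ → ℂ) :
    Zs (Y ∪ Y') x = Zs Y x ∪ Zs Y' x := by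
  ext z
  constructor
  · rintro ⟨y, hy | hy, rfl⟩
    · exact Or.inl ⟨y, hy, rfl⟩
    · exact Or.inr ⟨y, hy, rfl⟩
  · rintro (⟨y, hy, rfl⟩ | ⟨y, hy, rfl⟩)
    · exact ⟨y, Or.inl hy, rfl⟩
    · exact ⟨y, Or.inr hy, rfl⟩

/-- Parameters `(η, b)` inside `(b, (η, η'))`. -/
def ρ1 (n : ℕ) : Fin n ⊕ Fin n → Fin n ⊕ (Fin n ⊕ Fin n) :=
  Sum.elim (fun i => Sum.inr (Sum.inl i)) (fun i => Sum.inl i)

/-- Parameters `(η, η')` inside `(b, (η, η'))`. -/
def ρ2 (n : ℕ) : Fin n ⊕ Fin n → Fin n ⊕ (Fin n ⊕ Fin n) :=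
  Sum.elim (fun i => Sum.inr (Sum.inl i)) (fun i => Sum.inr (Sum.inr i))

/-- The moving set `ker η ∩ (ker b ∪ ker η')`. -/
def kerF3 (n : ℕ) : Set (Fin n → MvPolynomial (Fin n ⊕ (Fin n ⊕ Fin n)) ℂ) :=
  {y | ∃ y' ∈ kerF2 n, y = fun i => rename (ρ1 n) (y' i)} ∪
    {y | ∃ y' ∈ kerF2 n, y = fun i => rename (ρ2 n) (y' i)}

theorem Zs_kerF3 {b η η' : Fin n → ℂ} (h : Ind η b) (h' : Ind η η') :
    Zs (kerF3 n) (Sum.elim b (Sum.elim η η')) =
      (kr η : Set (Fin n → ℂ)) ∩ (kr b ∪ kr η') := by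
  unfold kerF3
  rw [Zs_union, Zs_rename, Zs_rename, Set.inter_union_distrib_left, ← Zs_kerF2 h,
    ← Zs_kerF2 h']
  congr 2
  · funext i
    rcases i with i | i <;> rfl
  · funext i
    rcases i with i | i <;> rfl

theorem exists_lift_functional {k : ℕ} {g : Fin n × Fin k → ℂ} (hg : Function.Injective (mv g))
    (a : Fin k → ℂ) : ∃ a' : Fin n → ℂ, ∀ x, krl a' (mv g x) = krl a x := by
  let M : (Fin k → ℂ) →ₗ[ℂ] (Fin n → ℂ) := Matrix.toLin' (Matrix.of fun i j => g (i, j))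
  have hM : ∀ x, M x = mv g x := fun x => rfl
  have hker : LinearMap.ker M = ⊥ := by
    rw [LinearMap.ker_eq_bot]
    exact hg
  obtain ⟨L, hL⟩ := M.exists_leftInverse_of_injective hker
  refine ⟨fun i => krl a (L (Pi.single i 1)), fun x => ?_⟩
  have h1 : krl (fun i => krl a (L (Pi.single i 1))) = krl a ∘ₗ L := by
    apply (Pi.basisFun ℂ (Fin n)).ext
    intro i
    rw [Pi.basisFun_apply, krl_single, mul_one]
    rfl
  rw [h1, ← hM]
  have := LinearMap.congr_fun hL x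
  rw [LinearMap.comp_apply] at this
  rw [LinearMap.comp_apply, this]
  rfl

theorem gen_EGood (V : Submodule ℂ (MvPolynomial (Fin (n + 2)) ℂ)) [FiniteDimensional ℂ V]
    (h3 : ∃ g : Fin (n + 2) × Fin (n + 1) → ℂ, Function.Injective (mv g) ∧
      finrank ℂ (V.map (sub g).toLinearMap) = rk V (n + 1) ∧
      ∃ a b : Fin (n + 1) → ℂ, Ind a b ∧ van (V.map (sub g).toLinearMap)
        ((kr a : Set (Fin (n + 1) → ℂ)) ∪ kr b) = ⊥) :
    Gen (fun x : Fin (n + 2) ⊕ (Fin (n + 2) ⊕ Fin (n + 2)) → ℂ =>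
      EGood V (x ∘ Sum.inl) (x ∘ Sum.inr ∘ Sum.inl) (x ∘ Sum.inr ∘ Sum.inr)) := by
  obtain ⟨g, hg, hrk, a, b, hab, hvan⟩ := h3
  obtain ⟨η, hη0, hη⟩ := exists_le_kr (mvS g) (by have := finrank_mvS_le g; omega)
  have hηeq : mvS g = kr η := by
    apply Submodule.eq_of_le_of_finrank_eq hη
    have h1 : finrank ℂ (mvS g) = n + 1 := by
      have := LinearMap.finrank_range_of_inj
        (f := Matrix.toLin' (Matrix.of fun i j => g (i, j))) hg
      rw [finrank_fin_fun] at this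
      exact this
    have := finrank_kr hη0
    omega
  have hrange : Set.range (mv g) = kr η := by
    rw [← coe_mvS, hηeq]
  obtain ⟨a', ha'⟩ := exists_lift_functional hg a
  obtain ⟨b', hb'⟩ := exists_lift_functional hg b
  have hne : ∀ (c : Fin (n + 1) → ℂ) (c' : Fin (n + 2) → ℂ), c ≠ 0 →
      (∀ x, krl c' (mv g x) = krl c x) → Ind η c' := by
    intro c c' hc hcc
    by_contra hI
    obtain ⟨t, ht⟩ := eq_smul_of_not_ind (fun h => hI (Ind.symm h)) hη0
    apply krl_ne_zero hc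
    apply LinearMap.ext
    intro x
    rw [← hcc, LinearMap.zero_apply]
    have h1 : mv g x ∈ kr η := by
      rw [← SetLike.mem_coe, ← hrange]
      exact ⟨x, rfl⟩
    rw [mem_kr] at h1
    rw [krl_apply, ht]
    have : ∑ i, (t • η) i * mv g x i = t * ∑ i, η i * mv g x i := by
      rw [Finset.mul_sum]
      exact Finset.sum_congr rfl fun i _ => by rw [Pi.smul_apply, smul_eq_mul, mul_assoc]
    rw [this, h1, mul_zero]
  have hηa := hne a a' hab.left ha'
  have hηb := hne b b' hab.right hb'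
  have hle : van V ((kr η : Set (Fin (n + 2) → ℂ)) ∩ (kr a' ∪ kr b')) ≤
      van V (kr η) := by
    rintro v ⟨hvV, hv⟩
    refine ⟨hvV, ?_⟩
    have h1 : sub g v ∈ van (V.map (sub g).toLinearMap)
        ((kr a : Set (Fin (n + 1) → ℂ)) ∪ kr b) := by
      refine ⟨⟨v, hvV, rfl⟩, ?_⟩
      rintro x hx
      rw [Pool.Agent.Lib_helper26.Ebe.eval_sub]
      apply hv
      refine ⟨by rw [← hrange]; exact ⟨x, rfl⟩, ?_⟩
      rcases hx with hx | hx
      · left
        rw [SetLike.mem_coe, kr, LinearMap.mem_ker, ha']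
        exact hx
      · right
        rw [SetLike.mem_coe, kr, LinearMap.mem_ker, hb']
        exact hx
    rw [hvan, Submodule.mem_bot, sub_eq_zero_iff, hrange] at h1
    exact h1
  have hfr : finrank ℂ (van V (kr η)) + rk V (n + 1) = finrank ℂ V := by
    have := finrank_map_add_van V g
    rw [hrk, hrange] at this
    omega
  have hx₀ := gen_finrank_van_le V (kerF3 (n + 2)) (Sum.elim a' (Sum.elim η b'))
  rw [Zs_kerF3 hηa hηb] at hx₀
  have hi1 : Gen (fun x : Fin (n + 2) ⊕ (Fin (n + 2) ⊕ Fin (n + 2)) → ℂ =>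
      Ind (x ∘ Sum.inr ∘ Sum.inl) (x ∘ Sum.inl)) := by
    refine ⟨X (Sum.inr (Sum.inl 0)) * X (Sum.inl 1) -
      X (Sum.inr (Sum.inl 1)) * X (Sum.inl 0), ?_, fun x hx => ⟨0, 1, by simpa using hx⟩⟩
    intro h
    have := congrArg (eval (Sum.elim (Pi.single 1 1) (Sum.elim (Pi.single 0 1) 0))) h
    simp at this
  have hi2 : Gen (fun x : Fin (n + 2) ⊕ (Fin (n + 2) ⊕ Fin (n + 2)) → ℂ =>
      Ind (x ∘ Sum.inr ∘ Sum.inl) (x ∘ Sum.inr ∘ Sum.inr)) := by
    refine ⟨X (Sum.inr (Sum.inl 0)) * X (Sum.inr (Sum.inr 1)) -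
      X (Sum.inr (Sum.inl 1)) * X (Sum.inr (Sum.inr 0)), ?_,
      fun x hx => ⟨0, 1, by simpa using hx⟩⟩
    intro h
    have := congrArg (eval (Sum.elim 0 (Sum.elim (Pi.single 0 1) (Pi.single 1 1)))) h
    simp at this
  refine ((hx₀.and hi1).and hi2).mono fun x hx => ?_
  obtain ⟨⟨h1, h2⟩, h3⟩ := hx
  have hx : x = Sum.elim (x ∘ Sum.inl) (Sum.elim (x ∘ Sum.inr ∘ Sum.inl)
      (x ∘ Sum.inr ∘ Sum.inr)) := by
    funext i
    rcases i with i | i | i <;> rfl
  rw [hx, Zs_kerF3 h2 h3] at h1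
  have h4 : van V (kr (x ∘ Sum.inr ∘ Sum.inl)) =
      van V ((kr (x ∘ Sum.inr ∘ Sum.inl) : Set (Fin (n + 2) → ℂ)) ∩
        (kr (x ∘ Sum.inl) ∪ kr (x ∘ Sum.inr ∘ Sum.inr))) := by
    apply Submodule.eq_of_le_of_finrank_le (van_anti Set.inter_subset_left)
    have h5 := Submodule.finrank_mono hle
    have h6 := mvan_le V (kerF (n + 2)) (x ∘ Sum.inr ∘ Sum.inl)
    rw [Zs_kerF h2.left] at h6
    have h7 : rk V (n + 1) + mvan V (kerF (n + 2)) = finrank ℂ V := rk_kerF V
    simp only [← Function.comp_assoc] at h1 h6 ⊢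
    omega
  exact h4.ge

/-- The plateau lemma. -/
theorem plateau (V : Submodule ℂ (MvPolynomial (Fin (n + 2)) ℂ)) [FiniteDimensional ℂ V]
    (h1 : finrank ℂ V + rk V n = 2 * rk V (n + 1))
    (h2 : finrank ℂ V < rk V (n + 1) + (n + 2))
    (h3 : ∃ g : Fin (n + 2) × Fin (n + 1) → ℂ, Function.Injective (mv g) ∧
      finrank ℂ (V.map (sub g).toLinearMap) = rk V (n + 1) ∧
      ∃ a b : Fin (n + 1) → ℂ, Ind a b ∧ van (V.map (sub g).toLinearMap)
        ((kr a : Set (Fin (n + 1) → ℂ)) ∪ kr b) = ⊥) :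
    ∃ U' : Submodule ℂ (MvPolynomial (Fin (n + 2)) ℂ),
      finrank ℂ U' + rk V (n + 1) = finrank ℂ V ∧ FiniteDimensional ℂ U' ∧
      Gen (fun a => U V a = U') ∧ ∀ u ∈ U', ∀ η, lf η * u ∈ V := by
  have hne := gen_ne_zero (n := n + 2) (by omega)
  have hrk : Gen (fun b : Fin (n + 2) → ℂ =>
      finrank ℂ (van V (kr b)) + rk V (n + 1) = finrank ℂ V) := by
    refine ((gen_mvan V (kerF (n + 2))).and hne).mono fun b hb => ?_
    obtain ⟨hb1, hb0⟩ := hb
    rw [Zs_kerF hb0] at hb1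
    have h7 : rk V (n + 1) + mvan V (kerF (n + 2)) = finrank ℂ V := rk_kerF V
    omega
  have hU : Gen (fun b : Fin (n + 2) → ℂ => finrank ℂ (U V b) < n + 2) := by
    refine (hrk.and hne).mono fun b hb => ?_
    rw [finrank_U V hb.2]
    have := hb.1
    omega
  have hsq := gen_sq (by omega) V hU
  have hFO := first_order (by omega) V
  have hE := (gen_EGood V h3).pair
  have h2' := (gen_van_kerF2 V).pair'
  have hmain : Gen (fun b : Fin (n + 2) → ℂ => ∀ u ∈ U V b, ∀ η, lf η * u ∈ V) := by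
    refine ((((((hrk.and hne).and hU).and hsq).and hFO).and hE).and h2').mono fun b hb => ?_
    obtain ⟨⟨⟨⟨⟨⟨hb1, hb0⟩, hb2⟩, hb3⟩, hb4⟩, hb5⟩, hb6⟩ := hb
    have hfd := U_fd V hb0
    refine plateau_core V hb0 hb3 hb4 ?_ ?_ (by omega)
    · refine ((((gen_van_kr_eq_bot (U V b) hb2).and (gen_ind_left hb0 (by omega))).and hrk).and
        hb6).mono fun η hη => ?_
      obtain ⟨⟨⟨hη1, hη2⟩, hη3⟩, hη4⟩ := hη
      simp only [Sum.elim_comp_inl, Sum.elim_comp_inr] at hη4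
      refine ⟨hη2, ?_, hη1⟩
      have hle : van V (kr η) ⊔ van V (kr b) ≤
          van V ((kr η : Set (Fin (n + 2) → ℂ)) ∩ kr b) :=
        sup_le (van_anti Set.inter_subset_left) (van_anti Set.inter_subset_right)
      have hbot : van V (kr η) ⊓ van V (kr b) = ⊥ := by
        rw [eq_bot_iff]
        rintro v ⟨hv1, hv2⟩
        obtain ⟨hvV, u, rfl⟩ := (mem_van_kr hb0).mp hv2
        obtain ⟨-, hd⟩ := (mem_van_kr hη2.left).mp hv1
        have hu : u ∈ van (U V b) (kr η) := by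
          rw [mem_van_kr hη2.left]
          refine ⟨hvV, ?_⟩
          exact ((lf_prime hη2.left).dvd_or_dvd hd).resolve_left hη2.not_dvd
        rw [hη1, Submodule.mem_bot] at hu
        rw [hu, mul_zero]
        exact Submodule.zero_mem _
      refine (Submodule.eq_of_le_of_finrank_le hle ?_).ge
      have h5 := Submodule.finrank_sup_add_finrank_inf_eq (van V (kr η)) (van V (kr b))
      rw [hbot, finrank_bot, add_zero] at h5
      have e1 : finrank ℂ (van V ((kr η : Set (Fin (n + 2) → ℂ)) ∩ kr b)) +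
        rk V n = finrank ℂ V := hη4
      omega
    · exact hb5
  obtain ⟨b, ⟨⟨hb, hb0⟩, hbr⟩⟩ := ((hmain.and hne).and hrk).exists
  refine ⟨U V b, ?_, U_fd V hb0, ?_, hb⟩
  · rw [finrank_U V hb0]
    exact hbr
  · refine (hrk.and hne).mono fun a ha => ?_
    obtain ⟨har, ha0⟩ := ha
    have hfd := U_fd V ha0
    have hle : U V b ≤ U V a := fun u hu => hb u hu a
    refine (Submodule.eq_of_le_of_finrank_eq hle ?_).symm
    rw [finrank_U V hb0, finrank_U V ha0]
    omega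

end Pool.Agent.Lib_helper97.Ebe
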