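import Pool.Agent.Lib_helper26.Ebe.KL

/-!
# Polynomial bases of moving kernels
-/

namespace Pool.Agent.Lib_helper97.Ebe

open MvPolynomial Module Pool.Agent.Lib_helper26.Ebe

/-- A family of polynomial vectors which is linearly independent over the fraction field is
linearly independent at a generic point. -/
theorem gen_linearIndependent {τ κ ι : Type*} [Fintype κ] (v : κ → ι → MvPolynomial τ ℂ)
    (h : LinearIndependent (FractionRing (MvPolynomial τ ℂ))
      (fun k j => algebraMap (MvPolynomial τ ℂ) (FractionRing (MvPolynomial τ ℂ)) (v k j))) :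
    Gen (fun b : τ → ℂ => LinearIndependent ℂ (fun k j => eval b (v k j))) := by
  classical
  rcases kernel_dichotomy (τ := τ) (ι := κ) (Set.range fun (j : ι) (k : κ) => v k j) with hg | hx
  · refine hg.mono fun b hb => ?_
    rw [Fintype.linearIndependent_iff]
    intro c hc
    have h1 := hb c (by
      rintro r ⟨j, rfl⟩
      have := congrFun hc j
      simp only [Finset.sum_apply, Pi.smul_apply, smul_eq_mul, Pi.zero_apply] at this
      rw [← this]
      exact Finset.sum_congr rfl fun k _ => mul_comm _ _)
    intro i
    rw [h1]
    rfl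
  · exfalso
    obtain ⟨x, hx0, hx⟩ := hx
    apply hx0
    rw [Fintype.linearIndependent_iff] at h
    funext k
    have h1 := h (fun k => algebraMap _ _ (x k)) (by
      funext j
      simp only [Finset.sum_apply, Pi.smul_apply, smul_eq_mul, Pi.zero_apply]
      have h2 := hx _ ⟨j, rfl⟩
      have h3 := congrArg (algebraMap (MvPolynomial τ ℂ) (FractionRing (MvPolynomial τ ℂ))) h2
      rw [map_zero, map_sum] at h3
      rw [← h3]
      refine Finset.sum_congr rfl fun k _ => ?_
      rw [map_mul, mul_comm]) k
    exact (IsFractionRing.injective (MvPolynomial τ ℂ) (FractionRing (MvPolynomial τ ℂ)))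
      (by rw [h1]; simp)

/-- The common kernel of the rows `L` at a generic point is spanned by finitely many polynomial
families, which are linearly independent at a generic point. -/
theorem kernel_param {τ ι : Type*} [Fintype ι] (L : Set (ι → MvPolynomial τ ℂ)) :
    ∃ (κ : ℕ) (x : Fin κ → ι → MvPolynomial τ ℂ),
      (∀ i, ∀ r ∈ L, ∑ j, r j * x i j = 0) ∧
      Gen (fun b : τ → ℂ => LinearIndependent ℂ (fun i j => eval b (x i j)) ∧
        ∀ c : ι → ℂ, (∀ r ∈ L, ∑ j, eval b (r j) * c j = 0) →
          c ∈ Submodule.span ℂ (Set.range (fun i j => eval b (x i j)))) := by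
  classical
  let R := MvPolynomial τ ℂ
  let K := FractionRing R
  let emb : (ι → R) → (ι → K) := fun r j => algebraMap R K (r j)
  have hinj : Function.Injective (algebraMap R K) := IsFractionRing.injective R K
  obtain ⟨κ', a, ha, hspan, hli⟩ := exists_linearIndependent' K (fun r : L => emb r.1)
  have hfin : Finite κ' := hli.finite
  have := Fintype.ofFinite κ'
  let M : Matrix κ' ι R := Matrix.of fun i j => (a i).1 j
  let N : Submodule K (ι → K) := LinearMap.ker (Matrix.mulVecLin (M.map (algebraMap R K)))
  have hNmem : ∀ y : ι → K, y ∈ N → ∀ r ∈ L, ∑ j, emb r j * y j = 0 := by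
    intro y hy r hr
    let f : (ι → K) →ₗ[K] K := ∑ j, (y j) • LinearMap.proj j
    have hf : ∀ v, f v = ∑ j, v j * y j := by
      intro v
      simp only [f, LinearMap.sum_apply, LinearMap.smul_apply, LinearMap.proj_apply, smul_eq_mul]
      exact Finset.sum_congr rfl fun j _ => mul_comm _ _
    have h1 : Submodule.span K (Set.range fun r : L => emb r.1) ≤ LinearMap.ker f := by
      rw [← hspan, Submodule.span_le]
      rintro _ ⟨i, rfl⟩
      rw [SetLike.mem_coe, LinearMap.mem_ker, hf]
      have h2 : Matrix.mulVec (M.map (algebraMap R K)) y = 0 := hy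
      exact congrFun h2 i
    have h3 := h1 (Submodule.subset_span ⟨⟨r, hr⟩, rfl⟩)
    rw [LinearMap.mem_ker, hf] at h3
    exact h3
  let B := Module.finBasis K N
  obtain ⟨d, hd⟩ := IsLocalization.exist_integer_multiples_of_finite (nonZeroDivisors R)
    (fun p : Fin (finrank K N) × ι => (B p.1 : ι → K) p.2)
  choose x' hx' using hd
  have hd0 : algebraMap R K d ≠ 0 := by
    intro h0
    exact nonZeroDivisors.coe_ne_zero d (hinj (by rw [h0, map_zero]))
  let x : Fin (finrank K N) → ι → R := fun i j => x' (i, j)
  have hx : ∀ i j, algebraMap R K (x i j) = algebraMap R K d * (B i : ι → K) j := by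
    intro i j
    have := hx' (i, j)
    rw [Algebra.smul_def] at this
    exact this
  have hxN : ∀ i, ∀ r ∈ L, ∑ j, r j * x i j = 0 := by
    intro i r hr
    apply hinj
    rw [map_zero, map_sum]
    have h1 := hNmem _ (B i).2 r hr
    calc ∑ j, algebraMap R K (r j * x i j)
        = ∑ j, algebraMap R K d * (emb r j * (B i : ι → K) j) := by
          refine Finset.sum_congr rfl fun j _ => ?_
          rw [map_mul, hx]
          simp only [emb]
          ring
      _ = 0 := by rw [← Finset.mul_sum, h1, mul_zero]
  have hxli : LinearIndependent K (fun i j => algebraMap R K (x i j)) := by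
    have h1 : LinearIndependent K (fun i => (B i : ι → K)) :=
      B.linearIndependent.map' N.subtype (Submodule.ker_subtype N)
    have h2 := h1.units_smul (fun _ => Units.mk0 _ hd0)
    convert h2 using 1
    funext i
    funext j
    rw [hx]
    rfl
  have hrows : LinearIndependent K (fun k j => algebraMap R K (M k j)) := hli
  have hcard : Fintype.card κ' + finrank K N = Fintype.card ι := by
    have h1 : (M.map (algebraMap R K)).rank = Fintype.card κ' :=
      LinearIndependent.rank_matrix hrows
    have h2 := LinearMap.finrank_range_add_finrank_ker (Matrix.mulVecLin (M.map (algebraMap R K)))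
    rw [Module.finrank_fintype_fun_eq_card] at h2
    rw [← h1]
    exact h2
  refine ⟨finrank K N, x, hxN, ?_⟩
  refine ((gen_linearIndependent x hxli).and (gen_linearIndependent M hrows)).mono ?_
  rintro b ⟨h1, h2⟩
  refine ⟨h1, fun c hc => ?_⟩
  let Nb : Submodule ℂ (ι → ℂ) := LinearMap.ker (Matrix.mulVecLin (M.map (eval b)))
  have hNb : Fintype.card κ' + finrank ℂ Nb = Fintype.card ι := by
    have h3 : (M.map (eval b)).rank = Fintype.card κ' :=
      LinearIndependent.rank_matrix h2
    have h4 := LinearMap.finrank_range_add_finrank_ker (Matrix.mulVecLin (M.map (eval b)))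
    rw [Module.finrank_fintype_fun_eq_card] at h4
    rw [← h3]
    exact h4
  have hle : Submodule.span ℂ (Set.range (fun i j => eval b (x i j))) ≤ Nb := by
    rw [Submodule.span_le]
    rintro _ ⟨i, rfl⟩
    show Matrix.mulVec (M.map (eval b)) _ = 0
    funext k
    have := hxN i _ (a k).2
    have h5 := congrArg (eval b) this
    rw [map_sum, map_zero] at h5
    simp only [Matrix.mulVec, dotProduct, Matrix.map_apply, Matrix.of_apply, M, Pi.zero_apply]
    rw [← h5]
    exact Finset.sum_congr rfl fun j _ => (map_mul _ _ _).symm
  have heq : Submodule.span ℂ (Set.range (fun i j => eval b (x i j))) = Nb := by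
    apply Submodule.eq_of_le_of_finrank_eq hle
    rw [finrank_span_eq_card h1, Fintype.card_fin]
    omega
  rw [heq]
  show Matrix.mulVec (M.map (eval b)) c = 0
  funext k
  exact hc _ (a k).2

end Pool.Agent.Lib_helper97.Ebe
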