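import Pool.Agent.Lib_helper97.Ebe.E4

/-!
# Lemma X
-/

namespace Pool.Agent.Lib_helper97.Ebe

open MvPolynomial Module Matrix Pool.Agent.Lib_helper26.Ebe Pool.Agent.Lib_helper26.SOS

variable {n m D ρ : ℕ} {p : Fin m → MvPolynomial (Fin n) ℂ}
    {A : MvPolynomial (Fin n ⊕ Fin n) ℂ} {V : Submodule ℂ (MvPolynomial (Fin n) ℂ)}
    {f : Fin ρ → MvPolynomial (Fin n) ℂ} {ε : Fin ρ → ℝ}

/-- The conjugate vector. -/
noncomputable def cv {k : ℕ} (z : Fin k → ℂ) : Fin k → ℂ := fun i => (starRingEnd ℂ) (z i)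

theorem cv_cv {k : ℕ} (z : Fin k → ℂ) : cv (cv z) = z := by
  funext i
  simp [cv]

theorem eval_dg (f : Fin ρ → MvPolynomial (Fin n) ℂ) (ε : Fin ρ → ℝ) (z w : Fin n → ℂ) :
    eval (Sum.elim z w) (dg f ε) = ∑ k, (ε k : ℂ) * eval z (f k) * eval w (cj (f k)) := by
  unfold dg
  rw [map_sum]
  refine Finset.sum_congr rfl fun k _ => ?_
  rw [map_mul, map_mul, eval_C, eval_rename_inl, eval_rename_inr]

theorem eval_cj' (P : MvPolynomial (Fin n) ℂ) (z : Fin n → ℂ) :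
    eval z (cj P) = (starRingEnd ℂ) (eval (cv z) P) := by
  rw [← eval_cj]
  congr 2
  exact (cv_cv z).symm

theorem eval_dg_conj (f : Fin ρ → MvPolynomial (Fin n) ℂ) (ε : Fin ρ → ℝ) (z w : Fin n → ℂ) :
    eval (Sum.elim z w) (dg f ε) =
      (starRingEnd ℂ) (eval (Sum.elim (cv w) (cv z)) (dg f ε)) := by
  rw [eval_dg, eval_dg, map_sum]
  refine Finset.sum_congr rfl fun k _ => ?_
  rw [map_mul, map_mul, ← eval_cj' (f k) w, eval_cj' (f k) (cv z), cv_cv, Complex.conj_conj,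
    Complex.conj_ofReal]
  ring

theorem cv_mv {k : ℕ} (g : Fin n × Fin k → ℂ) (x : Fin k → ℂ) :
    cv (mv g x) = mv (cg g) (cv x) := by
  funext i
  simp only [cv, mv, cg, map_sum, map_mul]

theorem det_conj {r : ℕ} (M : Matrix (Fin r) (Fin r) ℂ) (h : M.det ≠ 0) :
    (Matrix.of fun a b => (starRingEnd ℂ) (M b a)).det ≠ 0 := by
  have h1 : (Matrix.of fun a b => (starRingEnd ℂ) (M b a)) =
      ((starRingEnd ℂ).mapMatrix M)ᵀ := by
    ext a b
    rfl
  rw [h1, Matrix.det_transpose, ← RingHom.map_det]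
  intro hc
  exact h ((map_eq_zero _).mp hc)

/-- The rows of the adjugate. -/
def ra (i' : ℕ) (G : Fin n × Fin n → ℂ) : Fin n × Fin (n - i') → ℂ :=
  fun x => if h : i' + (x.2 : ℕ) < n then (mG G).adjugate ⟨i' + x.2, h⟩ x.1 else 0

theorem vecMul_eq_mv (i' : ℕ) (hi' : i' ≤ n) (G : Fin n × Fin n → ℂ) (y : Fin n → ℂ)
    (hy : ∀ l : Fin n, (l : ℕ) < i' → y l = 0) :
    y ᵥ* (mG G).adjugate =
      mv (ra i' G) (fun l => y ⟨i' + l, by omega⟩) := by
  classical
  funext k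
  rw [Matrix.vecMul, dotProduct, mv]
  let e : Fin (n - i') ↪ Fin n := ⟨fun l => ⟨i' + l, by omega⟩, fun a b h => by
    have := congrArg Fin.val h
    simp only at this
    exact Fin.ext (by omega)⟩
  rw [← Finset.sum_subset (Finset.subset_univ (Finset.univ.map e))]
  · rw [Finset.sum_map]
    refine Finset.sum_congr rfl fun l _ => ?_
    rw [mul_comm]
    congr 1
    simp only [ra]
    rw [dif_pos (by omega)]
    rfl
  · intro l _ hl
    rw [hy l, zero_mul]
    by_contra hl'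
    apply hl
    rw [Finset.mem_map]
    refine ⟨⟨l - i', by omega⟩, Finset.mem_univ _, ?_⟩
    apply Fin.ext
    change i' + ((l : ℕ) - i') = l
    omega

theorem mem_mvS {k : ℕ} {g : Fin n × Fin k → ℂ} {z : Fin n → ℂ} :
    z ∈ mvS g ↔ ∃ x, mv g x = z := by
  rw [← SetLike.mem_coe, coe_mvS]
  rfl

theorem orth_fc_ra {i i' : ℕ} (hi : i ≤ n) (hii : i ≤ i') (G : Fin n × Fin n → ℂ)
    (x : Fin i → ℂ) (y : Fin (n - i') → ℂ) :
    ∑ k, mv (fc hi G) x k * mv (ra i' G) y k = 0 := by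
  simp only [mv, Finset.sum_mul_sum]
  rw [Finset.sum_comm]
  refine Finset.sum_eq_zero fun l _ => ?_
  rw [Finset.sum_comm]
  refine Finset.sum_eq_zero fun l' _ => ?_
  have h1 : ((mG G).adjugate * mG G) ⟨i' + l', by omega⟩ (Fin.castLE hi l) = 0 := by
    rw [Matrix.adjugate_mul, Matrix.smul_apply, Matrix.one_apply_ne, smul_zero]
    intro hc
    have := congrArg Fin.val hc
    simp only [Fin.val_castLE] at this
    omega
  rw [Matrix.mul_apply] at h1
  rw [← mul_zero (x l * y l'), ← h1, Finset.mul_sum]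
  refine Finset.sum_congr rfl fun k _ => ?_
  simp only [ra, fc]
  rw [dif_pos (by omega)]
  simp only [mG, Matrix.of_apply]
  ring

/-- A witness in coordinates. -/
theorem wit_of_G {i i' r : ℕ} (hii : i ≤ i') (hi' : i' ≤ n) (G : Fin n × Fin n → ℂ)
    (z : Fin r → Fin n → ℂ) (y : Fin r → Fin n → ℂ)
    (hz : ∀ a, z a ∈ mvS (fc (hii.trans hi') G))
    (hy : ∀ b (l : Fin n), (l : ℕ) < i' → y b l = 0)
    (hdet : (Matrix.of fun a b =>
      eval (Sum.elim (z a) (y b ᵥ* (mG G).adjugate)) A).det ≠ 0) : Wit A i (n - i') r := by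
  refine ⟨mvS (fc (hii.trans hi') G), mvS (ra i' G), z, fun b => y b ᵥ* (mG G).adjugate,
    finrank_mvS_le _, finrank_mvS_le _, ?_, hz, ?_, hdet⟩
  · intro x hx y hy
    obtain ⟨x', rfl⟩ := mem_mvS.mp hx
    obtain ⟨y', rfl⟩ := mem_mvS.mp hy
    exact orth_fc_ra _ hii G x' y'
  · intro b
    change y b ᵥ* (mG G).adjugate ∈ _
    rw [vecMul_eq_mv i' hi' G (y b) (hy b)]
    exact mem_mvS.mpr ⟨_, rfl⟩

theorem Yf_eq (s : Setting n m D ρ p A V f ε) :
    Yf f = Submodule.span ℂ (Set.range fun b : Fin n → ℂ => sp b A) := by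
  apply le_antisymm
  · apply span_le_of_gen_dg s.hf s.hε
    refine Gen.of_forall fun b => ?_
    rw [← s.hAe]
    exact Submodule.subset_span ⟨b, rfl⟩
  · rw [Submodule.span_le]
    rintro _ ⟨b, rfl⟩
    simp only
    rw [s.hAe]
    exact dg_mem f ε b

theorem finiteDimensional_Yf : FiniteDimensional ℂ (Yf f) :=
  FiniteDimensional.span_of_finite ℂ (Set.finite_range f)

/-- Points in a subspace of dimension `k` at which `A` has rank `rk Y k`. -/
theorem exists_u (s : Setting n m D ρ p A V f ε) (k : ℕ) :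
    ∃ (h : Fin n × Fin k → ℂ) (x : Fin (rk (Yf f) k) → Fin k → ℂ)
      (z : Fin (rk (Yf f) k) → Fin n → ℂ),
      (Matrix.of fun a b => eval (Sum.elim (z a) (mv h (x b))) A).det ≠ 0 := by
  have := finiteDimensional_Yf (f := f)
  obtain ⟨h, hh⟩ := (gen_rk (Yf f) k).exists
  have h1 : (Yf f).map (sub h).toLinearMap =
      Submodule.span ℂ (Set.range fun b : Fin n → ℂ => sub h (sp b A)) := by
    rw [Yf_eq s, Submodule.map_span, ← Set.range_comp]
    rfl
  have h2 : FiniteDimensional ℂ ((Yf f).map (sub h).toLinearMap) := inferInstance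
  rw [h1] at hh h2
  obtain ⟨F, hF, -, hli⟩ := Submodule.exists_fun_fin_finrank_span_eq ℂ
    (Set.range fun b : Fin n → ℂ => sub h (sp b A))
  choose ζ hζ using hF
  let ζ' : Fin (rk (Yf f) k) → Fin n → ℂ := fun a => ζ (Fin.cast hh.symm a)
  have hli2 : LinearIndependent ℂ (fun a => sub h (sp (ζ' a) A)) := by
    have h2 := hli.comp _ (Fin.cast_injective hh.symm)
    have h3 : (fun a => sub h (sp (ζ' a) A)) = F ∘ Fin.cast hh.symm := by
      funext a
      exact hζ _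
    rw [h3]
    exact h2
  obtain ⟨x, hx⟩ := exists_points_det _ hli2
  refine ⟨cg h, fun b => cv (x b), fun a => cv (ζ' a), ?_⟩
  have h4 := det_conj _ hx
  convert h4 using 3
  funext a b
  rw [Matrix.of_apply, s.hAe, eval_dg_conj, ← cv_mv, cv_cv, cv_cv, eval_sub, eval_sp]

theorem exists_G (s : Setting n m D ρ p A V f ε) {j : ℕ} (hj : j ≤ n) :
    ∃ (G₀ : Fin n × Fin n → ℂ) (x₀ y₀ : Fin (rk (Yf f) (n - j)) → Fin n → ℂ),
      (∀ b (l : Fin n), (l : ℕ) < j → y₀ b l = 0) ∧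
      (Matrix.of fun a b =>
        eval (Sum.elim (mG G₀ *ᵥ x₀ a) (y₀ b ᵥ* (mG G₀).adjugate)) A).det ≠ 0 := by
  obtain ⟨h, x, z, hdet⟩ := exists_u s (n - j)
  obtain ⟨G₀, hG₀, -, hwG⟩ := completion (P := ⊥) (Q := mvS h) (i := j) (j := n - j)
    (by rw [finrank_bot]; omega) (finrank_mvS_le _) (by omega) (by
      intro x hx y _
      rw [Submodule.mem_bot] at hx
      rw [hx]
      simp)
  choose y₀ hy₀ hy₀' using fun b => hwG (mv h (x b)) (mem_mvS.mpr ⟨_, rfl⟩)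
  have h1 : mG (fun x => G₀ x.1 x.2) = G₀ := by
    ext i j
    rfl
  refine ⟨fun x => G₀ x.1 x.2, fun a => G₀⁻¹ *ᵥ z a, y₀, fun b l hl => hy₀ b l (by omega), ?_⟩
  rw [h1]
  simp only [← hy₀', Matrix.mulVec_mulVec]
  rw [Matrix.mul_nonsing_inv _ hG₀]
  simp only [Matrix.one_mulVec]
  exact hdet

end Pool.Agent.Lib_helper97.Ebe
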