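import Pool.Agent.Lib_helper97.Ebe.E9
import Pool.Agent.Lib_helper93.Ebe.wB
import Pool.Agent.Lib_helper26.Ebe.wNS
import Pool.Agent.Lib_helper21.Ebe.wStar
import Pool.Agent.Lib_helper8.Ebe.AP
import Pool.Agent.Lib_helper8.Ebe.AQ
import Pool.Agent.Lib_helper13.Ebe.wSec
import Pool.Agent.Lib_helper93.Ebe.wP4

/-!
# The exact values for `n ≥ 7`
-/

namespace Pool.Agent.Lib_helper97.Ebe

open MvPolynomial Module Pool.Agent.Lib_helper26.Ebe Pool.Agent.Lib_helper26.SOS

variable {n m D ρ : ℕ} {p : Fin m → MvPolynomial (Fin n) ℂ}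
    {A : MvPolynomial (Fin n ⊕ Fin n) ℂ} {V : Submodule ℂ (MvPolynomial (Fin n) ℂ)}
    {f : Fin ρ → MvPolynomial (Fin n) ℂ} {ε : Fin ρ → ℝ}

/-- A star in `U`. -/
theorem exists_L (U : Submodule ℂ (MvPolynomial (Fin n) ℂ)) [FiniteDimensional ℂ U]
    (hU : U ≤ homogeneousSubmodule (Fin n) ℂ D) {q c : ℕ} (hqn : q ≤ n)
    (hκ : finrank ℂ U = q + c) (hq : c + 4 ≤ q)
    (hr : ∀ t, c + 1 ≤ t → t ≤ q → rk U t = t + c) :
    ∃ (h : MvPolynomial (Fin n) ℂ) (L : Submodule ℂ (Fin n → ℂ)), h ≠ 0 ∧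
      (∀ a ∈ L, lf a * h ∈ U) ∧ q ≤ finrank ℂ L ∧ finrank ℂ L ≤ finrank ℂ U ∧
      finrank ℂ L ≤ n := by
  obtain ⟨w, W, hw, hWU, hqW, hW⟩ := wP4_pr U hU hqn hκ hq hr
  let T : (Fin n → ℂ) →ₗ[ℂ] MvPolynomial (Fin n) ℂ := LinearMap.mulRight ℂ w ∘ₗ lfL n
  have hT : ∀ a, T a = lf a * w := fun a => rfl
  have hTi : Function.Injective T := by
    rw [← LinearMap.ker_eq_bot, LinearMap.ker_eq_bot']
    intro a ha
    rw [hT] at ha
    by_contra hne
    exact mul_ne_zero (lf_ne_zero hne) hw ha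
  refine ⟨w, U.comap T, hw, fun a ha => ha, ?_, ?_, ?_⟩
  · have e := (Submodule.equivMapOfInjective T hTi (U.comap T)).finrank_eq
    have h1 : W ≤ (U.comap T).map T := by
      intro u hu
      obtain ⟨η, hη⟩ := hW u hu
      refine ⟨η, ?_, ?_⟩
      · change T η ∈ U
        rw [hT, mul_comm, ← hη]
        exact hWU hu
      · rw [hT, mul_comm, ← hη]
    have h2 : FiniteDimensional ℂ ((U.comap T).map T) := inferInstance
    have h3 := Submodule.finrank_mono h1
    omega
  · have e := (Submodule.equivMapOfInjective T hTi (U.comap T)).finrank_eq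
    have h1 : (U.comap T).map T ≤ U := Submodule.map_comap_le _ _
    have h3 := Submodule.finrank_mono h1
    omega
  · have h1 := Submodule.finrank_le (U.comap T)
    rwa [finrank_fin_fun] at h1

theorem finrank_Yf (s : Setting n m D ρ p A V f ε) : finrank ℂ (Yf f) = ρ := by
  unfold Yf
  rw [finrank_span_eq_card s.hf, Fintype.card_fin]

theorem sigma_le (s : Setting n m D ρ p A V f ε) {q : ℕ} (hq : QSeq ρ n (rk (Yf f)) q) {a : ℕ}
    (hqa : q ≤ a) (haρ : a ≤ ρ) :
    n * ρ ≤ finrank ℂ (S1 (Yf f)) + (a.choose 2 + (ρ - a + 1).choose 2) := by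
  have := finiteDimensional_Yf (f := f)
  have h1 := sum_rk_le (Yf f)
  have h2 := hq.sum_le hqa haρ
  have h3 : ∑ t ∈ Finset.range n, (ρ - rk (Yf f) (t + 1)) +
      ∑ t ∈ Finset.range n, rk (Yf f) (t + 1) = n * ρ := by
    rw [← Finset.sum_add_distrib, Finset.sum_congr rfl (g := fun _ => ρ), Finset.sum_const,
      Finset.card_range, smul_eq_mul]
    intro t _
    have h4 := rk_mono (Yf f) (t + 1)
    rw [finrank_Yf s] at h4
    omega
  omega

theorem one_le_beta (s : Setting n m D ρ p A V f ε) : 1 ≤ beta ε := by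
  obtain ⟨k, hk⟩ := s.hne
  unfold beta
  rw [Nat.one_le_iff_ne_zero]
  intro h0
  rw [Nat.card_eq_zero] at h0
  rcases h0 with h0 | h0
  · exact h0.false ⟨k, hk⟩
  · exact h0.not_finite inferInstance

theorem val_top (hn : 7 ≤ n) (h : n * (n + 1) ≤ 2 * m + 6) (hm : 2 * m < n * (n + 1)) :
    Val n m := by
  rcases Nat.even_or_odd' n with ⟨x, rfl | rfl⟩
  · by_cases hx : 5 ≤ x
    · refine wN_claim (κ := x + 1) (s := (x + 1) * (2 * x) - m) (by omega) (by omega) ?_ ?_
      · have : m ≤ (x + 1) * (2 * x) := by nlinarith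
        omega
      · have h1 : (x + 1) * (2 * x) ≤ m + x + 3 := by nlinarith
        nlinarith [Nat.sub_le_iff_le_add.mpr (show (x + 1) * (2 * x) ≤ (x + 3) + m by omega)]
    · obtain rfl : x = 4 := by omega
      have : m = 33 ∨ m = 34 ∨ m = 35 := by omega
      rcases this with rfl | rfl | rfl
      · exact wN1 (κ := 5) (a := 4) (c := 1) (by norm_num) (by norm_num) (by norm_num)
          (by decide) (by decide)
      · exact wN_claim (κ := 5) (s := 6) (by norm_num) (by norm_num) (by norm_num) (by norm_num)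
      · exact wN_claim (κ := 5) (s := 5) (by norm_num) (by norm_num) (by norm_num) (by norm_num)
  · refine wN_claim (κ := x + 1) (s := (x + 1) * (2 * x + 1) - m) (by omega) (by omega) ?_ ?_
    · have : m ≤ (x + 1) * (2 * x + 1) := by nlinarith
      omega
    · have h1 : (x + 1) * (2 * x + 1) ≤ m + 3 := by nlinarith
      have h2 : (x + 1) * (2 * x + 1) - m ≤ 3 := by omega
      nlinarith

theorem star_arith {q β : ℕ} (hq : q ≤ n) (hβ : β ≤ q) :
    n * β + (q - β).choose 2 = q.choose 2 + (n - q) * β + (β + 1).choose 2 := by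
  obtain ⟨x, rfl⟩ : ∃ x, q = β + x := ⟨q - β, by omega⟩
  obtain ⟨d, rfl⟩ : ∃ d, n = β + x + d := ⟨n - (β + x), by omega⟩
  rw [Nat.add_sub_cancel_left, Nat.add_sub_cancel_left]
  have h1 := wN_ch2 x
  have h2 := wN_ch2 (β + x)
  have h3 := wN_ch2 (β + 1)
  nlinarith

theorem star_arith' {q β : ℕ} (hq : q ≤ n) :
    q.choose 2 + (n - q) * β ≤ n * β + (q - β).choose 2 := by
  rcases Nat.lt_or_ge q β with h | h
  · obtain ⟨d, rfl⟩ : ∃ d, n = q + d := ⟨n - q, by omega⟩
    rw [Nat.add_sub_cancel_left]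
    have h1 := wN_ch2 q
    nlinarith
  · rw [star_arith hq h]
    omega

theorem top_arith {q β F : ℕ} (hn : 7 ≤ n) (hβ : 1 ≤ β) (hqρ : q ≤ ρ) (hρq : ρ ≤ q + 2)
    (hqn : q ≤ n) (hρ : n ≤ ρ)
    (h4 : n * ρ ≤ F + (q.choose 2 + (ρ - q + 1).choose 2))
    (h3 : F + n * β + (q - β).choose 2 ≤ n * ρ) (h2 : F ≤ m + n * β) :
    n * (n + 1) ≤ 2 * m + 6 := by
  obtain ⟨c, rfl⟩ : ∃ c, ρ = q + c := ⟨ρ - q, by omega⟩
  obtain ⟨d, rfl⟩ : ∃ d, n = q + d := ⟨n - q, by omega⟩
  rw [Nat.add_sub_cancel_left] at h4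
  have hc : c ≤ 2 := by omega
  have hdc : d ≤ c := by omega
  have e1 := wN_ch2 q
  have hcc : (c + 1).choose 2 ≤ 3 := by
    interval_cases c <;> decide
  have hβq : β ≤ q := by
    by_contra hlt
    have h5 : (q + d) * (q + 1) ≤ (q + d) * β := Nat.mul_le_mul_left _ (by omega)
    nlinarith
  have e2 := star_arith (n := q + d) (by omega) hβq
  rw [Nat.add_sub_cancel_left] at e2
  have h5 : d * β + (β + 1).choose 2 ≤ (c + 1).choose 2 := by omega
  have hβ2 : β ≤ 2 := by
    by_contra hlt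
    have h6 := wN_ch2 (β + 1)
    nlinarith
  have h6 : (q + d) * (q + c) ≤ m + 2 * ((q + d) * β) - (q + d) * β +
      (q.choose 2 + (c + 1).choose 2) := by omega
  interval_cases β
  · interval_cases c <;> interval_cases d <;>
      first
      | (exfalso; norm_num [Nat.choose] at h5; done)
      | (norm_num [Nat.choose] at h6 h4 ⊢; nlinarith)
  · interval_cases c <;> interval_cases d <;>
      first
      | (exfalso; norm_num [Nat.choose] at h5; done)
      | (norm_num [Nat.choose] at h6 h4 ⊢; nlinarith)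

theorem indef_val (s : Setting n m D ρ p A V f ε) (hn : 7 ≤ n) (hm : 2 * m < n * (n + 1)) :
    Val n m := by
  have := s.fd
  have := finiteDimensional_Yf (f := f)
  have hfr := finrank_Yf s
  have hhom := hom_sp s (by omega)
  have hβ := one_le_beta s
  have hρ1 : 1 ≤ ρ := by
    obtain ⟨k, -⟩ := s.hne
    have := k.2
    omega
  have hY0 : Yf f ≠ ⊥ := by
    intro h0
    rw [h0, finrank_bot] at hfr
    omega
  have hrs := rseq (Yf f) hhom hY0
  rw [hfr] at hrs
  obtain ⟨q, hq⟩ := hrs.exists_q (by omega)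
  obtain ⟨c, hc⟩ : ∃ c, ρ = q + c := ⟨ρ - q, by have := hq.hqκ; omega⟩
  have hσ1 := wP1 s
  have hσ2 := wP2 s
  -- the star
  have hstar : c + 4 ≤ q → ∃ q', q ≤ q' ∧ q' ≤ ρ ∧ q' ≤ n ∧
      finrank ℂ (S1 (Yf f)) + n * beta ε + (q' - beta ε).choose 2 ≤ n * ρ := by
    intro h4
    obtain ⟨h, L, hh, hL, hL1, hL2, hL3⟩ := exists_L (Yf f) hhom hq.hqn (by rw [hfr, hc]) h4
      (fun t ht htq => hq.plateau hc (by omega) ht htq)
    rw [hfr] at hL2
    exact ⟨finrank ℂ L, hL1, hL2, hL3, wStar_pr s hh L hL⟩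
  rcases Nat.lt_or_ge ρ n with hρ | hρ
  · -- few squares
    refine wAP_proof (σ := n * ρ - finrank ℂ (S1 (Yf f))) (β := beta ε) hn hρ hβ
      (wSec_pr s (by omega)) hc (by omega) (by omega) (fun a ha haρ => ?_) (fun h4 => ?_) hm
    · have := sigma_le s hq ha haρ
      omega
    · obtain ⟨q', h1, h2, h2', h3⟩ := hstar h4
      refine ⟨q', h1, h2, ?_⟩
      have h5 := star_arith' (β := beta ε) h2'
      omega
  · -- many squares
    obtain ⟨t, E, hE, hN, hX⟩ := wE_pr s (by omega)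
    have hL : ∀ j, 3 ≤ j → j + 1 ≤ t → rk V (j - 1) + (j + 1) ≤ rk V j := by
      intro j hj hjt
      have htn := hE.hs
      have h1 := wNS_pr V (j := j) (by omega) (by omega) (hN (j + 1) (by omega) hjt)
      obtain ⟨k, rfl⟩ : ∃ k, j = k + 2 := ⟨j - 2, by omega⟩
      exact facts_L s.hhom s.hD s.hV (by omega) (s.recH (by omega) (by omega)) h1
    by_cases hc2 : 2 ≤ c ∧ (c = 2 → n ≠ 9 ∧ n ≠ 15 ∧ n ≠ 16)
    · have hr0 : rk V 0 = 0 := rk_zero s.hVD (by have := s.hD; omega)
      have hr1 : rk V 1 = 1 := rk_one s.hVD s.V_ne_bot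
      have hrn : rk V n = m := by rw [rk_self, s.finrank_V]
      have hu1 : rk (Yf f) 1 = 1 := rk_one hhom hY0
      rcases wAQ_proof hn hρ hE hq hu1 hr1 hr0 hrn hc hc2.1 hc2.2 hL hm with h | h
      · exact h
      · obtain ⟨rfl, rfl, rfl, h2, h3, h4, h5⟩ := h
        exfalso
        have h7 := hE.hhi 7 (by omega) le_rfl
        have h6 := hE.hhi 6 (by omega) (by omega)
        norm_num at h7 h6
        rw [hu1, hrn] at h7
        have hu2 : 3 ≤ rk (Yf f) 2 := by
          rcases Nat.lt_or_ge q 2 with h | h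
          · rw [hq.htop 2 (by omega)]
            omega
          · rcases hq.hor 2 (by omega) h with h | h <;> omega
        have hu3 : 5 ≤ rk (Yf f) 3 := by
          rcases Nat.lt_or_ge q 3 with h | h
          · rw [hq.htop 3 (by omega)]
            omega
          · rcases hq.hor 3 (by omega) h with h | h <;> omega
        exact wB s (hX 2 (by omega) (by omega)) (by omega) hu3 (hN 3 (by omega) (by omega))
          (hN 5 (by omega) (by omega)) h2 h3 h4
    · have hcle : c ≤ 2 := by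
        by_contra h
        exact hc2 ⟨by omega, fun h' => by omega⟩
      have hc2' : c = 2 → 9 ≤ n := by
        intro h
        by_contra h9
        exact hc2 ⟨by omega, fun _ => by omega⟩
      have hqn := hq.hqn
      obtain ⟨q', h1, h2, h2', h3⟩ := hstar (by omega)
      apply val_top hn _ hm
      have h4 := sigma_le s hq h1 h2
      exact top_arith hn hβ (by omega) (by omega) h2' hρ h4 h3 hσ2

end Pool.Agent.Lib_helper97.Ebe
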