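import Pool.Agent.Lib_helper97.Ebe.XDefs

/-!
# Orthogonal pairs of subspaces
-/

namespace Pool.Agent.Lib_helper97.Ebe

open MvPolynomial Module Matrix Pool.Agent.Lib_helper26.Ebe Pool.Agent.Lib_helper26.SOS

variable {n : ℕ}

/-- Extension of a linearly independent family inside a subspace. -/
theorem ext_li {M : Type*} [AddCommGroup M] [Module ℂ M] (N : Submodule ℂ M)
    [FiniteDimensional ℂ N] {a : ℕ} (v : Fin a → M) (hv : LinearIndependent ℂ v)
    (hN : ∀ i, v i ∈ N) {b : ℕ} (hab : a ≤ b) (hb : b ≤ finrank ℂ N) :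
    ∃ v' : Fin b → M, LinearIndependent ℂ v' ∧ (∀ i, v' i ∈ N) ∧
      ∀ i : Fin a, v' (Fin.castLE hab i) = v i := by
  induction b, hab using Nat.le_induction with
  | base => exact ⟨v, hv, hN, fun i => rfl⟩
  | succ b hab ih =>
    obtain ⟨v', h1, h2, h3⟩ := ih (by omega)
    have h4 : ∃ x ∈ N, x ∉ Submodule.span ℂ (Set.range v') := by
      by_contra hc
      push Not at hc
      have h5 : N ≤ Submodule.span ℂ (Set.range v') := hc
      have h6 := finrank_span_eq_card h1
      rw [Fintype.card_fin] at h6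
      have : FiniteDimensional ℂ (Submodule.span ℂ (Set.range v')) :=
        FiniteDimensional.span_of_finite ℂ (Set.finite_range v')
      have h7 := Submodule.finrank_mono h5
      omega
    obtain ⟨x, hx, hx'⟩ := h4
    refine ⟨Fin.snoc v' x, linearIndependent_finSnoc.mpr ⟨h1, hx'⟩, ?_, ?_⟩
    · intro i
      refine Fin.lastCases ?_ (fun i => ?_) i
      · rw [Fin.snoc_last]
        exact hx
      · rw [Fin.snoc_castSucc]
        exact h2 i
    · intro i
      have : Fin.castLE (Nat.le_succ_of_le hab) i = (Fin.castLE hab i).castSucc := rfl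
      rw [this, Fin.snoc_castSucc, h3]

/-- The orthogonal complement with respect to the bilinear form. -/
noncomputable def orth (Q : Submodule ℂ (Fin n → ℂ)) : Submodule ℂ (Fin n → ℂ) :=
  Q.dualAnnihilator.comap (dotProductEquiv ℂ (Fin n)).toLinearMap

theorem mem_orth {Q : Submodule ℂ (Fin n → ℂ)} {z : Fin n → ℂ} :
    z ∈ orth Q ↔ ∀ y ∈ Q, ∑ k, z k * y k = 0 := by
  unfold orth
  rw [Submodule.mem_comap, Submodule.mem_dualAnnihilator]
  rfl

theorem finrank_orth (Q : Submodule ℂ (Fin n → ℂ)) : finrank ℂ (orth Q) + finrank ℂ Q = n := by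
  have h1 := Subspace.finrank_add_finrank_dualAnnihilator_eq Q
  rw [finrank_fin_fun] at h1
  have h2 : finrank ℂ (orth Q) = finrank ℂ Q.dualAnnihilator := by
    unfold orth
    exact LinearEquiv.finrank_eq
      ((dotProductEquiv ℂ (Fin n)).submoduleMap _ |>.trans (LinearEquiv.ofEq _ _ (by
        rw [Submodule.map_comap_eq_of_surjective]
        exact (dotProductEquiv ℂ (Fin n)).surjective)))
  omega

/-- Any orthogonal pair is given by the columns of a matrix and the rows of its adjugate. -/
theorem completion {P Q : Submodule ℂ (Fin n → ℂ)} {i j : ℕ} (hP : finrank ℂ P ≤ i)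
    (hQ : finrank ℂ Q ≤ j) (hij : i + j ≤ n) (h : ∀ x ∈ P, ∀ y ∈ Q, ∑ k, x k * y k = 0) :
    ∃ G : Matrix (Fin n) (Fin n) ℂ, IsUnit G.det ∧
      (∀ z ∈ P, ∃ x : Fin n → ℂ, (∀ l : Fin n, i ≤ (l : ℕ) → x l = 0) ∧ z = G *ᵥ x) ∧
      (∀ w ∈ Q, ∃ y : Fin n → ℂ, (∀ l : Fin n, (l : ℕ) < n - j → y l = 0) ∧
        w = y ᵥ* G.adjugate) := by
  classical
  have hPQ : P ≤ orth Q := fun x hx => mem_orth.mpr (h x hx)
  have hQ' := finrank_orth Q
  obtain ⟨v0, h1, h2, h3⟩ := ext_li (orth Q) (fun l => ((finBasis ℂ P) l : Fin n → ℂ))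
    ((finBasis ℂ P).linearIndependent.map' P.subtype P.ker_subtype) (fun l => hPQ (Subtype.prop _))
    (b := n - j) (by omega) (by omega)
  obtain ⟨v, h4, -, h5⟩ := ext_li (⊤ : Submodule ℂ (Fin n → ℂ)) v0 h1 (fun _ => trivial)
    (b := n) (by omega) (by rw [finrank_top, finrank_fin_fun])
  let G : Matrix (Fin n) (Fin n) ℂ := Matrix.of fun k l => v l k
  have hG : IsUnit G.det := by
    rw [← Matrix.isUnit_iff_isUnit_det, ← Matrix.isUnit_transpose,
      ← Matrix.linearIndependent_rows_iff_isUnit]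
    exact h4
  have hG0 : G.det ≠ 0 := hG.ne_zero
  refine ⟨G, hG, ?_, ?_⟩
  · intro z hz
    let c := (finBasis ℂ P).repr ⟨z, hz⟩
    refine ⟨fun l => if hl : (l : ℕ) < finrank ℂ P then c ⟨l, hl⟩ else 0, ?_, ?_⟩
    · intro l hl
      exact dif_neg (by omega)
    · have h6 := (finBasis ℂ P).sum_repr ⟨z, hz⟩
      have h7 := congrArg Subtype.val h6
      rw [Submodule.coe_sum] at h7
      simp only [Submodule.coe_smul] at h7
      rw [← h7]
      funext k
      rw [Matrix.mulVec, dotProduct]
      rw [Finset.sum_apply]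
      have hle : finrank ℂ P ≤ n := by omega
      rw [← Finset.sum_subset (Finset.subset_univ
        (Finset.univ.map (Fin.castLEEmb hle)))]
      · rw [Finset.sum_map]
        refine Finset.sum_congr rfl fun l _ => ?_
        have h8 : v (Fin.castLE hle l) = (finBasis ℂ P) l := by
          have h9 := h5 (Fin.castLE (by omega) l)
          rw [h3] at h9
          exact h9
        simp only [Fin.castLEEmb_apply, Matrix.of_apply, G, Fin.val_castLE, Fin.is_lt, dif_pos,
          Fin.eta]
        rw [h8, Pi.smul_apply, smul_eq_mul, mul_comm]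
      · intro l _ hl
        rw [dif_neg, mul_zero]
        intro hl'
        apply hl
        rw [Finset.mem_map]
        exact ⟨⟨l, hl'⟩, Finset.mem_univ _, rfl⟩
  · intro w hw
    refine ⟨(G.det)⁻¹ • (w ᵥ* G), ?_, ?_⟩
    · intro l hl
      rw [Pi.smul_apply, Matrix.vecMul, dotProduct]
      have h6 : v l ∈ orth Q := by
        have h7 := h5 ⟨l, hl⟩
        have h8 : Fin.castLE (by omega : n - j ≤ n) ⟨(l : ℕ), hl⟩ = l := rfl
        rw [h8] at h7
        rw [h7]
        exact h2 _
      have h7 := mem_orth.mp h6 w hw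
      rw [smul_eq_mul]
      apply mul_eq_zero_of_right
      rw [← h7]
      exact Finset.sum_congr rfl fun k _ => mul_comm _ _
    · rw [Matrix.smul_vecMul, Matrix.vecMul_vecMul, Matrix.mul_adjugate, Matrix.vecMul_smul,
        Matrix.vecMul_one, smul_smul, inv_mul_cancel₀ hG0, one_smul]

/-- Nonvanishing of the determinant at points depending polynomially on parameters. -/
theorem gen_det {τ : Type*} (A : MvPolynomial (Fin n ⊕ Fin n) ℂ) {r : ℕ}
    (z w : Fin r → Fin n → MvPolynomial τ ℂ) (x₀ : τ → ℂ)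
    (h : (Matrix.of fun a b => eval (Sum.elim (fun i => eval x₀ (z a i))
      (fun i => eval x₀ (w b i))) A).det ≠ 0) :
    Gen (fun x : τ → ℂ => (Matrix.of fun a b => eval (Sum.elim (fun i => eval x (z a i))
      (fun i => eval x (w b i))) A).det ≠ 0) := by
  have key : ∀ x : τ → ℂ, eval x (Matrix.of fun a b =>
      (aeval (Sum.elim (z a) (w b)) A : MvPolynomial τ ℂ)).det =
      (Matrix.of fun a b => eval (Sum.elim (fun i => eval x (z a i))
        (fun i => eval x (w b i))) A).det := by
    intro x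
    rw [RingHom.map_det]
    congr 1
    ext a b
    simp only [RingHom.mapMatrix_apply, Matrix.map_apply, Matrix.of_apply]
    have : ((eval x).comp ((aeval (Sum.elim (z a) (w b)) :
        MvPolynomial (Fin n ⊕ Fin n) ℂ →ₐ[ℂ] MvPolynomial τ ℂ) :
        MvPolynomial (Fin n ⊕ Fin n) ℂ →+* MvPolynomial τ ℂ)) =
        eval (Sum.elim (fun i => eval x (z a i)) (fun i => eval x (w b i))) := by
      apply MvPolynomial.ringHom_ext
      · intro r
        simp [MvPolynomial.algebraMap_eq]
      · rintro (i | i) <;> simp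
    exact RingHom.congr_fun this A
  refine ⟨(Matrix.of fun a b => (aeval (Sum.elim (z a) (w b)) A : MvPolynomial τ ℂ)).det, ?_, ?_⟩
  · intro hc
    apply h
    rw [← key, hc, map_zero]
  · intro x hx
    rwa [key] at hx

end Pool.Agent.Lib_helper97.Ebe
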