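import Pool.Agent.Lib_helper97.Ebe.E1

/-!
# Generic orthogonal pairs of subspaces
-/

namespace Pool.Agent.Lib_helper97.Ebe

open MvPolynomial Module Matrix Pool.Agent.Lib_helper26.Ebe Pool.Agent.Lib_helper26.SOS

variable {n : ℕ}

/-- The matrix with entries `G (i, j)`. -/
def mG (G : Fin n × Fin n → ℂ) : Matrix (Fin n) (Fin n) ℂ := Matrix.of fun i j => G (i, j)

/-- Index set of the parameters. -/
abbrev Tau (n r : ℕ) := (Fin n × Fin n) ⊕ ((Fin r × Fin n) ⊕ (Fin r × Fin n))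

/-- The generic matrix. -/
noncomputable def gG (n r : ℕ) : Matrix (Fin n) (Fin n) (MvPolynomial (Tau n r) ℂ) :=
  Matrix.of fun i j => X (Sum.inl (i, j))

noncomputable def gx (n r i : ℕ) (a : Fin r) : Fin n → MvPolynomial (Tau n r) ℂ :=
  fun l => if (l : ℕ) < i then X (Sum.inr (Sum.inl (a, l))) else 0

noncomputable def gy (n r i' : ℕ) (b : Fin r) : Fin n → MvPolynomial (Tau n r) ℂ :=
  fun l => if i' ≤ (l : ℕ) then X (Sum.inr (Sum.inr (b, l))) else 0

variable {r i i' j : ℕ}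

theorem map_gG (t : Tau n r → ℂ) : (gG n r).map (eval t) = mG (t ∘ Sum.inl) := by
  ext i j
  simp [gG, mG]

/-- The evaluated coordinates. -/
def exx (i : ℕ) (t : Tau n r → ℂ) (a : Fin r) : Fin n → ℂ :=
  fun l => if (l : ℕ) < i then t (Sum.inr (Sum.inl (a, l))) else 0

def eyy (i' : ℕ) (t : Tau n r → ℂ) (b : Fin r) : Fin n → ℂ :=
  fun l => if i' ≤ (l : ℕ) then t (Sum.inr (Sum.inr (b, l))) else 0

theorem eval_gx (t : Tau n r → ℂ) (a : Fin r) (k : Fin n) :
    eval t ((gG n r *ᵥ gx n r i a) k) = (mG (t ∘ Sum.inl) *ᵥ exx i t a) k := by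
  rw [RingHom.map_mulVec, map_gG]
  congr 2
  funext l
  simp only [Function.comp_apply, gx, exx]
  split_ifs <;> simp

theorem eval_gy (t : Tau n r → ℂ) (b : Fin r) (k : Fin n) :
    eval t ((gy n r i' b ᵥ* (gG n r).adjugate) k) =
      (eyy i' t b ᵥ* (mG (t ∘ Sum.inl)).adjugate) k := by
  rw [RingHom.map_vecMul, ← RingHom.mapMatrix_apply, RingHom.map_adjugate,
    RingHom.mapMatrix_apply, map_gG]
  congr 2
  funext l
  simp only [Function.comp_apply, gy, eyy]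
  split_ifs <;> simp

theorem gen_detG (n : ℕ) : Gen (fun G : Fin n × Fin n → ℂ => IsUnit (mG G).det) := by
  refine ⟨(Matrix.of fun i j => (X (i, j) : MvPolynomial (Fin n × Fin n) ℂ)).det, ?_, ?_⟩
  · intro hc
    have h1 := congrArg (eval (fun x : Fin n × Fin n => if x.1 = x.2 then (1 : ℂ) else 0)) hc
    rw [RingHom.map_det, map_zero] at h1
    have h2 : (eval (fun x : Fin n × Fin n => if x.1 = x.2 then (1 : ℂ) else 0)).mapMatrix
        (Matrix.of fun i j => (X (i, j) : MvPolynomial (Fin n × Fin n) ℂ)) = 1 := by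
      ext i j
      simp [Matrix.one_apply]
    rw [h2, Matrix.det_one] at h1
    exact one_ne_zero h1
  · intro G hG
    rw [RingHom.map_det] at hG
    rw [isUnit_iff_ne_zero]
    convert hG using 2
    ext i j
    simp [mG]

/-- Generic witnesses from one witness. -/
theorem gen_wit0 {A : MvPolynomial (Fin n ⊕ Fin n) ℂ} (hn : i' < n) (G₀ : Fin n × Fin n → ℂ)
    (x₀ y₀ : Fin r → Fin n → ℂ) (hx₀ : ∀ a (l : Fin n), i ≤ (l : ℕ) → x₀ a l = 0)
    (hy₀ : ∀ b (l : Fin n), (l : ℕ) < i' → y₀ b l = 0)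
    (hdet : (Matrix.of fun a b =>
      eval (Sum.elim (mG G₀ *ᵥ x₀ a) (y₀ b ᵥ* (mG G₀).adjugate)) A).det ≠ 0) :
    Gen (fun G : Fin n × Fin n → ℂ => IsUnit (mG G).det ∧ ∃ x y : Fin r → Fin n → ℂ,
      (∀ a (l : Fin n), i ≤ (l : ℕ) → x a l = 0) ∧
      (∀ b (l : Fin n), (l : ℕ) < i' → y b l = 0) ∧ (∀ b, y b ⟨i', hn⟩ ≠ 0) ∧
      (Matrix.of fun a b =>
        eval (Sum.elim (mG G *ᵥ x a) (y b ᵥ* (mG G).adjugate)) A).det ≠ 0) := by
  classical
  let t₀ : Tau n r → ℂ := Sum.elim G₀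
    (Sum.elim (fun x => x₀ x.1 x.2) (fun x => y₀ x.1 x.2))
  have ht₀ : mG (t₀ ∘ Sum.inl) = mG G₀ := by
    ext i j
    rfl
  have hex : ∀ a, exx i t₀ a = x₀ a := by
    intro a
    funext l
    simp only [exx]
    split_ifs with hl
    · rfl
    · exact (hx₀ a l (by omega)).symm
  have hey : ∀ b, eyy i' t₀ b = y₀ b := by
    intro b
    funext l
    simp only [eyy]
    split_ifs with hl
    · rfl
    · exact (hy₀ b l (by omega)).symm
  have hz' : ∀ a, (fun k => eval t₀ ((gG n r *ᵥ gx n r i a) k)) = mG G₀ *ᵥ x₀ a := by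
    intro a
    funext k
    rw [eval_gx, ht₀, hex]
  have hw' : ∀ b, (fun k => eval t₀ ((gy n r i' b ᵥ* (gG n r).adjugate) k)) =
      y₀ b ᵥ* (mG G₀).adjugate := by
    intro b
    funext k
    rw [eval_gy, ht₀, hey]
  have h1 := gen_det A (fun a => gG n r *ᵥ gx n r i a)
    (fun b => gy n r i' b ᵥ* (gG n r).adjugate) t₀ (by
      simp only [hz', hw']
      exact hdet)
  have h2 : Gen (fun t : Tau n r → ℂ => ∀ b : Fin r, t (Sum.inr (Sum.inr (b, ⟨i', hn⟩))) ≠ 0) := by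
    refine ⟨∏ b : Fin r, X (Sum.inr (Sum.inr (b, ⟨i', hn⟩))), ?_, ?_⟩
    · rw [Finset.prod_ne_zero_iff]
      intro b _
      exact X_ne_zero _
    · intro t ht b
      rw [map_prod, Finset.prod_ne_zero_iff] at ht
      have := ht b (Finset.mem_univ b)
      rwa [eval_X] at this
  refine ((h1.and h2).pair.and (gen_detG n)).mono fun G hG => ?_
  obtain ⟨hG, hGdet⟩ := hG
  obtain ⟨s, hs1, hs2⟩ := hG.exists
  set t : Tau n r → ℂ := Sum.elim G s with ht
  have htG : mG (t ∘ Sum.inl) = mG G := rfl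
  refine ⟨hGdet, exx i t, eyy i' t, ?_, ?_, ?_, ?_⟩
  · intro a l hl
    exact if_neg (by omega)
  · intro b l hl
    exact if_neg (by omega)
  · intro b
    simp only [eyy]
    rw [if_pos le_rfl]
    exact hs2 b
  · have hz2 : ∀ a, (fun k => eval t ((gG n r *ᵥ gx n r i a) k)) = mG G *ᵥ exx i t a := by
      intro a
      funext k
      rw [eval_gx, htG]
    have hw2 : ∀ b, (fun k => eval t ((gy n r i' b ᵥ* (gG n r).adjugate) k)) =
        eyy i' t b ᵥ* (mG G).adjugate := by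
      intro b
      funext k
      rw [eval_gy, htG]
    simp only [hz2, hw2] at hs1
    exact hs1

/-- A witness gives witnesses for generic matrices. -/
theorem gen_wit {A : MvPolynomial (Fin n ⊕ Fin n) ℂ} (hij : i + j ≤ n) (hi' : i' + j ≤ n)
    (hn : i' < n) (h : Wit A i j r) :
    Gen (fun G : Fin n × Fin n → ℂ => IsUnit (mG G).det ∧ ∃ x y : Fin r → Fin n → ℂ,
      (∀ a (l : Fin n), i ≤ (l : ℕ) → x a l = 0) ∧
      (∀ b (l : Fin n), (l : ℕ) < i' → y b l = 0) ∧ (∀ b, y b ⟨i', hn⟩ ≠ 0) ∧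
      (Matrix.of fun a b =>
        eval (Sum.elim (mG G *ᵥ x a) (y b ᵥ* (mG G).adjugate)) A).det ≠ 0) := by
  obtain ⟨P, Q, z, w, hP, hQ, hPQ, hz, hw, hdet⟩ := h
  obtain ⟨G₀, hG₀, hzG, hwG⟩ := completion hP hQ hij hPQ
  choose x₀ hx₀ hx₀' using fun a => hzG (z a) (hz a)
  choose y₀ hy₀ hy₀' using fun b => hwG (w b) (hw b)
  refine gen_wit0 hn (fun x => G₀ x.1 x.2) x₀ y₀ hx₀
    (fun b l hl => hy₀ b l (by omega)) ?_
  have h1 : mG (fun x => G₀ x.1 x.2) = G₀ := by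
    ext i j
    rfl
  rw [h1]
  simp only [← hx₀', ← hy₀']
  exact hdet

end Pool.Agent.Lib_helper97.Ebe
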