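import Pool.Agent.Lib_helper97.Ebe.E2

/-!
# Flags
-/

namespace Pool.Agent.Lib_helper97.Ebe

open MvPolynomial Module Matrix Pool.Agent.Lib_helper26.Ebe Pool.Agent.Lib_helper26.SOS

variable {n : ℕ}

theorem sub_lf {k : ℕ} (g : Fin n × Fin k → ℂ) (a : Fin n → ℂ) :
    sub g (lf a) = lf (fun l => ∑ i, a i * g (i, l)) := by
  unfold lf
  rw [map_sum]
  simp_rw [map_mul, sub_C, sub_X, Finset.mul_sum, map_sum, Finset.sum_mul]
  rw [Finset.sum_comm]
  refine Finset.sum_congr rfl fun l _ => Finset.sum_congr rfl fun i _ => ?_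
  rw [C_mul, mul_assoc]

/-- The first columns of a matrix. -/
def fc {j k : ℕ} (hj : j ≤ k) (G : Fin n × Fin k → ℂ) : Fin n × Fin j → ℂ :=
  fun x => G (x.1, Fin.castLE hj x.2)

/-- Inclusion of the first coordinates. -/
def ioL {i j : ℕ} (h : i ≤ j) : Fin j × Fin i → ℂ :=
  fun y => if y.1 = Fin.castLE h y.2 then 1 else 0

theorem mulg_ioL {i j : ℕ} (h : i ≤ j) (g : Fin n × Fin j → ℂ) :
    mulg g (ioL h) = fc h g := by
  funext y
  rw [mulg, Finset.sum_eq_single (Fin.castLE h y.2)]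
  · rw [ioL, if_pos rfl, mul_one]
    rfl
  · intro l _ hl
    rw [ioL, if_neg hl, mul_zero]
  · simp

theorem fc_fc {i j k : ℕ} (h : i ≤ j) (h' : j ≤ k) (g : Fin n × Fin k → ℂ) :
    fc h (fc h' g) = fc (h.trans h') g := rfl

theorem Gen.fc {j k : ℕ} (hj : j ≤ k) {P : (Fin n × Fin j → ℂ) → Prop} (h : Gen P) :
    Gen (fun G : Fin n × Fin k → ℂ => P (fc hj G)) := by
  refine (h.pull (fun y => X (y.1, Fin.castLE hj y.2)) (fun g => ?_)).mono fun x hx => ?_
  · refine ⟨fun z => if hz : (z.2 : ℕ) < j then g (z.1, ⟨z.2, hz⟩) else 0, ?_⟩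
    rintro ⟨i, l⟩
    rw [eval_X]
    simp
  · convert hx using 1
    funext y
    rw [eval_X]
    rfl

theorem sub_ioL_X {i j : ℕ} (h : i ≤ j) (l : Fin j) (hl : i ≤ (l : ℕ)) :
    sub (ioL h) (X l) = 0 := by
  rw [sub_X]
  refine Finset.sum_eq_zero fun k _ => ?_
  rw [ioL, if_neg, C_0, zero_mul]
  intro hc
  have := congrArg Fin.val hc
  have h2 := k.2
  simp only [Fin.val_castLE] at this
  omega

theorem sub_ioL_X' {i j : ℕ} (h : i ≤ j) (k : Fin i) :
    sub (ioL h) (X (Fin.castLE h k)) = X k := by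
  rw [sub_X, Finset.sum_eq_single k]
  · rw [ioL, if_pos rfl, C_1, one_mul]
  · intro l _ hl
    rw [ioL, if_neg, C_0, zero_mul]
    intro hc
    exact hl (Fin.castLE_injective h hc.symm)
  · simp

theorem lf_single {j : ℕ} (l : Fin j) (c : ℂ) :
    lf (Pi.single l c : Fin j → ℂ) = C c * X l := by
  unfold lf
  rw [Finset.sum_eq_single l]
  · rw [Pi.single_eq_same]
  · intro k _ hk
    rw [Pi.single_eq_of_ne hk, C_0, zero_mul]
  · simp

theorem X_dvd_iff_sub {j : ℕ} (f : MvPolynomial (Fin (j + 1)) ℂ) :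
    X (Fin.last j) ∣ f ↔ sub (ioL (Nat.le_succ j)) f = 0 := by
  constructor
  · rintro ⟨g, rfl⟩
    rw [map_mul, sub_ioL_X _ _ (by simp), zero_mul]
  · intro h
    have h1 : (Pi.single (Fin.last j) 1 : Fin (j + 1) → ℂ) ≠ 0 := by
      intro hc
      have := congrFun hc (Fin.last j)
      rw [Pi.single_eq_same, Pi.zero_apply] at this
      exact one_ne_zero this
    have h2 := (lf_dvd_iff h1 f).mpr (fun z hz => by
      rw [sub_eq_zero_iff] at h
      apply h z
      refine ⟨fun l => z (Fin.castLE (Nat.le_succ j) l), ?_⟩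
      have hz0 : z (Fin.last j) = 0 := by
        rw [mem_kr, Finset.sum_eq_single (Fin.last j)] at hz
        · rwa [Pi.single_eq_same, one_mul] at hz
        · intro k _ hk
          rw [Pi.single_eq_of_ne hk, zero_mul]
        · simp
      funext k
      rw [mv]
      refine Fin.lastCases ?_ (fun k => ?_) k
      · rw [hz0]
        refine Finset.sum_eq_zero fun l _ => ?_
        rw [ioL, if_neg, zero_mul]
        intro hc
        have := congrArg Fin.val hc
        have h2 := l.2
        simp only [Fin.val_last, Fin.val_castLE] at this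
        omega
      · rw [Finset.sum_eq_single k]
        · have : ioL (Nat.le_succ j) (k.castSucc, k) = 1 := if_pos rfl
          rw [this, one_mul]
          rfl
        · intro l _ hl
          rw [ioL, if_neg, zero_mul]
          intro hc
          apply hl
          apply Fin.ext
          exact (congrArg Fin.val hc).symm
        · simp)
    rwa [lf_single, C_1, one_mul] at h2

/-- The space of `u` with `X_last u ∈ W`. -/
noncomputable def Ul {j : ℕ} (W : Submodule ℂ (MvPolynomial (Fin (j + 1)) ℂ)) :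
    Submodule ℂ (MvPolynomial (Fin (j + 1)) ℂ) :=
  W.comap (LinearMap.mulLeft ℂ (X (Fin.last j)))

theorem mem_Ul {j : ℕ} {W : Submodule ℂ (MvPolynomial (Fin (j + 1)) ℂ)}
    {u : MvPolynomial (Fin (j + 1)) ℂ} : u ∈ Ul W ↔ X (Fin.last j) * u ∈ W := Iff.rfl

theorem mulX_injective {j : ℕ} : Function.Injective
    (LinearMap.mulLeft ℂ (X (Fin.last j) : MvPolynomial (Fin (j + 1)) ℂ)) := by
  intro u v h
  exact mul_left_cancel₀ (X_ne_zero _) h

theorem finrank_Ul {j : ℕ} (W : Submodule ℂ (MvPolynomial (Fin (j + 1)) ℂ))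
    [FiniteDimensional ℂ W] :
    FiniteDimensional ℂ (Ul W) ∧
    finrank ℂ (W.map (sub (ioL (Nat.le_succ j))).toLinearMap) + finrank ℂ (Ul W) =
      finrank ℂ W := by
  have h1 : (Ul W).map (LinearMap.mulLeft ℂ (X (Fin.last j))) =
      van W (Set.range (mv (ioL (Nat.le_succ j)))) := by
    ext v
    constructor
    · rintro ⟨u, hu, rfl⟩
      refine ⟨hu, ?_⟩
      rw [← sub_eq_zero_iff, ← X_dvd_iff_sub]
      exact dvd_mul_right _ _
    · rintro ⟨hv, hv'⟩
      rw [← sub_eq_zero_iff, ← X_dvd_iff_sub] at hv'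
      obtain ⟨u, rfl⟩ := hv'
      exact ⟨u, hv, rfl⟩
  have h2 := finrank_map_add_van W (ioL (Nat.le_succ j))
  let e := Submodule.equivMapOfInjective _ mulX_injective (Ul W)
  have h3 := e.finrank_eq
  rw [h1] at h3
  refine ⟨?_, by omega⟩
  have : FiniteDimensional ℂ ((Ul W).map (LinearMap.mulLeft ℂ (X (Fin.last j)))) := by
    rw [h1]
    exact Submodule.finiteDimensional_of_le (van_le W _)
  exact Module.Finite.equiv e.symm

theorem li_of_det {k r : ℕ} (f : Fin r → MvPolynomial (Fin k) ℂ) (x : Fin r → Fin k → ℂ)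
    (h : (Matrix.of fun a b => eval (x a) (f b)).det ≠ 0) : LinearIndependent ℂ f := by
  rw [Fintype.linearIndependent_iff]
  intro c hc
  have h1 : (Matrix.of fun a b => eval (x a) (f b)) *ᵥ c = 0 := by
    funext a
    rw [Matrix.mulVec, dotProduct, Pi.zero_apply]
    have := congrArg (eval (x a)) hc
    rw [map_sum, map_zero] at this
    rw [← this]
    refine Finset.sum_congr rfl fun b _ => ?_
    rw [Matrix.of_apply, smul_eval, mul_comm]
  have h2 := Matrix.eq_zero_of_mulVec_eq_zero h h1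
  intro i
  rw [h2, Pi.zero_apply]

theorem le_finrank_of_li {k r : ℕ} {W : Submodule ℂ (MvPolynomial (Fin k) ℂ)}
    [FiniteDimensional ℂ W] (f : Fin r → MvPolynomial (Fin k) ℂ) (hf : LinearIndependent ℂ f)
    (h : ∀ b, f b ∈ W) : r ≤ finrank ℂ W := by
  have h1 : Submodule.span ℂ (Set.range f) ≤ W := by
    rw [Submodule.span_le]
    rintro _ ⟨b, rfl⟩
    exact h b
  have h2 := finrank_span_eq_card hf
  rw [Fintype.card_fin] at h2
  rw [← h2]
  exact Submodule.finrank_mono h1

end Pool.Agent.Lib_helper97.Ebe
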