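import Pool.Agent.Lib_helper97.Ebe.E3

/-!
# Lower bounds for the differences of the ranks
-/

namespace Pool.Agent.Lib_helper97.Ebe

open MvPolynomial Module Matrix Pool.Agent.Lib_helper26.Ebe Pool.Agent.Lib_helper26.SOS

variable {n m D ρ : ℕ} {p : Fin m → MvPolynomial (Fin n) ℂ}
    {A : MvPolynomial (Fin n ⊕ Fin n) ℂ} {V : Submodule ℂ (MvPolynomial (Fin n) ℂ)}
    {f : Fin ρ → MvPolynomial (Fin n) ℂ} {ε : Fin ρ → ℝ}

theorem mulVec_eq_mv {i : ℕ} (hi : i ≤ n) (G : Fin n × Fin n → ℂ) (x : Fin n → ℂ)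
    (hx : ∀ l : Fin n, i ≤ (l : ℕ) → x l = 0) :
    mG G *ᵥ x = mv (fc hi G) (fun l => x (Fin.castLE hi l)) := by
  funext k
  rw [Matrix.mulVec, dotProduct, mv,
    ← Finset.sum_subset (Finset.subset_univ (Finset.univ.map (Fin.castLEEmb hi)))]
  · rw [Finset.sum_map]
    rfl
  · intro l _ hl
    rw [hx l, mul_zero]
    by_contra hl'
    apply hl
    rw [Finset.mem_map]
    exact ⟨⟨l, by omega⟩, Finset.mem_univ _, rfl⟩

theorem sum_adj (G : Fin n × Fin n → ℂ) (y : Fin n → ℂ) (l : Fin n) :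
    ∑ i, (y ᵥ* (mG G).adjugate) i * G (i, l) = (mG G).det * y l := by
  have h1 : ((y ᵥ* (mG G).adjugate) ᵥ* mG G) l = (mG G).det * y l := by
    rw [Matrix.vecMul_vecMul, Matrix.adjugate_mul, Matrix.vecMul_smul, Matrix.vecMul_one,
      Pi.smul_apply, smul_eq_mul]
  rw [← h1]
  rfl

theorem sub_lf_adj {j : ℕ} (hj : j + 1 ≤ n) (G : Fin n × Fin n → ℂ) (y : Fin n → ℂ)
    (hy : ∀ l : Fin n, (l : ℕ) < j → y l = 0) :
    sub (fc hj G) (lf (y ᵥ* (mG G).adjugate)) =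
      C ((mG G).det * y ⟨j, hj⟩) * X (Fin.last j) := by
  rw [sub_lf, ← lf_single]
  congr 1
  funext l
  have h1 : ∑ i, (y ᵥ* (mG G).adjugate) i * fc hj G (i, l) =
      (mG G).det * y (Fin.castLE hj l) := sum_adj G y (Fin.castLE hj l)
  rw [h1]
  refine Fin.lastCases ?_ (fun k => ?_) l
  · rw [Pi.single_eq_same]
    rfl
  · rw [Pi.single_eq_of_ne (Fin.castSucc_lt_last k).ne, hy _ (by simp), mul_zero]

theorem sp_mem_Ul (s : Setting n m D ρ p A V f ε) {j : ℕ} (hj : j + 1 ≤ n)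
    (G : Fin n × Fin n → ℂ) (hG : IsUnit (mG G).det) (y : Fin n → ℂ)
    (hy : ∀ l : Fin n, (l : ℕ) < j → y l = 0) (hy' : y ⟨j, hj⟩ ≠ 0) :
    sub (fc hj G) (sp (y ᵥ* (mG G).adjugate) A) ∈ Ul (V.map (sub (fc hj G)).toLinearMap) := by
  rw [mem_Ul]
  have h1 : lf (y ᵥ* (mG G).adjugate) * sp (y ᵥ* (mG G).adjugate) A ∈ V := by
    rw [s.hV]
    exact lf_mul_sp_mem s.hA _
  have h2 : sub (fc hj G) (lf (y ᵥ* (mG G).adjugate) * sp (y ᵥ* (mG G).adjugate) A) ∈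
      V.map (sub (fc hj G)).toLinearMap := ⟨_, h1, rfl⟩
  rw [map_mul, sub_lf_adj hj G y hy, mul_assoc, ← smul_eq_C_mul] at h2
  have h3 : (mG G).det * y ⟨j, hj⟩ ≠ 0 := mul_ne_zero hG.ne_zero hy'
  have h4 := Submodule.smul_mem _ ((mG G).det * y ⟨j, hj⟩)⁻¹ h2
  rwa [smul_smul, inv_mul_cancel₀ h3, one_smul] at h4

/-- The restricted polynomials are linearly independent. -/
theorem li_sp {i r : ℕ} (hi : i ≤ n) (G : Fin n × Fin n → ℂ) (x : Fin r → Fin n → ℂ)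
    (w : Fin r → Fin n → ℂ) (hx : ∀ a (l : Fin n), i ≤ (l : ℕ) → x a l = 0)
    (hdet : (Matrix.of fun a b => eval (Sum.elim (mG G *ᵥ x a) (w b)) A).det ≠ 0) :
    LinearIndependent ℂ (fun b => sub (fc hi G) (sp (w b) A)) := by
  apply li_of_det _ (fun a l => x a (Fin.castLE hi l))
  convert hdet using 3
  funext a b
  rw [eval_sub, ← mulVec_eq_mv hi G (x a) (hx a), eval_sp]

theorem K12 (s : Setting n m D ρ p A V f ε) {j r i jQ : ℕ} (hj : j + 1 ≤ n) (hi : i ≤ j + 1)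
    (hij : i + jQ ≤ n) (hjQ : j + jQ ≤ n) (h : Wit A i jQ r) :
    rk V j + r ≤ rk V (j + 1) := by
  have := s.fd
  obtain ⟨G, ⟨⟨hG, x, y, hx, hy, hy', hdet⟩, h1⟩, h2⟩ :=
    (((gen_wit (i' := j) hij hjQ (by omega) h).and (Gen.fc hj (gen_rk V (j + 1)))).and
      (Gen.fc (show j ≤ n by omega) (gen_rk V j))).exists
  have hfd : FiniteDimensional ℂ (V.map (sub (fc hj G)).toLinearMap) := inferInstance
  obtain ⟨h3, h4⟩ := finrank_Ul (V.map (sub (fc hj G)).toLinearMap)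
  rw [← map_sub_mulg, mulg_ioL, fc_fc, h1] at h4
  rw [h2] at h4
  have h5 := li_sp (A := A) hj G x _ (fun a l hl => hx a l (by omega)) hdet
  have h6 := le_finrank_of_li _ h5 (fun b => sp_mem_Ul s hj G hG (y b) (hy b) (hy' b))
  omega

/-- The conclusion of the second order lemma in coordinates. -/
def QY {j : ℕ} (W : Submodule ℂ (MvPolynomial (Fin (j + 1)) ℂ)) : Prop :=
  ∃ φ : MvPolynomial (Fin (j + 1)) ℂ, sub (ioL (Nat.le_succ j)) φ ≠ 0 ∧
    (∀ l : Fin (j + 1), ∃ u ∈ Ul W, sub (ioL (Nat.le_succ j)) (u - X l * φ) = 0) ∧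
    ∃ y ∈ Ul W, y ≠ 0 ∧ sub (ioL (Nat.le_succ j)) y = 0

theorem li_X_mul {j i : ℕ} (hi : i ≤ j) {φ : MvPolynomial (Fin j) ℂ} (hφ : φ ≠ 0) :
    LinearIndependent ℂ (fun k : Fin (j - i) =>
      (X (⟨i + k, by omega⟩ : Fin j) : MvPolynomial (Fin j) ℂ) * φ) := by
  rw [Fintype.linearIndependent_iff]
  intro c hc k
  have h1 : (∑ k : Fin (j - i), c k • (X (⟨i + k, by omega⟩ : Fin j) : MvPolynomial (Fin j) ℂ))
      * φ = 0 := by
    rw [← hc, Finset.sum_mul]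
    exact Finset.sum_congr rfl fun k _ => smul_mul_assoc _ _ _
  have h2 := (mul_eq_zero.mp h1).resolve_right hφ
  have h3 := congrArg (eval (Pi.single (⟨i + k, by omega⟩ : Fin j) 1)) h2
  rw [map_sum, map_zero, Finset.sum_eq_single k] at h3
  · rwa [smul_eval, eval_X, Pi.single_eq_same, mul_one] at h3
  · intro l _ hl
    rw [smul_eval, eval_X, Pi.single_eq_of_ne, mul_zero]
    intro hc
    apply hl
    apply Fin.ext
    have := congrArg Fin.val hc
    simp only at this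
    omega
  · simp

theorem K3core (s : Setting n m D ρ p A V f ε) {j r i : ℕ} (hj : j + 1 ≤ n) (hi : i ≤ j)
    (G : Fin n × Fin n → ℂ) (hG : IsUnit (mG G).det) (x y : Fin r → Fin n → ℂ)
    (hx : ∀ a (l : Fin n), i ≤ (l : ℕ) → x a l = 0)
    (hy : ∀ b (l : Fin n), (l : ℕ) < j → y b l = 0) (hy' : ∀ b, y b ⟨j, hj⟩ ≠ 0)
    (hdet : (Matrix.of fun a b =>
      eval (Sum.elim (mG G *ᵥ x a) (y b ᵥ* (mG G).adjugate)) A).det ≠ 0)
    (h1 : finrank ℂ (V.map (sub (fc hj G)).toLinearMap) = rk V (j + 1))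
    (h2 : finrank ℂ (V.map (sub (fc (show j ≤ n by omega) G)).toLinearMap) = rk V j)
    (hY : QY (V.map (sub (fc hj G)).toLinearMap)) :
    rk V j + (j + 1) + r ≤ rk V (j + 1) + i := by
  have := s.fd
  set g := fc hj G with hg
  have hfd : FiniteDimensional ℂ (V.map (sub g).toLinearMap) := inferInstance
  obtain ⟨h3, h4⟩ := finrank_Ul (V.map (sub g).toLinearMap)
  rw [← map_sub_mulg, mulg_ioL, hg, fc_fc, ← hg, h1] at h4
  rw [h2] at h4
  obtain ⟨φ, hφ, hφ2, y₀, hy₀, hy₁, hy₂⟩ := hY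
  -- restriction to the hyperplane
  have h5 := finrank_map_add_van (Ul (V.map (sub g).toLinearMap)) (ioL (Nat.le_succ j))
  have h6 : 1 ≤ finrank ℂ (van (Ul (V.map (sub g).toLinearMap))
      (Set.range (mv (ioL (Nat.le_succ j))))) := by
    have : FiniteDimensional ℂ (van (Ul (V.map (sub g).toLinearMap))
      (Set.range (mv (ioL (Nat.le_succ j))))) := Submodule.finiteDimensional_of_le (van_le _ _)
    rw [Nat.one_le_iff_ne_zero]
    intro h0
    rw [Submodule.finrank_eq_zero] at h0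
    have h7 : y₀ ∈ van (Ul (V.map (sub g).toLinearMap))
      (Set.range (mv (ioL (Nat.le_succ j)))) := ⟨hy₀, (sub_eq_zero_iff _ _).mp hy₂⟩
    rw [h0, Submodule.mem_bot] at h7
    exact hy₁ h7
  set U1 := (Ul (V.map (sub g).toLinearMap)).map (sub (ioL (Nat.le_succ j))).toLinearMap
    with hU1
  have hfd1 : FiniteDimensional ℂ U1 := inferInstance
  have h7 := finrank_map_add_van U1 (ioL hi)
  have h8 : r ≤ finrank ℂ (U1.map (sub (ioL hi)).toLinearMap) := by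
    have h9 := li_sp (A := A) (show i ≤ n by omega) G x _ hx hdet
    refine le_finrank_of_li _ h9 (fun b => ?_)
    refine ⟨_, ⟨_, sp_mem_Ul s hj G hG (y b) (hy b) (hy' b), rfl⟩, ?_⟩
    change sub (ioL hi) (sub (ioL (Nat.le_succ j)) (sub (fc hj G) _)) = _
    rw [← AlgHom.comp_apply (sub (ioL (Nat.le_succ j))), ← sub_mulg, mulg_ioL, fc_fc,
      ← AlgHom.comp_apply, ← sub_mulg, mulg_ioL, fc_fc]
  have h9 : j - i ≤ finrank ℂ (van U1 (Set.range (mv (ioL hi)))) := by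
    have : FiniteDimensional ℂ (van U1 (Set.range (mv (ioL hi)))) :=
      Submodule.finiteDimensional_of_le (van_le _ _)
    refine le_finrank_of_li _ (li_X_mul hi hφ) (fun k => ?_)
    refine ⟨?_, ?_⟩
    · obtain ⟨u, hu, hu'⟩ := hφ2 (Fin.castLE (Nat.le_succ j) ⟨i + k, by omega⟩)
      refine ⟨u, hu, ?_⟩
      rw [map_sub, sub_eq_zero, map_mul, sub_ioL_X'] at hu'
      exact hu'
    · rw [← sub_eq_zero_iff, map_mul, sub_ioL_X hi _ (by simp), zero_mul]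
  omega

end Pool.Agent.Lib_helper97.Ebe
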