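import Pool.Agent.Lib_helper97.Ebe.E5

/-!
# Lemma X, main part
-/

namespace Pool.Agent.Lib_helper97.Ebe

open MvPolynomial Module Matrix Pool.Agent.Lib_helper26.Ebe Pool.Agent.Lib_helper26.SOS

variable {n m D ρ : ℕ} {p : Fin m → MvPolynomial (Fin n) ℂ}
    {A : MvPolynomial (Fin n ⊕ Fin n) ℂ} {V : Submodule ℂ (MvPolynomial (Fin n) ℂ)}
    {f : Fin ρ → MvPolynomial (Fin n) ℂ} {ε : Fin ρ → ℝ}

theorem fc_jn {j e : ℕ} (a : Fin n × Fin j → ℂ) (b : Fin n × Fin e → ℂ) :
    fc (Nat.le_add_right j e) (jn (Sum.elim a b)) = a := by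
  funext y
  exact jn_left (Sum.elim a b) y.1 y.2

theorem mv_last {j : ℕ} (a : Fin n × Fin j → ℂ) (b : Fin n × Fin 1 → ℂ) :
    mv (jn (Sum.elim a b)) (Pi.single (Fin.last j) 1 : Fin (j + 1) → ℂ) = fun i => b (i, 0) := by
  rw [mv_single]
  funext i
  exact jn_right (Sum.elim a b) i 0

theorem eval_fin_one (Ψ : MvPolynomial (Fin n) ℂ) (b : Fin n × Fin 1 → ℂ) :
    eval (fun i => b (i, 0)) Ψ = eval b (rename (fun i => (i, (0 : Fin 1))) Ψ) := by
  rw [eval_rename]
  rfl

theorem lemX (s : Setting n m D ρ p A V f ε) {j : ℕ} (hj : j + 1 ≤ n)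
    (hN : Gen (fun g : Fin n × Fin (j + 1) → ℂ =>
      ∀ v ∈ V.map (sub g).toLinearMap, X (Fin.last j) ^ 2 ∣ v → v = 0)) :
    Wit A j (n - j) (rk (Yf f) (n - j)) := by
  classical
  obtain ⟨G₀, x₀, y₀, hy₀, hdet₀⟩ := exists_G s (show j ≤ n by omega)
  obtain ⟨G, ⟨hG, x, y, -, hy, hy', hdet⟩, hN'⟩ :=
    ((gen_wit0 (i := n) hj G₀ x₀ y₀ (fun a l hl => absurd l.2 (by omega)) hy₀ hdet₀).and
      (Gen.fc (show j ≤ n by omega) (Gen.jn (p := j) (e := 1) hN).pair)).exists
  set w := fun b => y b ᵥ* (mG G).adjugate with hw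
  set a := fc (show j ≤ n by omega) G with ha
  -- the restricted polynomials are linearly independent
  have hli : LinearIndependent ℂ (fun b => sub a (sp (w b) A)) := by
    rw [Fintype.linearIndependent_iff]
    intro c hc
    have hli0 : LinearIndependent ℂ (fun b => sp (w b) A) := by
      apply li_of_det _ (fun a => mG G *ᵥ x a)
      convert hdet using 3
      funext a b
      rw [eval_sp]
    apply Fintype.linearIndependent_iff.mp hli0
    set Ψ := ∑ b, c b • sp (w b) A with hΨ
    have hΨa : sub a Ψ = 0 := by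
      rw [hΨ, map_sum, ← hc]
      exact Finset.sum_congr rfl fun b _ => map_smul _ _ _
    have hwne : Gen (fun b' : Fin n × Fin 1 → ℂ => ∀ b, ∑ i, w b i * b' (i, 0) ≠ 0) := by
      refine ⟨∏ b, ∑ i, C (w b i) * X (i, 0), ?_, ?_⟩
      · rw [Finset.prod_ne_zero_iff]
        intro b _ h0
        have h1 := congrArg (eval (fun z : Fin n × Fin 1 => G (z.1, ⟨j, hj⟩))) h0
        rw [map_sum, map_zero] at h1
        have h2 := sum_adj G (y b) ⟨j, hj⟩
        apply mul_ne_zero hG.ne_zero (hy' b)
        rw [← h2, ← h1]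
        exact Finset.sum_congr rfl fun i _ => by rw [map_mul, eval_C, eval_X]
      · intro b' hb' b
        rw [map_prod, Finset.prod_ne_zero_iff] at hb'
        have h1 := hb' b (Finset.mem_univ b)
        rw [map_sum] at h1
        simp only [map_mul, eval_C, eval_X] at h1
        exact h1
    have hkey : Gen (fun b' : Fin n × Fin 1 → ℂ =>
        eval b' (rename (fun i => (i, (0 : Fin 1))) Ψ) = 0) := by
      refine (hN'.and hwne).mono fun b' hb' => ?_
      obtain ⟨h1, h2⟩ := hb'
      set g : Fin n × Fin (j + 1) → ℂ := jn (Sum.elim a b') with hg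
      have h3 : ∀ b, X (Fin.last j) * sub g (sp (w b) A) ∈ V.map (sub g).toLinearMap := by
        intro b
        have h4 : lf (w b) * sp (w b) A ∈ V := by
          rw [s.hV]
          exact lf_mul_sp_mem s.hA _
        have h5 : sub g (lf (w b) * sp (w b) A) ∈ V.map (sub g).toLinearMap := ⟨_, h4, rfl⟩
        have h6 : sub g (lf (w b)) = C (∑ i, w b i * b' (i, 0)) * X (Fin.last j) := by
          rw [sub_lf, ← lf_single]
          congr 1
          funext l
          refine Fin.lastCases ?_ (fun k => ?_) l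
          · rw [Pi.single_eq_same]
            refine Finset.sum_congr rfl fun i _ => ?_
            congr 1
            exact jn_right (Sum.elim a b') i 0
          · rw [Pi.single_eq_of_ne (Fin.castSucc_lt_last k).ne]
            have h7 := sum_adj G (y b) (Fin.castLE (show j ≤ n by omega) k)
            rw [hy b _ (by simp), mul_zero] at h7
            rw [← h7]
            refine Finset.sum_congr rfl fun i _ => ?_
            congr 1
            exact jn_left (Sum.elim a b') i k
        rw [map_mul, h6, mul_assoc, ← smul_eq_C_mul] at h5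
        have h8 := Submodule.smul_mem _ (∑ i, w b i * b' (i, 0))⁻¹ h5
        rwa [smul_smul, inv_mul_cancel₀ (h2 b), one_smul] at h8
      have h9 : X (Fin.last j) * sub g Ψ ∈ V.map (sub g).toLinearMap := by
        rw [hΨ, map_sum, Finset.mul_sum]
        refine Submodule.sum_mem _ fun b _ => ?_
        rw [map_smul, mul_smul_comm]
        exact Submodule.smul_mem _ _ (h3 b)
      have h10 : X (Fin.last j) ∣ sub g Ψ := by
        rw [X_dvd_iff_sub, ← AlgHom.comp_apply, ← sub_mulg, mulg_ioL]
        have h11 : fc (Nat.le_succ j) g = a := fc_jn a b'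
        rw [h11, hΨa]
      have h12 := h1 _ h9 (by
        rw [pow_two]
        exact mul_dvd_mul_left _ h10)
      have h13 := (mul_eq_zero.mp h12).resolve_left (X_ne_zero _)
      rw [← eval_fin_one, ← mv_last a b', ← eval_sub, ← hg, h13, map_zero]
    have h14 := eq_zero_of_gen _ hkey
    apply rename_injective (fun i : Fin n => (i, (0 : Fin 1)))
      (fun i j h => (Prod.ext_iff.mp h).1)
    rw [h14, map_zero]
  obtain ⟨x', hx'⟩ := exists_points_det _ hli
  refine wit_of_G le_rfl (by omega) G (fun b => mv a (x' b)) y (fun b => mem_mvS.mpr ⟨_, rfl⟩) hy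
    ?_
  convert hx' using 3
  funext b b'
  rw [eval_sub, eval_sp]

end Pool.Agent.Lib_helper97.Ebe
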