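import Pool.Agent.Lib_helper97.Ebe.E6

/-!
# The numbers `E i j`
-/

namespace Pool.Agent.Lib_helper97.Ebe

open MvPolynomial Module Matrix Pool.Agent.Lib_helper26.Ebe Pool.Agent.Lib_helper26.SOS

variable {n m D ρ : ℕ} {p : Fin m → MvPolynomial (Fin n) ℂ}
    {A : MvPolynomial (Fin n ⊕ Fin n) ℂ} {V : Submodule ℂ (MvPolynomial (Fin n) ℂ)}
    {f : Fin ρ → MvPolynomial (Fin n) ℂ} {ε : Fin ρ → ℝ}

theorem exists_mvS (P : Submodule ℂ (Fin n → ℂ)) {i : ℕ} (hP : finrank ℂ P ≤ i) :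
    ∃ g : Fin n × Fin i → ℂ, mvS g = P := by
  obtain ⟨g₀, hg₀, -⟩ := exists_range_mv P rfl
  refine ⟨fun x => if h : (x.2 : ℕ) < finrank ℂ P then g₀ (x.1, ⟨x.2, h⟩) else 0, ?_⟩
  have key : ∀ x : Fin i → ℂ, mv (fun x : Fin n × Fin i =>
      if h : (x.2 : ℕ) < finrank ℂ P then g₀ (x.1, ⟨x.2, h⟩) else 0) x =
      mv g₀ (fun l => x (Fin.castLE hP l)) := by
    intro x
    funext k
    simp only [mv]
    rw [← Finset.sum_subset (Finset.subset_univ (Finset.univ.map (Fin.castLEEmb hP)))]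
    · rw [Finset.sum_map]
      refine Finset.sum_congr rfl fun l _ => ?_
      rw [dif_pos (by simp)]
      rfl
    · intro l _ hl
      rw [dif_neg, zero_mul]
      intro hl'
      apply hl
      rw [Finset.mem_map]
      exact ⟨⟨l, hl'⟩, Finset.mem_univ _, rfl⟩
  apply SetLike.ext'
  rw [coe_mvS, ← hg₀]
  ext z
  constructor
  · rintro ⟨x, rfl⟩
    exact ⟨_, (key x).symm⟩
  · rintro ⟨x, rfl⟩
    refine ⟨fun l => if h : (l : ℕ) < finrank ℂ P then x ⟨l, h⟩ else 0, ?_⟩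
    rw [key]
    congr 1
    funext l
    rw [dif_pos (by simp)]
    rfl

theorem Wit.symm {i j r : ℕ} (h : Wit (dg f ε) i j r) : Wit (dg f ε) j i r := by
  obtain ⟨P, Q, z, w, hP, hQ, hPQ, hz, hw, hdet⟩ := h
  obtain ⟨g, rfl⟩ := exists_mvS P hP
  obtain ⟨h, rfl⟩ := exists_mvS Q hQ
  have hcv : ∀ {k : ℕ} (g : Fin n × Fin k → ℂ) (x : Fin n → ℂ), x ∈ mvS (cg g) →
      cv x ∈ mvS g := by
    intro k g x hx
    obtain ⟨x', rfl⟩ := mem_mvS.mp hx
    rw [cv_mv]
    have : cg (cg g) = g := by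
      funext y
      simp [cg]
    rw [this]
    exact mem_mvS.mpr ⟨_, rfl⟩
  have hcv' : ∀ {k : ℕ} (g : Fin n × Fin k → ℂ) (x : Fin n → ℂ), x ∈ mvS g →
      cv x ∈ mvS (cg g) := by
    intro k g x hx
    obtain ⟨x', rfl⟩ := mem_mvS.mp hx
    rw [cv_mv]
    exact mem_mvS.mpr ⟨_, rfl⟩
  refine ⟨mvS (cg h), mvS (cg g), fun a => cv (w a), fun b => cv (z b), finrank_mvS_le _,
    finrank_mvS_le _, ?_, fun a => hcv' h _ (hw a), fun b => hcv' g _ (hz b), ?_⟩
  · intro x hx y hy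
    have h1 := hPQ _ (hcv g y hy) _ (hcv h x hx)
    have h2 := congrArg (starRingEnd ℂ) h1
    rw [map_sum, map_zero] at h2
    rw [← h2]
    refine Finset.sum_congr rfl fun k _ => ?_
    rw [map_mul]
    simp only [cv, Complex.conj_conj]
    rw [mul_comm]
  · have h4 := det_conj _ hdet
    convert h4 using 3
    funext a b
    rw [Matrix.of_apply, eval_dg_conj, cv_cv, cv_cv]

theorem Wit.le_rk (s : Setting n m D ρ p A V f ε) {i j r : ℕ} (h : Wit A i j r) :
    r ≤ rk (Yf f) i := by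
  have := finiteDimensional_Yf (f := f)
  obtain ⟨P, Q, z, w, hP, hQ, hPQ, hz, hw, hdet⟩ := h
  obtain ⟨g, rfl⟩ := exists_mvS P hP
  choose x hx using fun a => mem_mvS.mp (hz a)
  have hli : LinearIndependent ℂ (fun b => sub g (sp (w b) A)) := by
    apply li_of_det _ x
    convert hdet using 3
    funext a b
    rw [eval_sub, eval_sp, hx]
  refine (le_finrank_of_li (W := (Yf f).map (sub g).toLinearMap) _ hli (fun b => ?_)).trans
    (finrank_map_le_rk (Yf f) g)
  refine ⟨_, ?_, rfl⟩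
  rw [s.hAe]
  exact dg_mem f ε _

theorem Wit.mono' {A : MvPolynomial (Fin n ⊕ Fin n) ℂ} {i j i' j' r : ℕ} (h : Wit A i j r)
    (hi : i ≤ i') (hj : j ≤ j') : Wit A i' j' r := by
  obtain ⟨P, Q, z, w, hP, hQ, h⟩ := h
  exact ⟨P, Q, z, w, hP.trans hi, hQ.trans hj, h⟩

theorem Wit.zero (A : MvPolynomial (Fin n ⊕ Fin n) ℂ) (i j : ℕ) : Wit A i j 0 := by
  refine ⟨⊥, ⊥, 0, 0, by simp, by simp, ?_, fun a => a.elim0, fun a => a.elim0, by simp⟩
  intro x hx y _
  rw [Submodule.mem_bot] at hx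
  rw [hx]
  simp

/-- The generic rank of `A` on orthogonal subspaces of dimensions `i` and `j`. -/
noncomputable def EE (A : MvPolynomial (Fin n ⊕ Fin n) ℂ) (i j : ℕ) : ℕ := sSup {r | Wit A i j r}

theorem bdd (s : Setting n m D ρ p A V f ε) (i j : ℕ) : BddAbove {r | Wit A i j r} :=
  ⟨rk (Yf f) i, fun _ hr => Wit.le_rk s hr⟩

theorem wit_EE (s : Setting n m D ρ p A V f ε) (i j : ℕ) : Wit A i j (EE A i j) :=
  Nat.sSup_mem ⟨0, Wit.zero A i j⟩ (bdd s i j)

theorem le_EE (s : Setting n m D ρ p A V f ε) {i j r : ℕ} (h : Wit A i j r) : r ≤ EE A i j :=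
  le_csSup (bdd s i j) h

theorem EE_symm (s : Setting n m D ρ p A V f ε) (i j : ℕ) : EE A i j = EE A j i := by
  apply le_antisymm
  · apply le_EE s
    have := wit_EE s i j
    rw [s.hAe] at this ⊢
    exact this.symm
  · apply le_EE s
    have := wit_EE s j i
    rw [s.hAe] at this ⊢
    exact this.symm

theorem EE_mono (s : Setting n m D ρ p A V f ε) {i j i' j' : ℕ} (hi : i ≤ i') (hj : j ≤ j') :
    EE A i j ≤ EE A i' j' :=
  le_EE s ((wit_EE s i j).mono' hi hj)

theorem hom_sp (s : Setting n m D ρ p A V f ε) (hn : 1 ≤ n) :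
    Yf f ≤ homogeneousSubmodule (Fin n) ℂ (D - 1) := by
  apply span_le_of_gen_dg s.hf s.hε
  refine (gen_ne_zero hn).mono fun b hb => ?_
  rw [← s.hAe, mem_homogeneousSubmodule]
  apply isHomogeneous_of_lf_mul hb
  have h1 : lf b * sp b A ∈ V := by
    rw [s.hV]
    exact lf_mul_sp_mem s.hA _
  exact s.hVD h1

theorem EE_zero (s : Setting n m D ρ p A V f ε) (hn : 1 ≤ n) (j : ℕ) : EE A 0 j = 0 := by
  have := finiteDimensional_Yf (f := f)
  have h1 := Wit.le_rk s (wit_EE s 0 j)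
  have h2 := rk_zero (hom_sp s hn) (by have := s.hD; omega)
  omega

theorem RSeq.strict {κ : ℕ} {r : ℕ → ℕ} (h : RSeq κ n r) {s : ℕ} (hs : 1 ≤ s) (hsn : s < n)
    (h1 : r s < κ) : r s + 1 ≤ r (s + 1) := by
  by_contra hc
  have h2 := h.hmono s
  have h3 : r (s + 1) = r s := by omega
  have h4 := (h.const hs h3 (t := n) (by omega)).2
  rw [h.hn] at h4
  omega

theorem EE_grow (s : Setting n m D ρ p A V f ε) {i j : ℕ} (hij : i + j < n)
    (hlt : EE A i j < EE A (n - j) j) : EE A i j < EE A (i + 1) j := by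
  rcases Nat.eq_zero_or_pos j with rfl | hj
  · rw [EE_symm s (n - 0) 0, EE_zero s (by omega)] at hlt
    omega
  have hYfd := finiteDimensional_Yf (f := f)
  obtain ⟨G, ⟨hG, x, y, hx, hy, -, hdet⟩, ⟨-, x1, y1, hx1, hy1, -, hdet1⟩⟩ :=
    ((gen_wit (i' := n - j) (by omega) (by omega) (by omega) (wit_EE s i j)).and
      (gen_wit (i' := n - j) (by omega) (by omega) (by omega) (wit_EE s (n - j) j))).exists
  set g := fc (show n - j ≤ n by omega) G with hg
  set T : Set (MvPolynomial (Fin (n - j)) ℂ) :=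
    {v | ∃ y : Fin n → ℂ, (∀ l : Fin n, (l : ℕ) < n - j → y l = 0) ∧
      v = sub g (sp (y ᵥ* (mG G).adjugate) A)} with hT
  set F := Submodule.span ℂ T with hF
  have hFY : F ≤ (Yf f).map (sub g).toLinearMap := by
    rw [hF, Submodule.span_le]
    rintro _ ⟨y, -, rfl⟩
    refine ⟨_, ?_, rfl⟩
    rw [s.hAe]
    exact dg_mem f ε _
  have hFfd : FiniteDimensional ℂ F := Submodule.finiteDimensional_of_le hFY
  have hFD : F ≤ homogeneousSubmodule (Fin (n - j)) ℂ (D - 1) := by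
    refine hFY.trans ?_
    rintro _ ⟨v, hv, rfl⟩
    exact isHomogeneous_sub g (hom_sp s (by omega) hv)
  have h1 : EE A (n - j) j ≤ finrank ℂ F := by
    refine le_finrank_of_li _ (li_sp (A := A) (show n - j ≤ n by omega) G x1 _ hx1 hdet1)
      (fun b => ?_)
    exact Submodule.subset_span ⟨y1 b, hy1 b, rfl⟩
  have h2 : ∀ k, rk F k ≤ EE A k j := by
    intro k
    obtain ⟨h, hh⟩ := (gen_rk F k).exists
    have h3 : F.map (sub h).toLinearMap = Submodule.span ℂ ((sub h) '' T) := by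
      rw [hF, Submodule.map_span]
      rfl
    have h4 : FiniteDimensional ℂ (F.map (sub h).toLinearMap) := inferInstance
    rw [h3] at hh h4
    obtain ⟨F', hF', -, hli⟩ := Submodule.exists_fun_fin_finrank_span_eq ℂ ((sub h) '' T)
    choose v hv hv' using hF'
    choose y' hy' hy'' using hv
    obtain ⟨x', hx'⟩ := exists_points_det _ hli
    rw [← hh]
    apply le_EE s
    refine ⟨mvS (mulg g h), mvS (ra (n - j) G), fun a => mv (mulg g h) (x' a),
      fun b => y' b ᵥ* (mG G).adjugate, finrank_mvS_le _, (finrank_mvS_le _).trans (by omega),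
      ?_, fun a => mem_mvS.mpr ⟨_, rfl⟩, ?_, ?_⟩
    · intro x hx y hy
      obtain ⟨x', rfl⟩ := mem_mvS.mp hx
      obtain ⟨y', rfl⟩ := mem_mvS.mp hy
      rw [mv_mulg]
      exact orth_fc_ra _ le_rfl G _ y'
    · intro b
      change y' b ᵥ* (mG G).adjugate ∈ _
      rw [vecMul_eq_mv (n - j) (by omega) G (y' b) (hy' b)]
      exact mem_mvS.mpr ⟨_, rfl⟩
    · convert hx' using 3
      funext a b
      rw [← hv' b, hy'' b, eval_sub, eval_sub, eval_sp, ← mv_mulg]
  have h3 : EE A i j ≤ rk F i := by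
    have hi : i ≤ n - j := by omega
    have h4 := li_sp (A := A) (show i ≤ n by omega) G x _ hx hdet
    refine le_trans ?_ (finrank_map_le_rk F (ioL hi))
    refine le_finrank_of_li _ h4 (fun b => ?_)
    refine ⟨_, Submodule.subset_span ⟨y b, hy b, rfl⟩, ?_⟩
    change sub (ioL hi) (sub g _) = _
    rw [← AlgHom.comp_apply, ← sub_mulg, mulg_ioL, hg, fc_fc]
  have h4 := h2 i
  have h5 := h2 (i + 1)
  have hF0 : F ≠ ⊥ := by
    intro h0
    rw [h0, finrank_bot] at h1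
    omega
  rcases Nat.eq_zero_or_pos i with rfl | hi
  · have h6 := rk_one hFD hF0
    have h7 := rk_zero hFD (by have := s.hD; omega)
    rw [zero_add] at h5 ⊢
    omega
  · have h6 := RSeq.strict (rseq F hFD hF0) hi (by omega) (by omega)
    omega

end Pool.Agent.Lib_helper97.Ebe
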