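import Pool.Agent.Lib_helper97.Ebe.E7

/-!
# Change of coordinates
-/

namespace Pool.Agent.Lib_helper97.Ebe

open MvPolynomial Module Matrix Pool.Agent.Lib_helper26.Ebe Pool.Agent.Lib_helper26.SOS

variable {n m D ρ : ℕ} {p : Fin m → MvPolynomial (Fin n) ℂ}
    {A : MvPolynomial (Fin n ⊕ Fin n) ℂ} {V : Submodule ℂ (MvPolynomial (Fin n) ℂ)}
    {f : Fin ρ → MvPolynomial (Fin n) ℂ} {ε : Fin ρ → ℝ}

/-- A matrix `T` with `b T` a multiple of the last unit vector. -/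
def tw {j : ℕ} (b : Fin (j + 1) → ℂ) : Matrix (Fin (j + 1)) (Fin (j + 1)) ℂ :=
  Matrix.of fun i l => if l = Fin.last j then (if i = Fin.last j then 1 else 0)
    else if i = l then b (Fin.last j) else if i = Fin.last j then - b l else 0

theorem vecMul_tw {j : ℕ} (b : Fin (j + 1) → ℂ) :
    b ᵥ* tw b = Pi.single (Fin.last j) (b (Fin.last j)) := by
  funext l
  rw [Matrix.vecMul, dotProduct]
  by_cases hl : l = Fin.last j
  · subst hl
    rw [Pi.single_eq_same, Finset.sum_eq_single (Fin.last j)]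
    · simp [tw]
    · intro i _ hi
      simp [tw, hi]
    · simp
  · rw [Pi.single_eq_of_ne hl, ← Finset.add_sum_erase _ _ (Finset.mem_univ l),
      Finset.sum_eq_single (Fin.last j)]
    · have e1 : tw b l l = b (Fin.last j) := by simp [tw, hl]
      have e2 : tw b (Fin.last j) l = - b l := by simp [tw, hl, Ne.symm hl]
      rw [e1, e2]
      ring
    · intro i hi hi'
      simp only [tw, Matrix.of_apply]
      rw [if_neg hl, if_neg (Finset.ne_of_mem_erase hi), if_neg hi', mul_zero]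
    · intro h
      exfalso
      apply h
      rw [Finset.mem_erase]
      exact ⟨Ne.symm hl, Finset.mem_univ _⟩

theorem isUnit_tw {j : ℕ} {b : Fin (j + 1) → ℂ} (hb : b (Fin.last j) ≠ 0) :
    IsUnit (tw b).det := by
  rw [isUnit_iff_ne_zero]
  intro h0
  obtain ⟨v, hv, hv'⟩ := Matrix.exists_mulVec_eq_zero_iff.mpr h0
  apply hv
  have h1 : ∀ i, i ≠ Fin.last j → v i = 0 := by
    intro i hi
    have h2 := congrFun hv' i
    rw [Matrix.mulVec, dotProduct, Pi.zero_apply, Finset.sum_eq_single i] at h2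
    · have e1 : tw b i i = b (Fin.last j) := by simp [tw, hi]
      rw [e1] at h2
      exact (mul_eq_zero.mp h2).resolve_left hb
    · intro l _ hl
      simp only [tw, Matrix.of_apply]
      by_cases hl' : l = Fin.last j
      · rw [if_pos hl', if_neg hi, zero_mul]
      · rw [if_neg hl', if_neg (Ne.symm hl), if_neg hi, zero_mul]
    · simp
  funext i
  by_cases hi : i = Fin.last j
  · subst hi
    have h2 := congrFun hv' (Fin.last j)
    rw [Matrix.mulVec, dotProduct, Pi.zero_apply, Finset.sum_eq_single (Fin.last j)] at h2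
    · have e1 : tw b (Fin.last j) (Fin.last j) = 1 := by simp [tw]
      rw [e1, one_mul] at h2
      exact h2
    · intro l _ hl
      rw [h1 l hl, mul_zero]
    · simp
  · exact h1 i hi

theorem sub_toG_lf {j : ℕ} (T : Matrix (Fin (j + 1)) (Fin (j + 1)) ℂ) (b : Fin (j + 1) → ℂ) :
    sub (toG T) (lf b) = lf (b ᵥ* T) := by
  rw [sub_lf]
  rfl

theorem sub_toG_b {j : ℕ} {T : Matrix (Fin (j + 1)) (Fin (j + 1)) ℂ} {b : Fin (j + 1) → ℂ}
    {c : ℂ} (hb : b ᵥ* T = Pi.single (Fin.last j) c) :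
    sub (toG T) (lf b) = C c * X (Fin.last j) := by
  rw [sub_toG_lf, hb, lf_single]

theorem sub_toG_inj {j : ℕ} {T : Matrix (Fin (j + 1)) (Fin (j + 1)) ℂ} (hT : IsUnit T.det)
    {u : MvPolynomial (Fin (j + 1)) ℂ} (h : sub (toG T) u = 0) : u = 0 := by
  rw [← subE_apply T hT] at h
  exact (map_eq_zero_iff _ (subE T hT).injective).mp h

theorem dvd_toG {j : ℕ} {T : Matrix (Fin (j + 1)) (Fin (j + 1)) ℂ} (hT : IsUnit T.det)
    {u v : MvPolynomial (Fin (j + 1)) ℂ} : sub (toG T) u ∣ sub (toG T) v ↔ u ∣ v := by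
  rw [← subE_apply T hT, ← subE_apply T hT]
  exact map_dvd_iff (subE T hT)

/-- The property of `N2`. -/
def N2P {j : ℕ} (W : Submodule ℂ (MvPolynomial (Fin j) ℂ)) (b : Fin j → ℂ) : Prop :=
  ∀ v ∈ W, lf b ^ 2 ∣ v → v = 0

theorem N2P.norm {j : ℕ} {T : Matrix (Fin (j + 1)) (Fin (j + 1)) ℂ} (hT : IsUnit T.det)
    {b : Fin (j + 1) → ℂ} {c : ℂ} (hc : c ≠ 0) (hb : b ᵥ* T = Pi.single (Fin.last j) c)
    {W : Submodule ℂ (MvPolynomial (Fin (j + 1)) ℂ)} (h : N2P W b) :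
    ∀ v ∈ W.map (sub (toG T)).toLinearMap, X (Fin.last j) ^ 2 ∣ v → v = 0 := by
  rintro _ ⟨v, hv, rfl⟩ hd
  rw [h v hv ?_, map_zero]
  rw [← dvd_toG hT, map_pow, sub_toG_b hb]
  have hu : IsUnit (C c : MvPolynomial (Fin (j + 1)) ℂ) :=
    IsUnit.map _ (isUnit_iff_ne_zero.mpr hc)
  rw [mul_pow]
  exact (hu.pow 2).mul_left_dvd.mpr hd

/-- The conclusion of the second order lemma. -/
def QYb {j : ℕ} (W : Submodule ℂ (MvPolynomial (Fin j) ℂ)) (b : Fin j → ℂ) : Prop :=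
  ∃ φ : MvPolynomial (Fin j) ℂ, ¬ lf b ∣ φ ∧ (∀ a, ∃ u ∈ U W b, lf b ∣ u - lf a * φ) ∧
    (∀ a c, ∃ v ∈ W, lf b ∣ v - lf a * lf c * φ) ∧ ∃ y ∈ U W b, y ≠ 0 ∧ lf b ∣ y

theorem QYb.norm {j : ℕ} {T : Matrix (Fin (j + 1)) (Fin (j + 1)) ℂ} (hT : IsUnit T.det)
    {b : Fin (j + 1) → ℂ} {c : ℂ} (hc : c ≠ 0) (hb : b ᵥ* T = Pi.single (Fin.last j) c)
    {W : Submodule ℂ (MvPolynomial (Fin (j + 1)) ℂ)} (h : QYb W b) :
    QY (W.map (sub (toG T)).toLinearMap) := by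
  obtain ⟨φ, h1, h2, -, y, hy, hy0, hyd⟩ := h
  have hu : IsUnit (C c : MvPolynomial (Fin (j + 1)) ℂ) :=
    IsUnit.map _ (isUnit_iff_ne_zero.mpr hc)
  have hdv : ∀ v : MvPolynomial (Fin (j + 1)) ℂ, sub (ioL (Nat.le_succ j)) (sub (toG T) v) = 0 ↔
      lf b ∣ v := by
    intro v
    rw [← X_dvd_iff_sub, ← dvd_toG hT (u := lf b), sub_toG_b hb]
    exact hu.mul_left_dvd.symm
  have hU : ∀ u ∈ U W b, sub (toG T) u ∈ Ul (W.map (sub (toG T)).toLinearMap) := by
    intro u hu'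
    rw [mem_Ul]
    have h3 : sub (toG T) (lf b * u) ∈ W.map (sub (toG T)).toLinearMap := ⟨_, hu', rfl⟩
    rw [map_mul, sub_toG_b hb, mul_assoc, ← smul_eq_C_mul] at h3
    have h4 := Submodule.smul_mem _ c⁻¹ h3
    rwa [smul_smul, inv_mul_cancel₀ hc, one_smul] at h4
  refine ⟨sub (toG T) φ, ?_, ?_, sub (toG T) y, hU y hy, ?_, ?_⟩
  · intro h0
    exact h1 ((hdv φ).mp h0)
  · intro l
    obtain ⟨u, hu', hud⟩ := h2 (Pi.single l 1 ᵥ* T⁻¹)
    refine ⟨_, hU u hu', ?_⟩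
    have h5 : X l * sub (toG T) φ = sub (toG T) (lf (Pi.single l 1 ᵥ* T⁻¹) * φ) := by
      rw [map_mul, sub_toG_lf, Matrix.vecMul_vecMul, Matrix.nonsing_inv_mul _ hT,
        Matrix.vecMul_one, lf_single, C_1, one_mul]
    rw [h5, ← map_sub, hdv]
    exact hud
  · intro h0
    exact hy0 (sub_toG_inj hT h0)
  · rw [hdv]
    exact hyd

/-- Change of the first columns. -/
def tG {j : ℕ} (hj : j + 1 ≤ n) (G : Fin n × Fin n → ℂ) (b : Fin (j + 1) → ℂ) :
    Fin n × Fin n → ℂ :=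
  fun x => if h : (x.2 : ℕ) < j + 1 then ∑ l, G (x.1, Fin.castLE hj l) * tw b l ⟨x.2, h⟩ else G x

theorem fc_tG {j : ℕ} (hj : j + 1 ≤ n) (G : Fin n × Fin n → ℂ) (b : Fin (j + 1) → ℂ) :
    fc hj (tG hj G b) = mulg (fc hj G) (toG (tw b)) := by
  funext x
  exact dif_pos (show ((Fin.castLE hj x.2 : Fin n) : ℕ) < j + 1 from x.2.2)

/-- The entries of `tw` as polynomials. -/
noncomputable def twP {τ : Type*} {j : ℕ} (X' : Fin (j + 1) → MvPolynomial τ ℂ) (l k : Fin (j + 1)) :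
    MvPolynomial τ ℂ :=
  if k = Fin.last j then (if l = Fin.last j then 1 else 0)
    else if l = k then X' (Fin.last j) else if l = Fin.last j then - X' k else 0

theorem eval_twP {τ : Type*} {j : ℕ} (X' : Fin (j + 1) → MvPolynomial τ ℂ) (l k : Fin (j + 1))
    (t : τ → ℂ) : eval t (twP X' l k) = tw (fun i => eval t (X' i)) l k := by
  unfold twP tw
  rw [Matrix.of_apply]
  split_ifs <;> simp

theorem tw_single {j : ℕ} : tw (Pi.single (Fin.last j) 1 : Fin (j + 1) → ℂ) = 1 := by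
  ext l k
  unfold tw
  rw [Matrix.of_apply, Matrix.one_apply]
  by_cases hk : k = Fin.last j
  · rw [if_pos hk]
    by_cases hl : l = Fin.last j
    · rw [if_pos hl, if_pos (hl.trans hk.symm)]
    · rw [if_neg hl, if_neg (fun h => hl (h.trans hk))]
  · rw [if_neg hk]
    by_cases hl : l = k
    · rw [if_pos hl, if_pos hl, Pi.single_eq_same]
    · rw [if_neg hl, if_neg hl, Pi.single_eq_of_ne hk, neg_zero, ite_self]

theorem Gen.tw {j : ℕ} (hj : j + 1 ≤ n) {P : (Fin n × Fin n → ℂ) → Prop} (h : Gen P) :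
    Gen (fun x : (Fin n × Fin n) ⊕ Fin (j + 1) → ℂ => P (tG hj (x ∘ Sum.inl) (x ∘ Sum.inr))) := by
  classical
  let F : Fin n × Fin n → MvPolynomial ((Fin n × Fin n) ⊕ Fin (j + 1)) ℂ := fun x =>
    if h : (x.2 : ℕ) < j + 1 then ∑ l, X (Sum.inl (x.1, Fin.castLE hj l)) *
      twP (fun i => X (Sum.inr i)) l ⟨x.2, h⟩ else X (Sum.inl x)
  have hF : ∀ t : (Fin n × Fin n) ⊕ Fin (j + 1) → ℂ, (fun x => eval t (F x)) =
      tG hj (t ∘ Sum.inl) (t ∘ Sum.inr) := by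
    intro t
    funext x
    by_cases h : (x.2 : ℕ) < j + 1
    · have e1 : F x = ∑ l, X (Sum.inl (x.1, Fin.castLE hj l)) *
        twP (fun i => X (Sum.inr i)) l ⟨x.2, h⟩ := dif_pos h
      have e2 : tG hj (t ∘ Sum.inl) (t ∘ Sum.inr) x = ∑ l, (t ∘ Sum.inl) (x.1, Fin.castLE hj l) *
        Ebe.tw (t ∘ Sum.inr) l ⟨x.2, h⟩ := dif_pos h
      rw [e1, e2, map_sum]
      refine Finset.sum_congr rfl fun l _ => ?_
      rw [map_mul, eval_X, eval_twP]
      simp only [eval_X]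
      rfl
    · have e1 : F x = X (Sum.inl x) := dif_neg h
      have e2 : tG hj (t ∘ Sum.inl) (t ∘ Sum.inr) x = (t ∘ Sum.inl) x := dif_neg h
      rw [e1, e2, eval_X]
      rfl
  refine (h.pull F (fun G => ?_)).mono fun x hx => ?_
  · refine ⟨Sum.elim G (Pi.single (Fin.last j) 1), ?_⟩
    intro y
    have h1 := congrFun (hF (Sum.elim G (Pi.single (Fin.last j) 1))) y
    refine h1.trans ?_
    rw [Sum.elim_comp_inl, Sum.elim_comp_inr]
    by_cases h : (y.2 : ℕ) < j + 1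
    · have e2 : tG hj G (Pi.single (Fin.last j) 1) y = ∑ l, G (y.1, Fin.castLE hj l) *
        Ebe.tw (Pi.single (Fin.last j) 1) l ⟨y.2, h⟩ := dif_pos h
      rw [e2, tw_single, Finset.sum_eq_single (⟨y.2, h⟩ : Fin (j + 1))]
      · rw [Matrix.one_apply_eq, mul_one]
        rfl
      · intro l _ hl
        rw [Matrix.one_apply_ne hl, mul_zero]
      · simp
    · exact dif_neg h
  · rw [hF] at hx
    exact hx

end Pool.Agent.Lib_helper97.Ebe
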