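import Pool.Agent.Lib_helper50.Ebe.WGN
import Pool.Agent.Lib_helper50.Ebe.WY
import Pool.Agent.Lib_helper26.Ebe.wP
import Pool.Agent.Lib_helper21.Ebe.wN

/-!
# The indefinite case: the cited blocks
-/

namespace Pool.Agent.Lib_helper97.Ebe

alias wGN := wGN_pr

alias wY := wY_pr

alias wP0eq := wP0eq_pr

alias wP0 := wP0_pr

alias wP1 := wP1_pr

alias wP2 := wP2_pr

alias wN1 := wN1_pr

alias wN2 := wN2_pr

alias wN3 := wN3_pr

end Pool.Agent.Lib_helper97.Ebe
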