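import Pool.Agent.Lib_helper97.Ebe.E8
import Pool.Agent.Lib_helper97.Ebe.XOK

/-!
# The sequences
-/

namespace Pool.Agent.Lib_helper97.Ebe

open MvPolynomial Module Matrix Pool.Agent.Lib_helper26.Ebe Pool.Agent.Lib_helper26.SOS

variable {n m D ρ : ℕ} {p : Fin m → MvPolynomial (Fin n) ℂ}
    {A : MvPolynomial (Fin n ⊕ Fin n) ℂ} {V : Submodule ℂ (MvPolynomial (Fin n) ℂ)}
    {f : Fin ρ → MvPolynomial (Fin n) ℂ} {ε : Fin ρ → ℝ}

theorem gen_last {j : ℕ} : Gen (fun b : Fin (j + 1) → ℂ => b (Fin.last j) ≠ 0) :=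
  ⟨X (Fin.last j), X_ne_zero _, fun x hx => by rwa [eval_X] at hx⟩

theorem N2_norm {j : ℕ} (h : N2 V (j + 1)) :
    Gen (fun g : Fin n × Fin (j + 1) → ℂ =>
      ∀ v ∈ V.map (sub g).toLinearMap, X (Fin.last j) ^ 2 ∣ v → v = 0) := by
  obtain ⟨b, hb, hb0⟩ := (Gen.pair' (P := fun x : (Fin n × Fin (j + 1)) ⊕ Fin (j + 1) → ℂ =>
    N2P (V.map (sub (x ∘ Sum.inl)).toLinearMap) (x ∘ Sum.inr)) h |>.and gen_last).exists
  have hT := isUnit_tw hb0
  have key : ∀ g : Fin n × Fin (j + 1) → ℂ,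
      mulg (mulg g (toG (tw b)⁻¹)) (toG (tw b)) = g := by
    intro g
    rw [mulg_assoc, mulg_toG, Matrix.nonsing_inv_mul _ hT, mulg_one]
  have key' : ∀ g : Fin n × Fin (j + 1) → ℂ,
      mulg (mulg g (toG (tw b))) (toG (tw b)⁻¹) = g := by
    intro g
    rw [mulg_assoc, mulg_toG, Matrix.mul_nonsing_inv _ hT, mulg_one]
  refine (hb.pull (fun y => ∑ l, X (y.1, l) * C ((tw b)⁻¹ l y.2)) (fun g => ?_)).mono
    fun g hg => ?_
  · refine ⟨mulg g (toG (tw b)), fun y => ?_⟩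
    rw [map_sum]
    simp only [map_mul, eval_X, eval_C]
    exact congrFun (key' g) y
  · have h1 : (fun y : Fin n × Fin (j + 1) => eval g (∑ l, X (y.1, l) * C ((tw b)⁻¹ l y.2))) =
        mulg g (toG (tw b)⁻¹) := by
      funext y
      rw [map_sum]
      simp only [map_mul, eval_X, eval_C]
      rfl
    rw [h1] at hg
    have h2 := N2P.norm hT hb0 (vecMul_tw b) (W := V.map (sub (mulg g (toG (tw b)⁻¹))).toLinearMap)
      hg
    rw [← map_sub_mulg, key] at h2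
    exact h2

theorem gen_QYb [FiniteDimensional ℂ V] {j : ℕ} (hj : 2 ≤ j + 1) (h : ¬ N2 V (j + 1)) :
    Gen (fun g : Fin n × Fin (j + 1) → ℂ => Gen (fun b => QYb (V.map (sub g).toLinearMap) b)) := by
  refine (wGN V (by omega) h).pair.mono fun g hg => ?_
  apply wY hj
  intro hc
  obtain ⟨b, ⟨v, hv, hv0, hvd⟩, hb⟩ := (hg.and hc).exists
  exact hv0 (hb v hv hvd)

theorem K3 (s : Setting n m D ρ p A V f ε) {j r i : ℕ} (hj : j + 1 ≤ n) (hi : i ≤ j)
    (h : Wit A i (n - j) r)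
    (hY : Gen (fun g : Fin n × Fin (j + 1) → ℂ =>
      Gen (fun b => QYb (V.map (sub g).toLinearMap) b))) :
    rk V j + (j + 1) + r ≤ rk V (j + 1) + i := by
  have := s.fd
  obtain ⟨G, h1, h2⟩ := ((Gen.tw hj (((gen_wit (i' := j) (by omega) (by omega) (by omega) h).and
      (Gen.fc hj (gen_rk V (j + 1)))).and
      (Gen.fc (show j ≤ n by omega) (gen_rk V j)))).pair.and (Gen.fc hj hY)).exists
  obtain ⟨b, ⟨h3, h4⟩, hb⟩ := ((h1.and h2).and gen_last).exists
  rw [Sum.elim_comp_inl, Sum.elim_comp_inr] at h3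
  obtain ⟨⟨⟨hG, x, y, hx, hy, hy', hdet⟩, h5⟩, h6⟩ := h3
  refine K3core s hj hi (tG hj G b) hG x y hx hy hy' hdet h5 h6 ?_
  rw [fc_tG, map_sub_mulg]
  exact h4.norm (isUnit_tw hb) hb (vecMul_tw b)

theorem gen_sub_ne_zero {j : ℕ} (hj : 1 ≤ j) {v : MvPolynomial (Fin n) ℂ} (hv : v ≠ 0) :
    Gen (fun h : Fin n × Fin j → ℂ => sub h v ≠ 0) := by
  refine ⟨rename (fun i => (i, ⟨0, hj⟩)) v, ?_, fun h hh h0 => hh ?_⟩
  · intro hc
    apply hv
    apply rename_injective (fun i : Fin n => (i, (⟨0, hj⟩ : Fin j)))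
      (fun i j h => (Prod.ext_iff.mp h).1)
    rw [hc, map_zero]
  · have h1 := congrArg (eval (Pi.single (⟨0, hj⟩ : Fin j) 1)) h0
    rw [eval_sub, map_zero, mv_single] at h1
    rw [eval_rename]
    exact h1

theorem N2.succ [FiniteDimensional ℂ V] {j : ℕ} (hj : 1 ≤ j) (h : N2 V j) : N2 V (j + 1) := by
  by_contra hc
  have h1 := wGN V (j := j + 1) (by omega) hc
  let F : (Fin n × Fin j) ⊕ Fin j →
      MvPolynomial (((Fin n × Fin (j + 1)) ⊕ Fin (j + 1)) ⊕ (Fin (j + 1) × Fin j)) ℂ :=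
    Sum.elim (fun y => ∑ l, X (Sum.inl (Sum.inl (y.1, l))) * X (Sum.inr (l, y.2)))
      (fun l => ∑ k, X (Sum.inl (Sum.inr k)) * X (Sum.inr (k, l)))
  have hF : ∀ t, (fun i => eval t (F i)) = Sum.elim
      (mulg ((t ∘ Sum.inl) ∘ Sum.inl) (t ∘ Sum.inr))
      (fun l => ∑ k, t (Sum.inl (Sum.inr k)) * t (Sum.inr (k, l))) := by
    intro t
    funext i
    rcases i with i | i
    · simp only [F, Sum.elim_inl, map_sum, map_mul, eval_X]
      rfl
    · simp only [F, Sum.elim_inr, map_sum, map_mul, eval_X]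
  have h2 := Gen.pull h F (fun x => by
    let g : Fin n × Fin (j + 1) → ℂ := fun y =>
      if hy : (y.2 : ℕ) < j then x (Sum.inl (y.1, ⟨y.2, hy⟩)) else 0
    let b : Fin (j + 1) → ℂ := fun l => if hl : (l : ℕ) < j then x (Sum.inr ⟨l, hl⟩) else 0
    refine ⟨Sum.elim (Sum.elim g b) (ioL (Nat.le_succ j)), fun i => ?_⟩
    have h3 := congrFun (hF (Sum.elim (Sum.elim g b) (ioL (Nat.le_succ j)))) i
    refine h3.trans ?_
    rcases i with i | i
    · rw [Sum.elim_inl]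
      simp only [Sum.elim_comp_inl, Sum.elim_comp_inr]
      rw [mulg_ioL]
      exact dif_pos i.2.2
    · rw [Sum.elim_inr]
      simp only [Sum.elim_inl, Sum.elim_inr]
      rw [Finset.sum_eq_single (Fin.castLE (Nat.le_succ j) i)]
      · rw [ioL, if_pos rfl, mul_one]
        exact dif_pos i.2
      · intro k _ hk
        rw [ioL, if_neg hk, mul_zero]
      · simp)
  obtain ⟨x, ⟨v, hv, hv0, hvd⟩, hx⟩ := (h1.and h2.pair).exists
  obtain ⟨t, ht, ht0⟩ := (hx.and (gen_sub_ne_zero hj hv0)).exists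
  rw [hF] at ht
  simp only [Sum.elim_comp_inl, Sum.elim_comp_inr, Sum.elim_inl, Sum.elim_inr] at ht
  apply ht0
  apply ht
  · rw [map_sub_mulg]
    exact ⟨v, hv, rfl⟩
  · have h3 := map_dvd (sub t) hvd
    rw [map_pow, sub_lf] at h3
    exact h3

theorem N2.mono [FiniteDimensional ℂ V] {i j : ℕ} (hi : 1 ≤ i) (hij : i ≤ j) (h : N2 V i) :
    N2 V j := by
  induction j, hij using Nat.le_induction with
  | base => exact h
  | succ j hij ih => exact ih.succ (by omega)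

theorem not_N2_one (s : Setting n m D ρ p A V f ε) : ¬ N2 V 1 := by
  intro h
  have := s.fd
  obtain ⟨g, hg, hg1⟩ := (Gen.pair (P := fun x : (Fin n × Fin 1) ⊕ Fin 1 → ℂ =>
    N2P (V.map (sub (x ∘ Sum.inl)).toLinearMap) (x ∘ Sum.inr)) h |>.and (gen_rk V 1)).exists
  obtain ⟨b, hb, hb0⟩ := (hg.and (gen_last (j := 0))).exists
  rw [rk_one s.hVD s.V_ne_bot] at hg1
  have h1 : V.map (sub g).toLinearMap ≠ ⊥ := by
    intro h0
    rw [h0, finrank_bot] at hg1
    omega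
  obtain ⟨v, hv, hv0⟩ := Submodule.exists_mem_ne_zero_of_ne_bot h1
  apply hv0
  apply hb v hv
  rw [Sum.elim_comp_inr]
  obtain ⟨u, hu, rfl⟩ := hv
  have h2 : (sub g u).IsHomogeneous D := isHomogeneous_sub g (s.hVD hu)
  have h3 : sub g u = C (coeff (Finsupp.single 0 D) (sub g u)) * X 0 ^ D := by
    ext σ
    rw [coeff_C_mul, X_pow_eq_monomial, coeff_monomial]
    have hσ : σ = Finsupp.single 0 (σ 0) := by
      apply Finsupp.ext
      intro i
      rw [Subsingleton.elim i 0, Finsupp.single_eq_same]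
    by_cases hσ0 : σ 0 = D
    · rw [hσ, hσ0, if_pos rfl, mul_one]
    · rw [if_neg, mul_zero]
      · apply h2.coeff_eq_zero
        rw [hσ, Finsupp.degree_single]
        exact hσ0
      · intro he
        apply hσ0
        rw [← he, Finsupp.single_eq_same]
  change lf b ^ 2 ∣ sub g u
  rw [h3]
  have h4 : lf b = C (b 0) * X 0 := by
    unfold lf
    rw [Fin.sum_univ_one]
  have hu0 : IsUnit (C (b 0) : MvPolynomial (Fin 1) ℂ) :=
    IsUnit.map _ (isUnit_iff_ne_zero.mpr hb0)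
  rw [h4, mul_pow, (hu0.pow 2).mul_left_dvd]
  exact (pow_dvd_pow _ (by have := s.hD; omega)).mul_left _

theorem X_part (s : Setting n m D ρ p A V f ε) {i : ℕ} (hi : i < n)
    (h : Wit A i (n - i) (rk (Yf f) i)) :
    Gen (fun g : Fin n × Fin i → ℂ => ∀ y ∈ Yf f,
        sub g y ∈ Submodule.span ℂ {v | ∃ w : Fin n → ℂ,
          (∀ x, ∑ k, mv g x k * w k = 0) ∧ v = sub g (sp w A)}) := by
  have := finiteDimensional_Yf (f := f)
  obtain ⟨e, rfl⟩ : ∃ e, n = i + e := ⟨n - i, by omega⟩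
  refine ((Gen.jn (p := i) (e := e) (gen_wit (i' := i) (by omega) (by omega) hi h)).pair.and
    (gen_rk (Yf f) i)).mono fun a ha => ?_
  obtain ⟨h1, h2⟩ := ha
  obtain ⟨b, hG, x, y, hx, hy, -, hdet⟩ := h1.exists
  set G := jn (Sum.elim a b) with hGdef
  have hfc : fc (Nat.le_add_right i e) G = a := fc_jn a b
  have h3 := li_sp (A := A) (Nat.le_add_right i e) G x _ hx hdet
  rw [hfc] at h3
  have h4 : Submodule.span ℂ (Set.range fun b => sub a (sp (y b ᵥ* (mG G).adjugate) A)) =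
      (Yf f).map (sub a).toLinearMap := by
    apply Submodule.eq_of_le_of_finrank_eq
    · rw [Submodule.span_le]
      rintro _ ⟨b, rfl⟩
      refine ⟨_, ?_, rfl⟩
      rw [s.hAe]
      exact dg_mem f ε _
    · rw [finrank_span_eq_card h3, Fintype.card_fin, h2]
  intro v hv
  have h5 : sub a v ∈ (Yf f).map (sub a).toLinearMap := ⟨v, hv, rfl⟩
  rw [← h4] at h5
  refine Submodule.span_mono ?_ h5
  rintro _ ⟨b, rfl⟩
  refine ⟨_, ?_, rfl⟩
  intro z
  rw [vecMul_eq_mv i (by omega) G (y b) (hy b), ← hfc]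
  exact orth_fc_ra _ le_rfl G z _

theorem wE_pr (s : Setting n m D ρ p A V f ε) (hn : 2 ≤ n) :
    ∃ t E, ESeq n (rk V) (rk (Yf f)) t E ∧ (∀ j, 2 ≤ j → j ≤ t → ¬ N2 V j) ∧
      (∀ i, 1 ≤ i → i + t ≤ n → Gen (fun g : Fin n × Fin i → ℂ => ∀ y ∈ Yf f,
        sub g y ∈ Submodule.span ℂ {v | ∃ w : Fin n → ℂ,
          (∀ x, ∑ k, mv g x k * w k = 0) ∧ v = sub g (sp w A)})) := by
  classical
  have := s.fd
  obtain ⟨t, ht⟩ : ∃ t, t = Nat.findGreatest (fun j => ¬ N2 V j) n := ⟨_, rfl⟩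
  have htn : t ≤ n := ht ▸ Nat.findGreatest_le n
  have h1 := not_N2_one s
  have ht1 : 1 ≤ t := ht ▸ Nat.le_findGreatest (by omega) h1
  have hN2 : ∀ j, t < j → j ≤ n → N2 V j := by
    intro j hj hjn
    have := Nat.findGreatest_is_greatest (P := fun j => ¬ N2 V j) (ht ▸ hj) hjn
    simpa using this
  have htN : ¬ N2 V t := Nat.findGreatest_of_ne_zero (P := fun j => ¬ N2 V j) ht.symm (by omega)
  have hnN2 : ∀ j, 1 ≤ j → j ≤ t → ¬ N2 V j := fun j hj hjt hc => htN (hc.mono hj hjt)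
  have hX : ∀ j, t ≤ j → j + 1 ≤ n → Wit A j (n - j) (rk (Yf f) (n - j)) := by
    intro j hj hjn
    exact lemX s hjn (N2_norm (hN2 (j + 1) (by omega) hjn))
  have hX' : ∀ i, 1 ≤ i → i + t ≤ n → Wit A i (n - i) (rk (Yf f) i) := by
    intro i hi hit
    have h2 := hX (n - i) (by omega) (by omega)
    rw [show n - (n - i) = i by omega, s.hAe] at h2
    have h3 := h2.symm
    rwa [← s.hAe] at h3
  refine ⟨t, EE A, ⟨htn, ht1, fun i j _ => EE_symm s i j, ?_, fun i j _ => EE_mono s le_rfl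
    (Nat.le_succ j), ?_, ?_, ?_, ?_⟩, fun j hj hjt => hnN2 j (by omega) hjt, ?_⟩
  · intro i j hij hlt
    rw [EE_symm s i j, EE_symm s i (n - i)] at hlt
    rw [EE_symm s i j, EE_symm s i (j + 1)]
    exact EE_grow s (by omega) hlt
  · intro i hi hit
    apply le_antisymm
    · exact Wit.le_rk s (wit_EE s i (n - i))
    · exact le_EE s (hX' i hi hit)
  · intro i hti hin
    obtain ⟨j, rfl⟩ : ∃ j, i = j + 1 := ⟨i - 1, by omega⟩
    rw [Nat.add_sub_cancel, show n - (j + 1) + 1 = n - j by omega]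
    exact K12 s hin (Nat.le_succ j) (by omega) (by omega) (hX j (by omega) hin)
  · intro j hj hjt
    obtain ⟨j, rfl⟩ : ∃ k, j = k + 1 := ⟨j - 1, by omega⟩
    rw [Nat.add_sub_cancel]
    exact K12 s (by omega) le_rfl (by omega) (by omega) (hX' (j + 1) hj hjt)
  · intro j i hj hjt hij
    obtain ⟨j, rfl⟩ : ∃ k, j = k + 1 := ⟨j - 1, by omega⟩
    rw [Nat.add_sub_cancel, show n - (j + 1) + 1 = n - j by omega]
    exact K3 s (by omega) (by omega) (wit_EE s i (n - j)) (gen_QYb hj (hnN2 (j + 1) (by omega) hjt))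
  · intro i hi hit
    exact X_part s (by omega) (hX' i hi hit)

end Pool.Agent.Lib_helper97.Ebe
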