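import Pool.Agent.Lib_helper52.Ebe.Real

/-!
# A sum of nineteen squares in six variables with an indefinite quotient
-/

namespace Pool.Agent.Lib_helper97.Ebe

open MvPolynomial Module Pool.Agent.Lib_helper26.Ebe Pool.Agent.Lib_helper26.SOS

/-- Sums of squares with positive weights. -/
theorem mem_S_weighted {n d : ℕ} {ι : Type*} [Fintype ι] (g : ι → MvPolynomial (Fin n) ℂ)
    (hg : LinearIndependent ℂ g) (w : ι → ℝ) (hw : ∀ i, 0 < w i)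
    (A : MvPolynomial (Fin n ⊕ Fin n) ℂ)
    (h : ∑ i, C (w i : ℂ) * (rename Sum.inl (g i) * rename Sum.inr (cj (g i))) = q n ^ d * A) :
    Fintype.card ι ∈ S d n := by
  have hs : ∀ i, ((Real.sqrt (w i) : ℝ) : ℂ) ≠ 0 := fun i => by
    rw [Ne, Complex.ofReal_eq_zero]
    exact (Real.sqrt_pos.mpr (hw i)).ne'
  have h2 := hg.units_smul (fun i => Units.mk0 _ (hs i))
  refine mem_S_of (fun i => ((Real.sqrt (w i) : ℝ) : ℂ) • g i) h2 A (fun z => ?_)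
  rw [← eval_q_conj, ← map_pow, ← map_mul, ← h, map_sum, Complex.ofReal_sum]
  refine Finset.sum_congr rfl fun i _ => ?_
  rw [map_mul, map_mul, eval_C, eval_rename_inl, eval_rename_inr, eval_cj, Complex.mul_conj,
    smul_eval, norm_mul, mul_pow, Complex.norm_real, Real.norm_eq_abs, sq_abs,
    Real.sq_sqrt (hw i).le, Complex.normSq_eq_norm_sq]
  push_cast
  ring

/-- The nineteen polynomials. -/
noncomputable def g19 : Fin 19 → MvPolynomial (Fin 6) ℂ := ![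
  4 * X 0 ^ 3 + X 0 * X 1 ^ 2,
  X 1 ^ 3 + 2 * X 0 ^ 2 * X 1,
  X 0 ^ 2 * X 1,
  4 * X 0 ^ 2 * X 2 + X 1 ^ 2 * X 2,
  4 * X 0 ^ 2 * X 4 + X 1 ^ 2 * X 4,
  4 * X 1 ^ 2 * X 2 - 3 * X 0 * X 1 * X 3,
  4 * X 1 ^ 2 * X 4 - 3 * X 0 * X 1 * X 5,
  X 1 ^ 2 * X 3 + 2 * X 0 ^ 2 * X 3,
  X 1 ^ 2 * X 5 + 2 * X 0 ^ 2 * X 5,
  6 * X 0 ^ 2 * X 3 - X 0 * X 1 * X 2,
  6 * X 0 ^ 2 * X 5 - X 0 * X 1 * X 4,
  X 2 * (4 * X 0 * X 3 - 3 * X 1 * X 2),
  X 2 * (4 * X 0 * X 5 - 3 * X 1 * X 4),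
  X 4 * (4 * X 0 * X 3 - 3 * X 1 * X 2),
  X 4 * (4 * X 0 * X 5 - 3 * X 1 * X 4),
  X 3 * (4 * X 0 * X 3 - 3 * X 1 * X 2),
  X 3 * (4 * X 0 * X 5 - 3 * X 1 * X 4),
  X 5 * (4 * X 0 * X 3 - 3 * X 1 * X 2),
  X 5 * (4 * X 0 * X 5 - 3 * X 1 * X 4)]

/-- The weights. -/
noncomputable def w19 : Fin 19 → ℝ := ![
  7, 14, 49, 7, 7, 1, 1, 14, 14, 2, 2, 1, 1, 1, 1, 1, 1, 1, 1]

theorem w19_pos (i : Fin 19) : 0 < w19 i := by
  fin_cases i <;> norm_num [w19]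

theorem g19_linearIndependent : LinearIndependent ℂ g19 := by
  rw [Fintype.linearIndependent_iff]
  intro e he
  have key : ∀ x y a b c d : ℂ,
    e 0 * (4 * x ^ 3 + x * y ^ 2) +
    e 1 * (y ^ 3 + 2 * x ^ 2 * y) +
    e 2 * (x ^ 2 * y) +
    e 3 * (4 * x ^ 2 * a + y ^ 2 * a) +
    e 4 * (4 * x ^ 2 * c + y ^ 2 * c) +
    e 5 * (4 * y ^ 2 * a - 3 * x * y * b) +
    e 6 * (4 * y ^ 2 * c - 3 * x * y * d) +
    e 7 * (y ^ 2 * b + 2 * x ^ 2 * b) +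
    e 8 * (y ^ 2 * d + 2 * x ^ 2 * d) +
    e 9 * (6 * x ^ 2 * b - x * y * a) +
    e 10 * (6 * x ^ 2 * d - x * y * c) +
    e 11 * (a * (4 * x * b - 3 * y * a)) +
    e 12 * (a * (4 * x * d - 3 * y * c)) +
    e 13 * (c * (4 * x * b - 3 * y * a)) +
    e 14 * (c * (4 * x * d - 3 * y * c)) +
    e 15 * (b * (4 * x * b - 3 * y * a)) +
    e 16 * (b * (4 * x * d - 3 * y * c)) +
    e 17 * (d * (4 * x * b - 3 * y * a)) +
    e 18 * (d * (4 * x * d - 3 * y * c)) = 0 := by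
    intro x y a b c d
    have h1 := congrArg (eval ![x, y, a, b, c, d]) he
    simp only [Fin.sum_univ_succ, Fin.sum_univ_zero, map_add, map_zero, smul_eval, g19] at h1
    simp at h1
    linear_combination h1
  intro i
  fin_cases i
  · change e 0 = 0
    linear_combination (1/4) * key 1 0 0 0 0 0
  · change e 1 = 0
    linear_combination (1) * key 0 1 0 0 0 0
  · change e 2 = 0
    linear_combination (-5/4) * key 1 0 0 0 0 0 + (-3) * key 0 1 0 0 0 0 + (1) * key 1 1 0 0 0 0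
  · change e 3 = 0
    linear_combination (-1/4) * key 1 0 0 0 0 0 + (1/4) * key 1 0 1 0 0 0
  · change e 4 = 0
    linear_combination (-1/4) * key 1 0 0 0 0 0 + (1/4) * key 1 0 0 0 1 0
  · change e 5 = 0
    linear_combination (1/16) * key 1 0 0 0 0 0 + (-1/16) * key 1 0 1 0 0 0 + (1/8) * key 0 1 1 0 0 0 + (-1/8) * key 0 1 (-1) 0 0 0
  · change e 6 = 0
    linear_combination (1/16) * key 1 0 0 0 0 0 + (-1/16) * key 1 0 0 0 1 0 + (1/8) * key 0 1 0 0 1 0 + (-1/8) * key 0 1 0 0 (-1) 0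
  · change e 7 = 0
    linear_combination (-1) * key 0 1 0 0 0 0 + (1) * key 0 1 0 1 0 0
  · change e 8 = 0
    linear_combination (-1) * key 0 1 0 0 0 0 + (1) * key 0 1 0 0 0 1
  · change e 9 = 0
    linear_combination (1/3) * key 0 1 0 0 0 0 + (1/12) * key 1 0 0 1 0 0 + (-1/3) * key 0 1 0 1 0 0 + (-1/12) * key 1 0 0 (-1) 0 0
  · change e 10 = 0
    linear_combination (1/3) * key 0 1 0 0 0 0 + (1/12) * key 1 0 0 0 0 1 + (-1/3) * key 0 1 0 0 0 1 + (-1/12) * key 1 0 0 0 0 (-1)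
  · change e 11 = 0
    linear_combination (1/3) * key 0 1 0 0 0 0 + (-1/6) * key 0 1 1 0 0 0 + (-1/6) * key 0 1 (-1) 0 0 0
  · change e 12 = 0
    linear_combination (1/4) * key 1 0 0 0 0 0 + (-1/4) * key 1 0 1 0 0 0 + (-1/4) * key 1 0 0 0 0 1 + (1/4) * key 1 0 1 0 0 1
  · change e 13 = 0
    linear_combination (1/4) * key 1 0 0 0 0 0 + (-1/4) * key 1 0 0 1 0 0 + (-1/4) * key 1 0 0 0 1 0 + (1/4) * key 1 0 0 1 1 0
  · change e 14 = 0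
    linear_combination (1/3) * key 0 1 0 0 0 0 + (-1/6) * key 0 1 0 0 1 0 + (-1/6) * key 0 1 0 0 (-1) 0
  · change e 15 = 0
    linear_combination (-1/4) * key 1 0 0 0 0 0 + (1/8) * key 1 0 0 1 0 0 + (1/8) * key 1 0 0 (-1) 0 0
  · change e 16 = 0
    linear_combination (1/4) * key 1 0 0 0 0 0 + (1/3) * key 0 1 0 0 0 0 + (-1/4) * key 1 0 0 1 0 0 + (-1/4) * key 1 0 0 0 0 1 + (-1/3) * key 0 1 1 0 0 0 + (-1/3) * key 0 1 0 0 0 1 + (1/4) * key 1 0 0 1 0 1 + (1/3) * key 0 1 1 0 0 1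
  · change e 17 = 0
    linear_combination (-1/3) * key 0 1 0 0 0 0 + (1/3) * key 0 1 1 0 0 0 + (1/3) * key 0 1 0 0 0 1 + (-1/3) * key 0 1 1 0 0 1
  · change e 18 = 0
    linear_combination (-1/4) * key 1 0 0 0 0 0 + (1/8) * key 1 0 0 0 0 1 + (1/8) * key 1 0 0 0 0 (-1)

/-- The indefinite quotient. -/
noncomputable def A19 : MvPolynomial (Fin 6 ⊕ Fin 6) ℂ :=
  112 * (X (Sum.inl 0) ^ 2 * X (Sum.inr 0) ^ 2) + 14 * (X (Sum.inl 1) ^ 2 * X (Sum.inr 1) ^ 2) -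
    7 * (X (Sum.inl 0) * X (Sum.inl 1) * (X (Sum.inr 0) * X (Sum.inr 1))) +
    28 * (X (Sum.inl 0) ^ 2 * X (Sum.inr 1) ^ 2 + X (Sum.inl 1) ^ 2 * X (Sum.inr 0) ^ 2) +
    (4 * X (Sum.inl 0) * X (Sum.inl 3) - 3 * X (Sum.inl 1) * X (Sum.inl 2)) *
      (4 * X (Sum.inr 0) * X (Sum.inr 3) - 3 * X (Sum.inr 1) * X (Sum.inr 2)) +
    (4 * X (Sum.inl 0) * X (Sum.inl 5) - 3 * X (Sum.inl 1) * X (Sum.inl 4)) *
      (4 * X (Sum.inr 0) * X (Sum.inr 5) - 3 * X (Sum.inr 1) * X (Sum.inr 4))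

theorem nineteen_identity :
    ∑ i, C (w19 i : ℂ) * (rename Sum.inl (g19 i) * rename Sum.inr (cj (g19 i))) =
      q 6 ^ 1 * A19 := by
  simp only [Fin.sum_univ_succ, Fin.sum_univ_zero, q, A19, cj]
  simp [g19, w19, map_ofNat]
  ring

/-- There is a sum of nineteen squares on `ℂ^6` divisible by the squared norm. -/
theorem nineteen_mem : 19 ∈ S 1 6 := by
  have h := mem_S_weighted g19 g19_linearIndependent w19 w19_pos A19 nineteen_identity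
  rwa [Fintype.card_fin] at h

end Pool.Agent.Lib_helper97.Ebe
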