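import Pool.Agent.Lib_helper97.Ebe.QA5
import Pool.Agent.Lib_helper26.Ebe.Main
import Pool.Agent.Lib_helper52.Ebe.Real
import Pool.Agent.Lib_helper49.N3.X3

/-!
# The exact values of the ranks below the gap bound
-/

namespace Pool.Agent.Lib_helper97.Ebe

open MvPolynomial Module Pool.Agent.Lib_helper26.Ebe Pool.Agent.Lib_helper26.SOS

variable {n m D : ℕ}

/-- `m` is the dimension of `S_1 W` for a space `W` of homogeneous polynomials of the same
degree. -/
def S1dim (n m : ℕ) : Prop :=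
  ∃ (D : ℕ) (W : Submodule ℂ (MvPolynomial (Fin n) ℂ)), FiniteDimensional ℂ W ∧
    W ≤ homogeneousSubmodule (Fin n) ℂ D ∧ finrank ℂ (S1 W) = m

/-- The values given by two monomial stars. -/
def Val (n m : ℕ) : Prop :=
  m = 0 ∨ ∃ κ a c t, t ≤ c ∧ c < a ∧ a + c ≤ κ ∧ κ ≤ n ∧
    m + (a.choose 2 + c.choose 2 + t) = κ * n

theorem val_of_S1dim (h : S1dim n m) (hm : 2 * m < n * (n + 1)) : Val n m := by
  obtain ⟨D, W, hfd, hW, rfl⟩ := h
  by_cases hW0 : W = ⊥
  · left
    rw [hW0]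
    unfold S1
    rw [Submodule.mul_bot, finrank_bot]
  · right
    have hκ : finrank ℂ W ≤ n := by
      by_contra hlt
      have h1 := S1_lower' W (by omega)
      have h2 := tri n
      omega
    obtain ⟨a, c, t, h1, h2, h3, h4⟩ := spectrum W hW hW0 hκ
    exact ⟨_, a, c, t, h1, h2, h3, hκ, h4⟩

theorem mem_of_val (h : Val n m) : m ∈ S 1 n := by
  rcases h with rfl | ⟨κ, a, c, t, h1, h2, h3, h4, h5⟩
  · exact Pool.Agent.Lib_helper26.SOS.zero_mem_S 1 n
  · exact real_mem h1 h2 h3 (by omega) (by omega)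

theorem S1_homogeneous {W : Submodule ℂ (MvPolynomial (Fin n) ℂ)} (hn : 1 ≤ n)
    (h : S1 W ≤ homogeneousSubmodule (Fin n) ℂ D) :
    W ≤ homogeneousSubmodule (Fin n) ℂ (D - 1) := by
  intro u hu
  have h0 : (Pi.single ⟨0, hn⟩ 1 : Fin n → ℂ) ≠ 0 := by
    intro h
    have := congrFun h ⟨0, hn⟩
    simp at this
  exact isHomogeneous_of_lf_mul h0 (h (lf_mul_mem_S1 _ hu))

/-- The sequence of ranks satisfies the numerical conditions, unless the space is an `S_1`. -/
theorem seq' {ρ : ℕ} {p : Fin m → MvPolynomial (Fin n) ℂ}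
    {A : MvPolynomial (Fin n ⊕ Fin n) ℂ} {V : Submodule ℂ (MvPolynomial (Fin n) ℂ)}
    {f : Fin ρ → MvPolynomial (Fin n) ℂ} {ε : Fin ρ → ℝ}
    (s : Setting n m D ρ p A V f ε) (hn : 3 ≤ n) :
    S1dim n m ∨ ∃ t, (∀ j, 3 ≤ j → j ≤ t → ¬ St V j) ∧ (∀ j, t < j → j ≤ n → St V j) ∧
      Seq n m (rk V) t := by
  classical
  have hX := s.hX hn
  have hfd := s.fd
  have h0 : rk V 0 = 0 := rk_zero s.hVD (by have := s.hD; omega)
  have h1 : rk V 1 = 1 := rk_one s.hVD s.V_ne_bot
  have hrn : rk V n = m := by rw [rk_self, s.finrank_V]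
  obtain ⟨t, ht⟩ : ∃ t, t = Nat.findGreatest (fun j => ¬ St V j) n := ⟨_, rfl⟩
  have htn : t ≤ n := ht ▸ Nat.findGreatest_le n
  have hSt : ∀ j, t < j → j ≤ n → St V j := by
    intro j hj hjn
    have := Nat.findGreatest_is_greatest (P := fun j => ¬ St V j) (ht ▸ hj) hjn
    simpa using this
  have hnSt : ∀ j, 3 ≤ j → j ≤ t → ¬ St V j := by
    intro j hj hjt hS
    have h3 : ¬ St V t := Nat.findGreatest_of_ne_zero (P := fun j => ¬ St V j) ht.symm
      (by omega)
    exact h3 (hS.mono (by omega) hjt)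
  have hrk1 : ∀ j, 1 ≤ j → j ≤ n → rk V j ≠ 0 := by
    intro j hj hjn h3
    have h4 := rk_mono_level V hj
    omega
  have hpos : ∀ j, 1 ≤ j → j ≤ n → rk V (j - 1) + 1 ≤ rk V j := by
    intro j hj hjn
    rcases Nat.lt_or_ge j 2 with h | h
    · obtain rfl : j = 1 := by omega
      rw [Nat.sub_self, h0, h1]
    · obtain ⟨k, rfl⟩ : ∃ k, j = k + 1 := ⟨j - 1, by omega⟩
      rw [Nat.add_sub_cancel]
      exact facts_pos s.hV (s.recH h hjn) (hrk1 _ hj hjn)
  by_cases htop : t < n ∧ rk V n + rk V (n - 2) = 2 * rk V (n - 1) ∧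
      rk V n + 1 < rk V (n - 1) + n
  · left
    obtain ⟨htn', heq, hlt⟩ := htop
    obtain ⟨k, rfl⟩ : ∃ k, n = k + 2 := ⟨n - 2, by omega⟩
    obtain ⟨g, U', hfdU, hg, hU', hSU, -⟩ := Pool.Agent.Lib_helper26.Ebe.plateau s.hV
      (s.recH (by omega) le_rfl) (hSt _ htn' le_rfl) heq hlt
    refine ⟨D - 1, U', hfdU, S1_homogeneous (by omega) ?_, ?_⟩
    · rw [← hSU]
      rintro _ ⟨v, hv, rfl⟩
      exact isHomogeneous_sub g (s.hVD hv)
    · rw [← hSU, hg, hrn]
  · right
    refine ⟨t, hnSt, hSt, ⟨htn, hrn, h0, h1, hpos, ?_, ?_, ?_, ?_, ?_, hX⟩⟩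
    · intro j hj hjt
      obtain ⟨k, rfl⟩ : ∃ k, j = k + 2 := ⟨j - 2, by omega⟩
      exact facts_L s.hhom s.hD s.hV (by omega) (s.recH (by omega) (by omega)) (hnSt _ hj hjt)
    · intro j hj htj hjn
      obtain ⟨k, rfl⟩ : ∃ k, j = k + 2 := ⟨j - 2, by omega⟩
      exact facts_S s.hV (s.recH (by omega) (by omega)) (hSt _ htj hjn)
    · intro j hj htj hjn heq hlt
      obtain ⟨k, rfl⟩ : ∃ k, j = k + 2 := ⟨j - 2, by omega⟩
      exact facts_P s.hf s.hε s.hAe s.hne s.hA s.hV (s.recH (by omega) (by omega))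
        (hSt _ htj (by omega)) heq hlt
    · intro h3 h4 h5
      exact htop ⟨h3, h4, h5⟩
    · intro j hj hjn
      obtain ⟨k, rfl⟩ : ∃ k, j = k + 2 := ⟨j - 2, by omega⟩
      obtain ⟨g, g₀, T, hT, hg, -, hcop, hrk, A', hA', -⟩ :=
        s.recH (by omega) hjn 1 one_ne_zero
      have h3 := superadd (fun i => sub g (p i)) A' hA'
      rw [← map_span_sub, ← s.hV, ← rk_self, hrk (k + 2) le_rfl, hrk 2 (by omega),
        hrk k (by omega)] at h3
      exact h3

theorem S1dim_or_ge {ρ : ℕ} {p : Fin m → MvPolynomial (Fin n) ℂ}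
    {A : MvPolynomial (Fin n ⊕ Fin n) ℂ} {V : Submodule ℂ (MvPolynomial (Fin n) ℂ)}
    {f : Fin ρ → MvPolynomial (Fin n) ℂ} {ε : Fin ρ → ℝ}
    (s : Setting n m D ρ p A V f ε) (hn : 5 ≤ n) :
    S1dim n m ∨ ∀ K, K * (K - 1) + 4 ≤ 2 * n → 2 * K * n ≤ 2 * m + K * (K - 1) := by
  rcases seq' s (by omega) with h | ⟨t, ht1, ht2, hs⟩
  · exact Or.inl h
  · right
    intro K hK
    have h1 := numeric hn (rk V) t hs.htn hs.h0 hs.h1 hs.hpos hs.hL hs.hS hs.hP hs.hTop
      hs.hSA (fun h3 => by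
        by_contra h4
        have h5 := hs.hL 3 le_rfl h3
        have h6 := hs.h2 (by omega)
        rw [show 3 - 1 = 2 from rfl] at h5
        omega) K hK
    rcases h1 with h1 | ⟨h5, hr2, hr3, hr4, hr5⟩
    · rwa [hs.hrn] at h1
    · exfalso
      subst h5
      have ht : t < 3 := by
        by_contra h3
        have h5 := hs.hL 3 le_rfl (by omega)
        rw [show 3 - 1 = 2 from rfl] at h5
        omega
      have hk2 : rk V (2 + 2) = 10 := hr4
      have hk3 : rk V (2 + 1) = 7 := hr3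
      obtain ⟨g, U', hfdU, -, hU', -, hρ⟩ := plateau2 (k := 2) s.hV (by omega)
        (s.recH (by omega) (by omega)) (ht2 3 ht (by omega)) (by rw [hk2, hk3, hr2])
        (by rw [hk2, hk3]; omega)
      rw [hk2, hk3] at hU'
      rw [s.hAe, finrank_sp_dg s.hf s.hε] at hρ
      have h6 := rank_bound s.hε s.hAe s.hne s.hA s.hV 4
      omega

/-- Either `m` is the dimension of an `S_1 W` or `m` is at least the gap bound. -/
theorem S1dim_or_ge_of_mem (hn : 5 ≤ n) (hm : m ∈ S 1 n) :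
    S1dim n m ∨ ∀ K, K * (K - 1) + 4 ≤ 2 * n → 2 * K * n ≤ 2 * m + K * (K - 1) := by
  rcases Nat.eq_zero_or_pos m with hm0 | hm0
  · subst hm0
    left
    refine ⟨0, ⊥, inferInstance, bot_le, ?_⟩
    unfold S1
    rw [Submodule.mul_bot, finrank_bot]
  obtain ⟨D, p, hp, hhom, hcop, A, hA⟩ := homogeneous_coprime (by omega) hm hm0.ne'
  obtain ⟨ρ, f, ε, hf, hε, hAe⟩ := hermitian_diag (by omega) p A hA
  have hAe' : A = dg f ε := hAe
  by_cases hpsd : ∀ k, ε k = 1
  · left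
    have h1 := span_eq_of_psd p f ε hpsd (by rw [← hAe]; exact hA)
    have : FiniteDimensional ℂ (Submodule.span ℂ (Set.range f)) :=
      FiniteDimensional.span_of_finite ℂ (Set.finite_range f)
    have h2 : S1 (Submodule.span ℂ (Set.range f)) = Submodule.span ℂ (Set.range p) := by
      rw [S1_span_range, h1]
      congr 1
      ext g
      constructor
      · rintro ⟨⟨i, k⟩, rfl⟩
        exact ⟨i, k, rfl⟩
      · rintro ⟨i, k, rfl⟩
        exact ⟨(i, k), rfl⟩
    refine ⟨D - 1, _, this, S1_homogeneous (by omega) ?_, ?_⟩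
    · rw [h2, Submodule.span_le]
      rintro _ ⟨i, rfl⟩
      exact hhom i
    · rw [h2, finrank_span_eq_card hp, Fintype.card_fin]
  · have hD : 3 ≤ D := by
      by_contra hlt
      exact hpsd (psd_of_degree_le_two (by omega) hhom (by omega) hf hε
        (by rw [← hAe']; exact hA))
    push Not at hpsd
    obtain ⟨k, hk⟩ := hpsd
    have s : Setting n m D ρ p A (Submodule.span ℂ (Set.range p)) f ε :=
      ⟨hp, rfl, hhom, hD, fun h hh => hcop h fun i => hh _ (Submodule.subset_span ⟨i, rfl⟩),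
        hA, hf, hε, hAe', ⟨k, (hε k).resolve_left hk⟩⟩
    exact S1dim_or_ge s hn

/-- **The values of `S_1(n)` below the gap bound.** -/
theorem mem_iff_val (K : ℕ) (hK : K * (K - 1) + 4 ≤ 2 * n)
    (hm : 2 * m + K * (K - 1) < 2 * K * n) : m ∈ S 1 n ↔ Val n m := by
  refine ⟨fun h => ?_, mem_of_val⟩
  have hKn : 2 * m < n * (n + 1) := by
    rcases Nat.lt_or_ge n K with h1 | h1
    · obtain ⟨x, rfl⟩ : ∃ x, K = n + 1 + x := ⟨K - (n + 1), by omega⟩
      rw [show n + 1 + x - 1 = n + x by omega] at hm hK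
      nlinarith
    · obtain ⟨x, rfl⟩ : ∃ x, n = K + x := ⟨n - K, by omega⟩
      rcases K with _ | K
      · simp at hm
      · rw [Nat.add_sub_cancel] at hm
        nlinarith
  rcases Nat.lt_or_ge n 5 with hn | hn
  · -- small values: only `0` and `n`
    have hg : Gapless n m := Pool.Agent.Lib_helper49.N3.gapless h
    have hK2 : K ≤ 2 := by
      by_contra hlt
      have h1 : 3 * 2 ≤ K * (K - 1) := Nat.mul_le_mul (by omega) (by omega)
      omega
    have h0 := hg 0
    have h1 := hg 1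
    have h01 : m = 0 ∨ m = n := by
      have : K = 0 ∨ K = 1 ∨ K = 2 := by omega
      rcases this with rfl | rfl | rfl
      · omega
      · simp at hm hK h0 h1
        omega
      · simp at hm hK h0 h1
        omega
    rcases h01 with rfl | rfl
    · exact Or.inl rfl
    · rcases Nat.eq_zero_or_pos m with rfl | hm0
      · exact Or.inl rfl
      · exact Or.inr ⟨1, 1, 0, 0, le_rfl, by omega, by omega, by omega, by simp⟩
  · rcases S1dim_or_ge_of_mem hn h with h1 | h1
    · exact val_of_S1dim h1 hKn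
    · have := h1 K hK
      omega

end Pool.Agent.Lib_helper97.Ebe
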