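import Pool.Agent.Lib_helper26.Ebe.Sq
import Pool.Agent.Lib_helper97.Ebe.KP

/-!
# The first order lemma
-/

namespace Pool.Agent.Lib_helper97.Ebe

open MvPolynomial Module Pool.Agent.Lib_helper26.Ebe Pool.Agent.Lib_helper26.SOS

variable {n m : ℕ}

theorem fo_aux {R ι κ : Type*} [CommRing R] (s : Finset ι) (t : Finset κ) (l : R) (e x : ι → R)
    (g w : κ → R) (d : ι → κ → R) :
    (∑ k ∈ s, e k * x k) * (∑ i ∈ t, g i * w i) + l * ∑ k ∈ s, e k * ∑ i ∈ t, g i * d k i =
      ∑ k ∈ s, e k * ∑ i ∈ t, g i * (x k * w i + l * d k i) := by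
  rw [Finset.sum_mul, Finset.mul_sum, ← Finset.sum_add_distrib]
  refine Finset.sum_congr rfl fun k _ => ?_
  rw [mul_assoc, Finset.mul_sum, mul_left_comm l, Finset.mul_sum (s := t) (a := l),
    ← mul_add, ← Finset.sum_add_distrib]
  congr 1
  exact Finset.sum_congr rfl fun i _ => by ring

/-- The first order lemma: for generic `b`, for every `u` with `l_b u ∈ V` there are `D η`,
depending linearly on `η`, with `l_η u + l_b D η ∈ V`. -/
theorem first_order (hn : 2 ≤ n) (V : Submodule ℂ (MvPolynomial (Fin n) ℂ))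
    [FiniteDimensional ℂ V] :
    Gen (fun b : Fin n → ℂ => ∀ u ∈ U V b, ∃ D : (Fin n → ℂ) →ₗ[ℂ] MvPolynomial (Fin n) ℂ,
      ∀ η, lf η * u + lf b * D η ∈ V) := by
  classical
  let p : Fin (finrank ℂ V) → MvPolynomial (Fin n) ℂ := fun j => (finBasis ℂ V j).1
  have hpV : ∀ j, p j ∈ V := fun j => (finBasis ℂ V j).2
  have hrep : ∀ v ∈ V, ∃ c : Fin (finrank ℂ V) → ℂ, v = ∑ j, c j • p j := by
    intro v hv
    refine ⟨fun j => (finBasis ℂ V).repr ⟨v, hv⟩ j, ?_⟩
    have := (finBasis ℂ V).sum_repr ⟨v, hv⟩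
    have := congrArg Subtype.val this
    rw [Submodule.coe_sum] at this
    exact this.symm
  obtain ⟨κ, x, hx, hgen⟩ := kernel_param (τ := Fin n)
    ({r | ∃ Y ∈ kerF n, r = fun j => aeval Y (p j)} :
        Set (Fin (finrank ℂ V) → MvPolynomial (Fin n) ℂ))
  have hq : ∀ i, ∃ w, fam p (x i) = q n * w := by
    intro i
    apply q_dvd_of_eval hn
    intro z b hb hz
    have : z ∈ Zs (kerF n) b := by
      rw [Zs_kerF hb]
      exact hz
    obtain ⟨Y, hY, rfl⟩ := this
    have h1 := congrArg (eval b) (hx i _ ⟨Y, hY, rfl⟩)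
    rw [map_sum, map_zero] at h1
    rw [eval_fam, ← h1]
    refine Finset.sum_congr rfl fun j _ => ?_
    rw [map_mul, eval_aeval]
  choose w hw using hq
  refine (hgen.and (gen_ne_zero (by omega))).mono fun b hb u hu => ?_
  obtain ⟨⟨-, hb⟩, hb0⟩ := hb
  have hkr : ∀ Y ∈ kerF n, krl b (fun i => eval b (Y i)) = 0 := by
    intro Y hY
    have : (fun i => eval b (Y i)) ∈ Zs (kerF n) b := ⟨Y, hY, rfl⟩
    rw [Zs_kerF hb0] at this
    exact this
  have hspV : ∀ y : Fin (finrank ℂ V) → MvPolynomial (Fin n) ℂ, sp b (fam p y) ∈ V := by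
    intro y
    rw [sp_fam]
    exact V.sum_mem fun j _ => V.smul_mem _ (hpV j)
  obtain ⟨c, hc⟩ := hrep _ (mem_U.mp hu)
  have hcs := hb c (by
    rintro r ⟨Y, hY, rfl⟩
    have h1 : eval (fun i => eval b (Y i)) (lf b * u) = 0 := by
      rw [map_mul, eval_lf', hkr Y hY, zero_mul]
    rw [hc, map_sum] at h1
    rw [← h1]
    refine Finset.sum_congr rfl fun j _ => ?_
    rw [eval_aeval, smul_eval, mul_comm])
  obtain ⟨g, hg⟩ := (Submodule.mem_span_range_iff_exists_fun ℂ).mp hcs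
  have hu' : u = ∑ i, g i • sp b (w i) := by
    apply mul_left_cancel₀ (lf_ne_zero hb0)
    rw [hc, Finset.mul_sum]
    have h1 : ∀ i, lf b * g i • sp b (w i) = g i • ∑ j, eval b (x i j) • p j := by
      intro i
      rw [← sp_fam, hw, map_mul, sp_q', mul_smul_comm]
    simp_rw [h1, Finset.smul_sum]
    rw [Finset.sum_comm]
    refine Finset.sum_congr rfl fun j _ => ?_
    rw [← hg, Finset.sum_apply, Finset.sum_smul]
    refine Finset.sum_congr rfl fun i _ => ?_
    rw [Pi.smul_apply, smul_eq_mul, mul_smul]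
  let D : (Fin n → ℂ) →ₗ[ℂ] MvPolynomial (Fin n) ℂ :=
    ∑ k, (LinearMap.proj k).smulRight (∑ i, g i • sp b (pderiv (Sum.inr k) (w i)))
  have hD : ∀ η, D η = ∑ k, η k • ∑ i, g i • sp b (pderiv (Sum.inr k) (w i)) := by
    intro η
    simp only [D, LinearMap.sum_apply, LinearMap.smulRight_apply, LinearMap.proj_apply]
  refine ⟨D, fun η => ?_⟩
  have key : ∀ k i, X k * sp b (w i) + lf b * sp b (pderiv (Sum.inr k) (w i)) ∈ V := by
    intro k i
    have h1 := hspV (fun j => pderiv k (x i j))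
    rw [← pderiv_inr_fam, hw, pderiv_mul, pderiv_inr_q] at h1
    have h4 : sp b (X (Sum.inl k)) = X k := by
      rw [← rename_X (Sum.inl : Fin n → Fin n ⊕ Fin n), sp_inl]
    rw [map_add, map_mul, map_mul, sp_q', h4] at h1
    exact h1
  have h5 : lf η * u + lf b * D η =
      ∑ k, η k • ∑ i, g i • (X k * sp b (w i) + lf b * sp b (pderiv (Sum.inr k) (w i))) := by
    rw [hD, hu']
    unfold lf
    simp only [smul_eq_C_mul]
    exact fo_aux _ _ _ _ _ _ _ _
  rw [h5]
  exact V.sum_mem fun k _ => V.smul_mem _ (V.sum_mem fun i _ => V.smul_mem _ (key k i))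

end Pool.Agent.Lib_helper97.Ebe
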