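import Pool.Agent.Lib_helper97.Ebe.Ex19
import Pool.Agent.Lib_helper97.Ebe.Exact

/-!
# The set `S_1(n)` for `n ≤ 6`
-/

namespace Pool.Agent.Lib_helper97.Ebe

open MvPolynomial Module Pool.Agent.Lib_helper26.Ebe Pool.Agent.Lib_helper26.SOS

theorem mem_S_three (m : ℕ) : m ∈ S 1 3 ↔ m = 0 ∨ m = 3 ∨ 5 ≤ m := by
  refine ⟨fun h => ?_, S_three_sup m⟩
  have hg : Gapless 3 m := Pool.Agent.Lib_helper49.N3.gapless h
  have h0 := hg 0
  have h1 := hg 1
  simp only [zero_mul, zero_add, one_mul] at h0 h1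
  omega

theorem mem_S_four (m : ℕ) : m ∈ S 1 4 ↔ m = 0 ∨ m = 4 ∨ 7 ≤ m := by
  refine ⟨fun h => ?_, S_four_sup m⟩
  have hg : Gapless 4 m := Pool.Agent.Lib_helper49.N3.gapless h
  have h0 := hg 0
  have h1 := hg 1
  simp only [zero_mul, zero_add, one_mul] at h0 h1
  omega

theorem mem_S_five (m : ℕ) : m ∈ S 1 5 ↔ m = 0 ∨ m = 5 ∨ m = 9 ∨ m = 10 ∨ 12 ≤ m := by
  refine ⟨fun h => ?_, S_five_sup m⟩
  have hg : Gapless 5 m := Pool.Agent.Lib_helper49.N3.gapless h
  have h0 := hg 0
  have h1 := hg 1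
  have h2 := hg 2
  simp only [zero_mul, zero_add, one_mul] at h0 h1 h2
  omega

/-- The case of six variables: here the value `19` is attained only by an indefinite
quotient. -/
theorem mem_S_six (m : ℕ) : m ∈ S 1 6 ↔ m = 0 ∨ m = 6 ∨ m = 11 ∨ m = 12 ∨ 15 ≤ m := by
  constructor
  · intro h
    have hg : Gapless 6 m := Pool.Agent.Lib_helper49.N3.gapless h
    have h0 := hg 0
    have h1 := hg 1
    have h2 := hg 2
    simp only [zero_mul, zero_add, one_mul] at h0 h1 h2
    omega
  · rintro (rfl | rfl | rfl | rfl | h)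
    · exact Pool.Agent.Lib_helper26.SOS.zero_mem_S 1 6
    · exact n_mem_S 6
    · exact real_mem (a := 2) (c := 0) (t := 0) (κ := 2) (by omega) (by omega) (by omega)
        (by omega) (by decide)
    · exact mul_mem_S 6 2
    · refine mem_of_interval (N := 15) (by norm_num) (fun m h1 h2 => ?_) m h
      obtain rfl | rfl | rfl | rfl | rfl | rfl : m = 15 ∨ m = 16 ∨ m = 17 ∨ m = 18 ∨ m = 19 ∨
        m = 20 := by omega
      · exact real_mem (a := 3) (c := 0) (t := 0) (κ := 3) (by omega) (by omega) (by omega)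
          (by omega) (by decide)
      · exact real_mem (a := 2) (c := 1) (t := 1) (κ := 3) (by omega) (by omega) (by omega)
          (by omega) (by decide)
      · exact real_mem (a := 2) (c := 0) (t := 0) (κ := 3) (by omega) (by omega) (by omega)
          (by omega) (by decide)
      · exact mul_mem_S 6 3
      · exact nineteen_mem
      · exact real_mem (a := 3) (c := 1) (t := 1) (κ := 4) (by omega) (by omega) (by omega)
          (by omega) (by decide)

end Pool.Agent.Lib_helper97.Ebe
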