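import Pool.Agent.Lib_helper97.Ebe.Asm7
import Pool.Agent.Lib_helper97.Ebe.Six

/-!
# The set `S_1(n)`
-/

namespace Pool.Agent.Lib_helper97.Ebe

open MvPolynomial Module Pool.Agent.Lib_helper26.Ebe Pool.Agent.Lib_helper26.SOS

variable {n m : ℕ}

theorem val_of_mem_seven (hn : 7 ≤ n) (h : m ∈ S 1 n) (hm : 2 * m < n * (n + 1)) : Val n m := by
  rcases Nat.eq_zero_or_pos m with hm0 | hm0
  · exact Or.inl hm0
  obtain ⟨D, p, hp, hhom, hcop, A, hA⟩ := homogeneous_coprime (by omega) h hm0.ne'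
  obtain ⟨ρ, f, ε, hf, hε, hAe⟩ := hermitian_diag (by omega) p A hA
  have hAe' : A = dg f ε := hAe
  by_cases hpsd : ∀ k, ε k = 1
  · have h1 := span_eq_of_psd p f ε hpsd (by rw [← hAe]; exact hA)
    have : FiniteDimensional ℂ (Submodule.span ℂ (Set.range f)) :=
      FiniteDimensional.span_of_finite ℂ (Set.finite_range f)
    have h2 : S1 (Submodule.span ℂ (Set.range f)) = Submodule.span ℂ (Set.range p) := by
      rw [S1_span_range, h1]
      congr 1
      ext g
      constructor
      · rintro ⟨⟨i, k⟩, rfl⟩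
        exact ⟨i, k, rfl⟩
      · rintro ⟨i, k, rfl⟩
        exact ⟨(i, k), rfl⟩
    refine val_of_S1dim ⟨D - 1, _, this, S1_homogeneous (by omega) ?_, ?_⟩ hm
    · rw [h2, Submodule.span_le]
      rintro _ ⟨i, rfl⟩
      exact hhom i
    · rw [h2, finrank_span_eq_card hp, Fintype.card_fin]
  · have hD : 3 ≤ D := by
      by_contra hlt
      exact hpsd (psd_of_degree_le_two (by omega) hhom (by omega) hf hε
        (by rw [← hAe']; exact hA))
    push Not at hpsd
    obtain ⟨k, hk⟩ := hpsd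
    have s : Setting n m D ρ p A (Submodule.span ℂ (Set.range p)) f ε :=
      ⟨hp, rfl, hhom, hD, fun h hh => hcop h fun i => hh _ (Submodule.subset_span ⟨i, rfl⟩),
        hA, hf, hε, hAe', ⟨k, (hε k).resolve_left hk⟩⟩
    exact indef_val s hn hm

/-- The set `S_1(n)` for `n ≥ 7`. -/
theorem mem_S_iff (hn : 7 ≤ n) : m ∈ S 1 n ↔ Val n m ∨ n * (n + 1) ≤ 2 * m := by
  constructor
  · intro h
    rcases Nat.lt_or_ge (2 * m) (n * (n + 1)) with h1 | h1
    · exact Or.inl (val_of_mem_seven hn h h1)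
    · exact Or.inr h1
  · rintro (h | h)
    · exact mem_of_val h
    · exact wN3 hn h

/-- An explicit form of the values given by two monomial stars. -/
theorem val_iff (n m : ℕ) : Val n m ↔ m = 0 ∨ ∃ κ a s, 1 ≤ a ∧ a ≤ κ ∧ κ ≤ n ∧
    s ≤ (min a (κ + 1 - a)).choose 2 ∧ m + a.choose 2 + s = κ * n := by
  constructor
  · rintro (h | ⟨κ, a, c, t, h1, h2, h3, h4, h5⟩)
    · exact Or.inl h
    · right
      refine ⟨κ, a, c.choose 2 + t, by omega, by omega, h4, ?_, by omega⟩
      have h6 : (c + 1).choose 2 ≤ (min a (κ + 1 - a)).choose 2 :=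
        Nat.choose_le_choose 2 (by omega)
      have h7 := choose_succ_two c
      omega
  · rintro (h | ⟨κ, a, s, h1, h2, h3, h4, h5⟩)
    · exact Or.inl h
    · right
      obtain ⟨M, hM⟩ : ∃ M, min a (κ + 1 - a) = M + 1 := ⟨min a (κ + 1 - a) - 1, by omega⟩
      rw [hM] at h4
      obtain ⟨c, t, h6, h7, h8⟩ := exists_act h4
      exact ⟨κ, a, c, t, h7, by omega, by omega, h3, by omega⟩

theorem mem_S_two (m : ℕ) : m ∈ S 1 2 ↔ m = 0 ∨ 2 ≤ m := by
  constructor
  · intro h
    have hg : Gapless 2 m := Pool.Agent.Lib_helper49.N3.gapless h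
    have h0 := hg 0
    omega
  · rintro (rfl | h)
    · exact Pool.Agent.Lib_helper26.SOS.zero_mem_S 1 2
    · refine mem_of_interval (N := 2) (by norm_num) (fun m h1 h2 => ?_) m h
      obtain rfl | rfl : m = 2 ∨ m = 3 := by omega
      · exact n_mem_S 2
      · exact real_mem (a := 2) (c := 0) (t := 0) (κ := 2) (by omega) (by omega) (by omega)
          (by omega) (by decide)

theorem mem_S_one (m : ℕ) : m ∈ S 1 1 := by
  have := mul_mem_S 1 m
  rwa [mul_one] at this

/-- **The set `S_1(n)` for all `n`.** -/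
theorem mem_S_all (hn : 1 ≤ n) : m ∈ S 1 n ↔
    Val n m ∨ n * (n + 1) ≤ 2 * m ∨ (n = 6 ∧ m = 19) := by
  rcases Nat.lt_or_ge n 7 with h7 | h7
  · constructor
    · intro h
      by_cases h1 : n * (n + 1) ≤ 2 * m
      · exact Or.inr (Or.inl h1)
      by_cases h2 : n = 6 ∧ m = 19
      · exact Or.inr (Or.inr h2)
      left
      rcases Nat.eq_zero_or_pos m with h0 | h0
      · exact Or.inl h0
      rw [val_iff]
      right
      have h3 : n = 1 ∨ n = 2 ∨ n = 3 ∨ n = 4 ∨ n = 5 ∨ n = 6 := by omega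
      rcases h3 with rfl | rfl | rfl | rfl | rfl | rfl
      · omega
      · rw [mem_S_two] at h
        obtain rfl : m = 2 := by omega
        exact ⟨1, 1, 0, by decide⟩
      · rw [mem_S_three] at h
        obtain rfl | rfl : m = 3 ∨ m = 5 := by omega
        · exact ⟨1, 1, 0, by decide⟩
        · exact ⟨2, 2, 0, by decide⟩
      · rw [mem_S_four] at h
        obtain rfl | rfl | rfl | rfl : m = 4 ∨ m = 7 ∨ m = 8 ∨ m = 9 := by omega
        · exact ⟨1, 1, 0, by decide⟩
        · exact ⟨2, 2, 0, by decide⟩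
        · exact ⟨2, 1, 0, by decide⟩
        · exact ⟨3, 3, 0, by decide⟩
      · rw [mem_S_five] at h
        obtain rfl | rfl | rfl | rfl | rfl | rfl : m = 5 ∨ m = 9 ∨ m = 10 ∨ m = 12 ∨ m = 13 ∨
          m = 14 := by omega
        · exact ⟨1, 1, 0, by decide⟩
        · exact ⟨2, 2, 0, by decide⟩
        · exact ⟨2, 1, 0, by decide⟩
        · exact ⟨3, 3, 0, by decide⟩
        · exact ⟨3, 2, 1, by decide⟩
        · exact ⟨3, 2, 0, by decide⟩
      · rw [mem_S_six] at h
        obtain rfl | rfl | rfl | rfl | rfl | rfl | rfl | rfl : m = 6 ∨ m = 11 ∨ m = 12 ∨ m = 15 ∨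
          m = 16 ∨ m = 17 ∨ m = 18 ∨ m = 20 := by omega
        · exact ⟨1, 1, 0, by decide⟩
        · exact ⟨2, 2, 0, by decide⟩
        · exact ⟨2, 1, 0, by decide⟩
        · exact ⟨3, 3, 0, by decide⟩
        · exact ⟨3, 2, 1, by decide⟩
        · exact ⟨3, 2, 0, by decide⟩
        · exact ⟨3, 1, 0, by decide⟩
        · exact ⟨4, 3, 1, by decide⟩
    · rintro (h | h | ⟨rfl, rfl⟩)
      · exact mem_of_val h
      · have h3 : n = 1 ∨ n = 2 ∨ n = 3 ∨ n = 4 ∨ n = 5 ∨ n = 6 := by omega
        rcases h3 with rfl | rfl | rfl | rfl | rfl | rfl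
        · exact mem_S_one m
        · rw [mem_S_two]
          omega
        · rw [mem_S_three]
          omega
        · rw [mem_S_four]
          omega
        · rw [mem_S_five]
          omega
        · rw [mem_S_six]
          omega
      · exact nineteen_mem
  · rw [mem_S_iff h7]
    constructor
    · rintro (h | h)
      · exact Or.inl h
      · exact Or.inr (Or.inl h)
    · rintro (h | h | h)
      · exact Or.inl h
      · exact Or.inr h
      · omega

end Pool.Agent.Lib_helper97.Ebe
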