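import Pool.Agent.Lib_helper26.Ebe.Plat2

/-!
# The sequence of generic ranks of an arbitrary space
-/

namespace Pool.Agent.Lib_helper97.Ebe

open MvPolynomial Module Pool.Agent.Lib_helper26.Ebe Pool.Agent.Lib_helper26.SOS

variable {n : ℕ}

theorem rk_le_succ (V : Submodule ℂ (MvPolynomial (Fin n) ℂ)) [FiniteDimensional ℂ V] (t : ℕ) :
    rk V t ≤ rk V (t + 1) := by
  obtain ⟨g, hg⟩ := exists_rk V t
  let g' : Fin n × Fin (t + 1) → ℂ :=
    fun x => (Fin.snoc (fun l : Fin t => g (x.1, l)) 0 : Fin (t + 1) → ℂ) x.2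
  have h1 : Set.range (mv g) ⊆ Set.range (mv g') := by
    rintro _ ⟨x, rfl⟩
    refine ⟨(Fin.snoc x 0 : Fin (t + 1) → ℂ), ?_⟩
    funext i
    simp [mv, g', Fin.sum_univ_castSucc]
  have h2 := finrank_map_add_van V g
  have h3 := finrank_map_add_van V g'
  have h4 := Submodule.finrank_mono (van_anti (V := V) h1)
  have h5 := finrank_map_le_rk V g'
  omega

theorem rk_mono_level (V : Submodule ℂ (MvPolynomial (Fin n) ℂ)) [FiniteDimensional ℂ V]
    {s t : ℕ} (h : s ≤ t) : rk V s ≤ rk V t := by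
  induction t, h using Nat.le_induction with
  | base => exact le_rfl
  | succ t _ ih => exact ih.trans (rk_le_succ V t)

/-- If the generic kernel has dimension at most one there is a good pair. -/
theorem exists_pair_of_le {j : ℕ} (W : Submodule ℂ (MvPolynomial (Fin (j + 2)) ℂ))
    [FiniteDimensional ℂ W] (h : finrank ℂ W ≤ rk W (j + 1) + 1) :
    ∃ a b : Fin (j + 2) → ℂ, Ind a b ∧
      van W ((kr a : Set (Fin (j + 2) → ℂ)) ∪ kr b) = ⊥ := by
  have h1 : rk W (j + 1) + mvan W (kerF (j + 2)) = finrank ℂ W := rk_kerF W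
  obtain ⟨a, ha, ha0⟩ := ((gen_finrank_van_kr W (by omega)).and
    (gen_ne_zero (n := j + 2) (by omega))).exists
  obtain ⟨b, hb, hab⟩ := ((gen_van_kr_eq_bot (van W (kr a)) (by omega)).and
    (gen_ind_left ha0 (by omega))).exists
  refine ⟨a, b, hab.symm, ?_⟩
  rw [eq_bot_iff, ← hb]
  rintro v ⟨hv, hz⟩
  exact ⟨⟨hv, fun z hz' => hz z (Or.inl hz')⟩, fun z hz' => hz z (Or.inr hz')⟩

theorem St_of_le_one (V : Submodule ℂ (MvPolynomial (Fin n) ℂ)) [FiniteDimensional ℂ V]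
    {j : ℕ} (h : rk V (j + 2) ≤ rk V (j + 1) + 1) : St V (j + 2) := by
  obtain ⟨g, hg, hg'⟩ := ((gen_rk V (j + 2)).and
    (gen_rk_map V (k := j + 2) (l := j + 1) (by omega))).exists
  obtain ⟨a, b, hab, hv⟩ := exists_pair_of_le (V.map (sub g).toLinearMap)
    (by rw [hg, hg']; exact h)
  exact St_of_exists (by omega) hab.left hab.right hg (stP_iff.mpr hv)

theorem St_le (V : Submodule ℂ (MvPolynomial (Fin n) ℂ)) [FiniteDimensional ℂ V]
    {j : ℕ} (h : St V (j + 2)) : rk V (j + 2) + rk V j ≤ 2 * rk V (j + 1) := by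
  obtain ⟨g, ⟨⟨hg, hg'⟩, a, b, ha, hb, hab⟩⟩ := (((gen_rk V (j + 2)).and
    (gen_rk_map_all V (j + 2))).and (h.gen (by omega))).exists
  have h3 := Stype_le ⟨a, b, ha, hb, stP_iff.mp hab⟩
  rw [hg, hg' (j + 1) (by omega), hg' j (by omega)] at h3
  exact h3

/-- Small increments stay small. -/
theorem rk_inc (V : Submodule ℂ (MvPolynomial (Fin n) ℂ)) [FiniteDimensional ℂ V]
    {j : ℕ} (h : rk V (j + 2) ≤ rk V (j + 1) + 1) {i : ℕ} (hi : j ≤ i) :
    rk V (i + 3) + rk V (i + 1) ≤ 2 * rk V (i + 2) := by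
  have h1 : St V (j + 2) := St_of_le_one V h
  exact St_le V (j := i + 1) (h1.mono (by omega) (by omega))

/-- The facts about the sequence of ranks. -/
structure RSeq (κ n : ℕ) (r : ℕ → ℕ) : Prop where
  h1 : r 1 = 1
  hn : r n = κ
  hmono : ∀ t, r t ≤ r (t + 1)
  hle : ∀ t, r t ≤ κ
  hinc : ∀ j, r (j + 2) ≤ r (j + 1) + 1 → ∀ i, j ≤ i → r (i + 3) + r (i + 1) ≤ 2 * r (i + 2)

theorem rseq {D : ℕ} (U : Submodule ℂ (MvPolynomial (Fin n) ℂ)) [FiniteDimensional ℂ U]
    (hU : U ≤ homogeneousSubmodule (Fin n) ℂ D) (hU0 : U ≠ ⊥) :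
    RSeq (finrank ℂ U) n (rk U) :=
  ⟨rk_one hU hU0, rk_self U, rk_le_succ U, rk_mono U, fun _ h _ hi => rk_inc U h hi⟩

theorem finrank_map_of_inj {m : ℕ} (f : MvPolynomial (Fin n) ℂ →ₗ[ℂ] MvPolynomial (Fin m) ℂ)
    (hf : Function.Injective f) (U : Submodule ℂ (MvPolynomial (Fin n) ℂ)) :
    finrank ℂ (U.map f) = finrank ℂ U :=
  (Submodule.equivMapOfInjective f hf U).finrank_eq.symm

/-- The sum of the generic ranks is a lower bound for `dim S_1 U`. -/
theorem sum_rk_le {n : ℕ} : ∀ (U : Submodule ℂ (MvPolynomial (Fin n) ℂ))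
    [FiniteDimensional ℂ U], ∑ t ∈ Finset.range n, rk U (t + 1) ≤ finrank ℂ (S1 U) := by
  induction n with
  | zero => intro U _; simp
  | succ n ih =>
    intro U _
    rw [Finset.sum_range_succ, rk_self U]
    obtain ⟨g, hg, hg'⟩ := ((gen_injective (Nat.le_succ n)).and (gen_rk_map_all U n)).exists
    have h1 := ih (U.map (sub g).toLinearMap)
    rw [Finset.sum_congr rfl (g := fun t => rk U (t + 1)) (fun t ht => by
      rw [Finset.mem_range] at ht
      exact hg' (t + 1) (by omega))] at h1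
    let M : (Fin n → ℂ) →ₗ[ℂ] (Fin (n + 1) → ℂ) := Matrix.toLin' (Matrix.of fun i j => g (i, j))
    obtain ⟨L, hL⟩ := M.exists_leftInverse_of_injective (LinearMap.ker_eq_bot.mpr hg)
    have hLx : ∀ z, L (mv g z) = z := fun z => LinearMap.congr_fun hL z
    have h2 : (S1 U).map (sub g).toLinearMap = S1 (U.map (sub g).toLinearMap) := by
      unfold S1
      rw [Submodule.map_mul, map_L1 g L hLx]
    obtain ⟨a, ha0, ha⟩ := exists_le_kr (mvS g) (by have := finrank_mvS_le g; omega)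
    have h3 : U.map (LinearMap.mulLeft ℂ (lf a)) ≤ van (S1 U) (Set.range (mv g)) := by
      rintro _ ⟨u, hu, rfl⟩
      refine ⟨lf_mul_mem_S1 a hu, fun z hz => ?_⟩
      have hz' : z ∈ kr a := ha (by rw [← SetLike.mem_coe, coe_mvS]; exact hz)
      rw [LinearMap.mulLeft_apply, map_mul, eval_lf', show krl a z = 0 from hz', zero_mul]
    have h5 : finrank ℂ (U.map (LinearMap.mulLeft ℂ (lf a))) = finrank ℂ U :=
      finrank_map_of_inj _ (fun x y hxy => mul_left_cancel₀ (lf_ne_zero ha0) hxy) U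
    have h4 : finrank ℂ U ≤ finrank ℂ (van (S1 U) (Set.range (mv g))) := by
      rw [← h5]
      exact Submodule.finrank_mono h3
    have h6 : finrank ℂ (S1 (U.map (sub g).toLinearMap)) +
        finrank ℂ (van (S1 U) (Set.range (mv g))) = finrank ℂ (S1 U) := by
      rw [← h2]
      exact finrank_map_add_van (S1 U) g
    omega

end Pool.Agent.Lib_helper97.Ebe
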