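import Pool.Agent.Lib_helper97.Ebe.QA1

/-!
# Arithmetic of the sequence of ranks
-/

namespace Pool.Agent.Lib_helper97.Ebe

variable {κ n : ℕ} {r : ℕ → ℕ}

theorem RSeq.diff (h : RSeq κ n r) {s : ℕ} (hs : 1 ≤ s) (h1 : r (s + 1) ≤ r s + 1)
    {t : ℕ} (ht : s ≤ t) : r (t + 2) + r t ≤ 2 * r (t + 1) := by
  obtain ⟨j, rfl⟩ : ∃ j, s = j + 1 := ⟨s - 1, by omega⟩
  obtain ⟨i, rfl⟩ : ∃ i, t = i + 1 := ⟨t - 1, by omega⟩
  exact h.hinc j h1 i (by omega)

theorem RSeq.small (h : RSeq κ n r) {s : ℕ} (hs : 1 ≤ s) (h1 : r (s + 1) ≤ r s + 1) {t : ℕ}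
    (ht : s ≤ t) : r (t + 1) ≤ r t + 1 := by
  induction t, ht using Nat.le_induction with
  | base => exact h1
  | succ t ht ih =>
    have h2 := h.diff hs h1 ht
    have h3 : r (t + 1 + 1) = r (t + 2) := rfl
    omega

theorem RSeq.const (h : RSeq κ n r) {s : ℕ} (hs : 1 ≤ s) (h1 : r (s + 1) = r s) {t : ℕ}
    (ht : s ≤ t) : r (t + 1) = r t ∧ r t = r s := by
  induction t, ht using Nat.le_induction with
  | base => exact ⟨h1, rfl⟩
  | succ t ht ih =>
    have h2 := h.diff hs (by omega) ht
    have h3 : r (t + 1 + 1) = r (t + 2) := rfl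
    have h4 := h.hmono (t + 1)
    omega

/-- The number `q` with its properties. -/
structure QSeq (κ n : ℕ) (r : ℕ → ℕ) (q : ℕ) : Prop where
  hq1 : 1 ≤ q
  hqn : q ≤ n
  hqκ : q ≤ κ
  htop : ∀ t, q ≤ t → r t = κ
  hlow : ∀ t, 1 ≤ t → t < q → r t + 1 ≤ r (t + 1)
  hor : ∀ t, 1 ≤ t → t ≤ q → 2 * t ≤ r t + 1 ∨ κ + t ≤ r t + q

theorem RSeq.exists_q (h : RSeq κ n r) (hn : 1 ≤ n) : ∃ q, QSeq κ n r q := by
  classical
  have hex : ∃ t, 1 ≤ t ∧ r t = κ := ⟨n, hn, h.hn⟩
  obtain ⟨q, hq⟩ : ∃ q, q = Nat.find hex := ⟨_, rfl⟩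
  have hq1 : 1 ≤ q := hq ▸ (Nat.find_spec hex).1
  have hqκ : r q = κ := hq ▸ (Nat.find_spec hex).2
  have hmin : ∀ t, 1 ≤ t → t < q → r t < κ := by
    intro t ht htq
    have h1 := Nat.find_min hex (hq ▸ htq)
    have h2 := h.hle t
    rcases Nat.lt_or_ge (r t) κ with h3 | h3
    · exact h3
    · exact absurd ⟨ht, le_antisymm h2 h3⟩ h1
  have hqn : q ≤ n := hq ▸ Nat.find_min' hex ⟨hn, h.hn⟩
  have htop : ∀ t, q ≤ t → r t = κ := by
    intro t ht
    induction t, ht using Nat.le_induction with
    | base => exact hqκ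
    | succ t _ ih =>
      have h1 := h.hmono t
      have h2 := h.hle (t + 1)
      omega
  have hlow : ∀ t, 1 ≤ t → t < q → r t + 1 ≤ r (t + 1) := by
    intro t ht htq
    have h1 := h.hmono t
    by_contra hc
    have h2 := (h.const ht (by omega) htq.le).2
    have h3 := hmin t ht htq
    omega
  have hrt : ∀ t, 1 ≤ t → t ≤ q → t ≤ r t := by
    intro t ht
    induction t, ht using Nat.le_induction with
    | base => intro _; rw [h.h1]
    | succ t ht ih =>
      intro htq
      have h1 := hlow t ht (by omega)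
      have h2 := ih (by omega)
      omega
  refine ⟨q, hq1, hqn, by have := hrt q hq1 le_rfl; omega, htop, hlow, ?_⟩
  intro t ht
  induction t, ht using Nat.le_induction with
  | base =>
    intro _
    left
    rw [h.h1]
  | succ t ht ih =>
    intro htq
    by_cases h1 : r (t + 1) ≤ r t + 1
    · right
      -- small increments from `t` on
      have key : ∀ s, t + 1 ≤ s → s ≤ q → r s + (t + 1) ≤ r (t + 1) + s := by
        intro s hs
        induction s, hs using Nat.le_induction with
        | base => intro _; omega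
        | succ s hs ih =>
          intro hsq
          have h2 := ih (by omega)
          have h3 := h.small ht h1 (t := s) (by omega)
          omega
      have h2 := key q htq le_rfl
      omega
    · rcases ih (by omega) with h2 | h2
      · left
        omega
      · right
        omega

theorem sum_sub_le (n a : ℕ) : ∑ t ∈ Finset.range n, (a - (t + 1)) ≤ a.choose 2 := by
  induction a generalizing n with
  | zero => simp
  | succ a ih =>
    cases n with
    | zero => simp
    | succ n =>
      rw [Finset.sum_range_succ']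
      have h1 : ∑ k ∈ Finset.range n, (a + 1 - (k + 1 + 1)) ≤ a.choose 2 := by
        rw [Finset.sum_congr rfl (g := fun k => a - (k + 1)) (fun k _ => by omega)]
        exact ih n
      have h2 : (a + 1).choose 2 = a + a.choose 2 := by
        rw [Nat.choose_succ_succ' a 1, Nat.choose_one_right]
      omega

theorem QSeq.sum_le {q : ℕ} (h : QSeq κ n r q) {a : ℕ} (hqa : q ≤ a)
    (haκ : a ≤ κ) :
    ∑ t ∈ Finset.range n, (κ - r (t + 1)) ≤ a.choose 2 + (κ - a + 1).choose 2 := by
  have h1 : ∀ t ∈ Finset.range n, κ - r (t + 1) ≤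
      (a - (t + 1)) + (κ - a + 1 - (t + 1)) := by
    intro t _
    rcases Nat.lt_or_ge (t + 1) q with h2 | h2
    · rcases h.hor (t + 1) (by omega) h2.le with h3 | h3
      · omega
      · omega
    · rw [h.htop _ h2]
      omega
  refine (Finset.sum_le_sum h1).trans ?_
  rw [Finset.sum_add_distrib]
  exact Nat.add_le_add (sum_sub_le _ _) (sum_sub_le _ _)

theorem QSeq.plateau {q : ℕ} (h : QSeq κ n r q) {c : ℕ} (hc : κ = q + c) (hcq : c + 1 ≤ q)
    {t : ℕ} (ht : c + 1 ≤ t) (htq : t ≤ q) : r t = t + c := by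
  have hq := h.htop q le_rfl
  have h0 : 2 * c + 1 ≤ r (c + 1) := by
    rcases h.hor (c + 1) (by omega) hcq with h1 | h1 <;> omega
  have h1 : ∀ s, c + 1 ≤ s → s ≤ q → r (c + 1) + s ≤ r s + (c + 1) := by
    intro s hs
    induction s, hs using Nat.le_induction with
    | base => intro _; omega
    | succ s hs ih =>
      intro hsq
      have h2 := ih (by omega)
      have h3 := h.hlow s (by omega) (by omega)
      omega
  have h2 : ∀ s, t ≤ s → s ≤ q → r t + s ≤ r s + t := by
    intro s hs
    induction s, hs using Nat.le_induction with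
    | base => intro _; omega
    | succ s hs ih =>
      intro hsq
      have h2 := ih (by omega)
      have h3 := h.hlow s (by omega) (by omega)
      omega
  have h3 := h1 t ht htq
  have h4 := h2 q htq le_rfl
  omega

/-- The final arithmetic. -/
theorem exists_act {d M : ℕ} (h : d ≤ (M + 1).choose 2) : ∃ c t, c ≤ M ∧ t ≤ c ∧
    c.choose 2 + t = d := by
  induction M with
  | zero =>
    refine ⟨0, 0, le_rfl, le_rfl, ?_⟩
    simp at h
    simp [h]
  | succ M ih =>
    rcases Nat.lt_or_ge ((M + 1).choose 2) d with h1 | h1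
    · refine ⟨M + 1, d - (M + 1).choose 2, le_rfl, ?_, by omega⟩
      have h2 : (M + 1 + 1).choose 2 = (M + 1) + (M + 1).choose 2 := by
        rw [Nat.choose_succ_succ' (M + 1) 1, Nat.choose_one_right]
      omega
    · obtain ⟨c, t, hc, ht, he⟩ := ih h1
      exact ⟨c, t, by omega, ht, he⟩

theorem choose_succ_two (a : ℕ) : (a + 1).choose 2 = a + a.choose 2 := by
  rw [Nat.choose_succ_succ' a 1, Nat.choose_one_right]

theorem two_mul_choose (a : ℕ) : 2 * (a + 1).choose 2 = a * (a + 1) := by
  induction a with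
  | zero => simp
  | succ a ih =>
    rw [choose_succ_two (a + 1), mul_add, ih]
    ring

theorem spectrum_arith {s : ℕ} (hκ : 1 ≤ κ) (hs : s ≤ κ.choose 2)
    (h : ∀ a, a < κ → κ < 2 * a - 1 → a.choose 2 + (κ - a + 1).choose 2 < s →
      2 * κ < 2 * a + a → s < (a + 1).choose 2 → False) :
    ∃ a c t, t ≤ c ∧ c < a ∧ a + c ≤ κ ∧ a.choose 2 + c.choose 2 + t = s := by
  classical
  -- the largest `a` with `C(a,2) ≤ s`
  obtain ⟨a, ha⟩ : ∃ a, a = Nat.findGreatest (fun a => a.choose 2 ≤ s) κ := ⟨_, rfl⟩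
  have haκ : a ≤ κ := ha ▸ Nat.findGreatest_le κ
  have h1 : a.choose 2 ≤ s := ha ▸ Nat.findGreatest_spec (P := fun a => a.choose 2 ≤ s)
    (Nat.zero_le κ) (Nat.zero_le s)
  have ha1 : 1 ≤ a := by
    rw [ha]
    exact Nat.le_findGreatest hκ (by simp)
  rcases Nat.lt_or_ge a κ with h2 | h2
  · have h3 : s < (a + 1).choose 2 := by
      have := Nat.findGreatest_is_greatest (P := fun a => a.choose 2 ≤ s) (n := κ)
        (k := a + 1) (by omega) (by omega)
      omega
    have h4 := choose_succ_two a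
    by_cases h5 : s - a.choose 2 ≤ (min (a - 1) (κ - a) + 1).choose 2
    · obtain ⟨c, t, hc, ht, he⟩ := exists_act h5
      exact ⟨a, c, t, ht, by omega, by omega, by omega⟩
    · exfalso
      rcases Nat.lt_or_ge (κ - a) (a - 1) with h6 | h6
      · rw [min_eq_right h6.le] at h5
        refine h a h2 (by omega) (by omega) ?_ h3
        -- `C(κ-a+1,2) + 2 ≤ a`
        obtain ⟨x, hx⟩ : ∃ x, κ = a + (x + 1) := ⟨κ - a - 1, by omega⟩
        have h7 : κ - a + 1 = x + 1 + 1 := by omega
        rw [h7] at h5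
        have h8 := two_mul_choose (x + 1)
        have h9 : (x + 1) * (x + 1 + 1) = x * x + 3 * x + 2 := by ring
        have h10 : x ≤ x * x := Nat.le_mul_self x
        rw [h9] at h8
        generalize x * x = y at h8 h10
        generalize (x + 1 + 1).choose 2 = z at h5 h8
        omega
      · rw [min_eq_left h6] at h5
        obtain ⟨x, rfl⟩ : ∃ x, a = x + 1 := ⟨a - 1, by omega⟩
        rw [Nat.add_sub_cancel] at h5
        have h8 := two_mul_choose x
        have h9 : x ≤ (x + 1).choose 2 := by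
          rcases Nat.eq_zero_or_pos x with rfl | hx
          · simp
          · nlinarith
        omega
  · obtain rfl : a = κ := by omega
    exact ⟨a, 0, 0, le_rfl, by omega, by omega, by simp; omega⟩

end Pool.Agent.Lib_helper97.Ebe
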