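import Pool.Agent.Lib_helper97.Ebe.QA2
import Pool.Agent.Lib_helper97.Ebe.H
import Pool.Agent.Lib_helper52.Ebe.CR

/-!
# Common factors and stars
-/

namespace Pool.Agent.Lib_helper97.Ebe

open MvPolynomial Module Pool.Agent.Lib_helper26.Ebe Pool.Agent.Lib_helper26.SOS

variable {n : ℕ}

/-- If `p` divides `x y` for all `y` in a coprime set then `p` divides `x`. -/
theorem dvd_of_forall_dvd_mul {R : Type*} [CommRing R] [IsDomain R]
    [UniqueFactorizationMonoid R] {Y : Set R} (hY : ∀ h, (∀ y ∈ Y, h ∣ y) → IsUnit h)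
    {p : R} (hp : p ≠ 0) : ∀ {x : R}, (∀ y ∈ Y, p ∣ x * y) → p ∣ x := by
  induction p using UniqueFactorizationMonoid.induction_on_prime with
  | h₁ => exact absurd rfl hp
  | h₂ u hu => exact fun {x} _ => hu.dvd
  | h₃ a q ha hq ih =>
    intro x h
    obtain ⟨x', rfl⟩ := ih ha (fun y hy => (Dvd.intro_left q rfl).trans (h y hy))
    have h1 : ∀ y ∈ Y, q ∣ x' * y := by
      intro y hy
      obtain ⟨z, hz⟩ := h y hy
      refine ⟨z, mul_left_cancel₀ ha ?_⟩
      linear_combination hz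
    have h2 : q ∣ x' := by
      by_contra hc
      exact hq.not_isUnit (hY q fun y hy => (hq.dvd_or_dvd (h1 y hy)).resolve_left hc)
    obtain ⟨z, rfl⟩ := h2
    exact ⟨z, by ring⟩

/-- A homogeneous space is a multiple of a coprime homogeneous space. -/
theorem coprime_factor {D : ℕ} : ∀ {W : Submodule ℂ (MvPolynomial (Fin n) ℂ)},
    W ≤ homogeneousSubmodule (Fin n) ℂ D → W ≠ ⊥ →
    ∃ (D' : ℕ) (w : MvPolynomial (Fin n) ℂ) (M : Submodule ℂ (MvPolynomial (Fin n) ℂ)),
      w ≠ 0 ∧ M ≤ homogeneousSubmodule (Fin n) ℂ D' ∧ Cop M ∧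
        W = M.map (LinearMap.mulLeft ℂ w) := by
  induction D using Nat.strong_induction_on with
  | _ D ih =>
    intro W hW hW0
    by_cases hc : Cop W
    · refine ⟨D, 1, W, one_ne_zero, hW, hc, ?_⟩
      rw [LinearMap.mulLeft_one, Submodule.map_id]
    · unfold Cop at hc
      push Not at hc
      obtain ⟨h, hdvd, hu⟩ := hc
      obtain ⟨v₀, hv₀, hv₀0⟩ := Submodule.exists_mem_ne_zero_of_ne_bot hW0
      have hh : h ≠ 0 := by
        rintro rfl
        exact hv₀0 (zero_dvd_iff.mp (hdvd _ hv₀))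
      have hdeg : 0 < h.totalDegree := by
        rw [Nat.pos_iff_ne_zero]
        intro h0
        apply hu
        rw [totalDegree_eq_zero_iff_eq_C] at h0
        rw [h0] at hh ⊢
        exact (IsUnit.mk0 _ (by rintro h1; rw [h1, C_0] at hh; exact hh rfl)).map C
      set e := h.totalDegree with he
      set H := homogeneousComponent e h with hH
      have hH0 : H ≠ 0 := hc_top_ne_zero hh
      have key : ∀ v ∈ W, v ≠ 0 → ∃ s : MvPolynomial (Fin n) ℂ,
          v = H * s ∧ s.IsHomogeneous (D - e) ∧ e ≤ D := by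
        intro v hv hv0
        obtain ⟨r, hr⟩ := hdvd v hv
        have hr0 : r ≠ 0 := by rintro rfl; exact hv0 (by rw [hr, mul_zero])
        have h1 := hc_mul_top h r
        rw [← hr, ← he] at h1
        rw [homogeneousComponent_of_mem (hW hv)] at h1
        have h2 : e + r.totalDegree = D := by
          by_contra hne
          rw [if_neg hne] at h1
          exact mul_ne_zero hH0 (hc_top_ne_zero hr0) h1.symm
        rw [if_pos h2] at h1
        refine ⟨_, h1, ?_, by omega⟩
        have h3 : D - e = r.totalDegree := by omega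
        rw [h3]
        exact homogeneousComponent_isHomogeneous _ _
      obtain ⟨-, -, -, heD⟩ := key v₀ hv₀ hv₀0
      have hmap : W = (W.comap (LinearMap.mulLeft ℂ H)).map (LinearMap.mulLeft ℂ H) := by
        apply le_antisymm
        · intro v hv
          by_cases hv0 : v = 0
          · rw [hv0]; exact Submodule.zero_mem _
          · obtain ⟨s, hs, -, -⟩ := key v hv hv0
            refine ⟨s, ?_, hs.symm⟩
            change H * s ∈ W
            rw [← hs]
            exact hv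
        · rintro _ ⟨s, hs, rfl⟩
          exact hs
      obtain ⟨D', w, M, hw, hM, hcop, hWM⟩ := ih (D - e) (by omega)
        (W := W.comap (LinearMap.mulLeft ℂ H)) (by
          intro s hs
          have hs' : H * s ∈ W := hs
          by_cases hs0 : s = 0
          · rw [hs0]; exact Submodule.zero_mem _
          · obtain ⟨s', hs1, hs2, -⟩ := key _ hs' (mul_ne_zero hH0 hs0)
            rw [mul_left_cancel₀ hH0 hs1]
            exact hs2) (by
          intro h0
          rw [h0, Submodule.map_bot] at hmap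
          exact hW0 hmap)
      refine ⟨D', H * w, M, mul_ne_zero hH0 hw, hM, hcop, ?_⟩
      rw [hmap, hWM, ← Submodule.map_comp]
      congr 1
      apply LinearMap.ext
      intro x
      simp

theorem exists_lf_of_homogeneous {f : MvPolynomial (Fin n) ℂ} (h : f.IsHomogeneous 1) :
    ∃ η, f = lf η := by
  rw [← mem_L1_iff]
  unfold L1
  rw [← homogeneousSubmodule_one_eq_span_X]
  exact h

theorem totalDegree_lf_le (η : Fin n → ℂ) : (lf η).totalDegree ≤ 1 :=
  (isHomogeneous_lf η).totalDegree_le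

/-- A space whose restriction to a generic subspace consists of multiples of linear forms. -/
theorem linear_of_restrict {D e : ℕ} (he : 2 ≤ e) (W : Submodule ℂ (MvPolynomial (Fin n) ℂ))
    [FiniteDimensional ℂ W] (hW : W ≤ homogeneousSubmodule (Fin n) ℂ D)
    (hdim : 2 ≤ finrank ℂ W)
    (h : Gen (fun b : Fin n × Fin e → ℂ => ∃ P, ∀ u ∈ W, ∃ ζ, sub b u = P * lf ζ)) :
    ∃ w, w ≠ 0 ∧ ∀ u ∈ W, ∃ η, u = w * lf η := by
  have hW0 : W ≠ ⊥ := by
    rintro rfl
    rw [finrank_bot] at hdim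
    omega
  obtain ⟨D', w, M, hw, hM, hcop, hWM⟩ := coprime_factor hW hW0
  refine ⟨w, hw, ?_⟩
  have hM0 : M ≠ ⊥ := by
    rintro rfl
    rw [Submodule.map_bot] at hWM
    exact hW0 hWM
  obtain ⟨m₀, hm₀, hm₀0⟩ := Submodule.exists_mem_ne_zero_of_ne_bot hM0
  have hne : ∀ f : MvPolynomial (Fin n) ℂ, f ≠ 0 →
      Gen (fun b : Fin n × Fin e → ℂ => sub b f ≠ 0) := by
    intro f hf
    obtain ⟨z, hz⟩ := exists_eval_ne_zero hf
    have h1 : Gen (fun b : Fin n × Fin e → ℂ => eval (fun i => b (i, ⟨0, by omega⟩)) f ≠ 0) := by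
      refine ⟨rename (fun i => (i, ⟨0, by omega⟩)) f, ?_, fun b hb => ?_⟩
      · intro h0
        apply hf
        apply rename_injective _ (fun i i' hi => (Prod.mk.inj hi).1)
        rw [h0, map_zero]
      · rwa [eval_rename] at hb
    refine h1.mono fun b hb h0 => hb ?_
    have h2 := Pool.Agent.Lib_helper26.Ebe.eval_sub b f (Pi.single ⟨0, by omega⟩ 1)
    rw [h0, map_zero] at h2
    rw [h2]
    congr 2
    funext i
    simp [mv, Pi.single_apply]
  obtain ⟨b, ⟨⟨⟨P, hP⟩, hbc⟩, hbw⟩, hbm⟩ := (((h.and (cop_restrict he M hM hcop)).and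
    (hne w hw)).and (hne m₀ hm₀0)).exists
  have hmem : ∀ m ∈ M, w * m ∈ W := by
    intro m hm
    rw [hWM]
    exact ⟨m, hm, rfl⟩
  have hP0 : P ≠ 0 := by
    rintro rfl
    obtain ⟨ζ, hζ⟩ := hP _ (hmem m₀ hm₀)
    rw [zero_mul, map_mul] at hζ
    exact mul_ne_zero hbw hbm hζ
  have hdvd : P ∣ sub b w := by
    refine dvd_of_forall_dvd_mul (Y := (M.map (sub b).toLinearMap : Set _))
      (fun h hh => hbc h hh) hP0 ?_
    rintro _ ⟨m, hm, rfl⟩
    obtain ⟨ζ, hζ⟩ := hP _ (hmem m hm)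
    rw [map_mul] at hζ
    exact ⟨_, hζ⟩
  obtain ⟨s, hs⟩ := hdvd
  have hs0 : s ≠ 0 := by
    rintro rfl
    rw [mul_zero] at hs
    exact hbw hs
  have hD' : D' ≤ 1 := by
    obtain ⟨ζ, hζ⟩ := hP _ (hmem m₀ hm₀)
    rw [map_mul, hs, mul_assoc] at hζ
    have h1 := mul_left_cancel₀ hP0 hζ
    have h2 : (sub b m₀).IsHomogeneous D' := isHomogeneous_sub b (hM hm₀)
    have h3 := h2.totalDegree hbm
    have h4 : lf ζ ≠ 0 := by
      rw [← h1]
      exact mul_ne_zero hs0 hbm
    have h5 := totalDegree_le_of_dvd_of_isDomain (Dvd.intro_left s h1) h4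
    have h6 := totalDegree_lf_le ζ
    omega
  have hD1 : D' = 1 := by
    by_contra hne1
    have hD0 : D' = 0 := by omega
    subst hD0
    have h1 : M ≤ ℂ ∙ (1 : MvPolynomial (Fin n) ℂ) := by
      intro m hm
      have h2 := hM hm
      rw [homogeneousSubmodule_zero, Submodule.one_eq_span] at h2
      exact h2
    have h2 : finrank ℂ M ≤ 1 := (Submodule.finrank_mono h1).trans
      (finrank_span_singleton (K := ℂ) (v := (1 : MvPolynomial (Fin n) ℂ)) one_ne_zero).le
    have h3 : finrank ℂ W = finrank ℂ M := by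
      rw [hWM]
      exact finrank_map_of_inj _ (fun x y hxy => mul_left_cancel₀ hw hxy) M
    omega
  subst hD1
  intro u hu
  rw [hWM] at hu
  obtain ⟨m, hm, rfl⟩ := hu
  obtain ⟨η, rfl⟩ := exists_lf_of_homogeneous (hM hm)
  exact ⟨η, rfl⟩

/-- Two star presentations of the same space have the same centre. -/
theorem centre_dvd {w w' : MvPolynomial (Fin n) ℂ} (hw : w ≠ 0)
    {W : Submodule ℂ (MvPolynomial (Fin n) ℂ)} (hdim : 2 ≤ finrank ℂ W)
    (h : ∀ u ∈ W, ∃ η, u = w * lf η) (h' : ∀ u ∈ W, ∃ η, u = w' * lf η) : w ∣ w' := by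
  obtain ⟨f, hf⟩ := exists_linearIndependent_of_le_finrank hdim
  obtain ⟨η₀, hη₀⟩ := h' _ (f 0).2
  obtain ⟨η₁, hη₁⟩ := h' _ (f 1).2
  have hI : Ind η₀ η₁ := by
    by_contra hI
    have h1 : η₁ ≠ 0 := by
      rintro rfl
      rw [lf_zero, mul_zero, ZeroMemClass.coe_eq_zero] at hη₁
      exact hf.ne_zero 1 hη₁
    obtain ⟨c, rfl⟩ := eq_smul_of_not_ind hI h1
    have h2 : f 0 = c • f 1 := by
      apply Subtype.ext
      rw [hη₀, Submodule.coe_smul, hη₁, lf_smul, smul_eq_C_mul]
      ring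
    have h3 := (LinearIndependent.pair_iff.mp (show LinearIndependent ℂ ![f 0, f 1] by
      convert hf using 1
      funext i
      fin_cases i <;> rfl)) 1 (-c) (by rw [h2]; simp)
    exact one_ne_zero h3.1
  refine dvd_of_forall_dvd_mul (Y := {lf η₀, lf η₁}) ?_ hw ?_
  · intro d hd
    have h1 := hd _ (Set.mem_insert _ _)
    have h2 := hd _ (Set.mem_insert_of_mem _ rfl)
    rcases (lf_prime hI.left).irreducible.dvd_iff.mp h1 with h3 | h3
    · exact h3
    · exact absurd (h3.dvd.trans h2) hI.not_dvd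
  · rintro y (rfl | rfl)
    · obtain ⟨η, hη⟩ := h _ (f 0).2
      rw [← hη₀, hη]
      exact Dvd.intro _ rfl
    · obtain ⟨η, hη⟩ := h _ (f 1).2
      rw [← hη₁, hη]
      exact Dvd.intro _ rfl

theorem star_change {w w' : MvPolynomial (Fin n) ℂ} (hw : w ≠ 0) (hw' : w' ≠ 0)
    {W : Submodule ℂ (MvPolynomial (Fin n) ℂ)} (hdim : 2 ≤ finrank ℂ W)
    (h : ∀ u ∈ W, ∃ η, u = w * lf η) (h' : ∀ u ∈ W, ∃ η, u = w' * lf η) :
    ∃ c : ℂ, w' = C c * w := by
  obtain ⟨x, hx⟩ := associated_of_dvd_dvd (centre_dvd hw hdim h h') (centre_dvd hw' hdim h' h)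
  obtain ⟨c, -, hc⟩ := MvPolynomial.isUnit_iff_eq_C_of_isReduced.mp x.isUnit
  exact ⟨c, by rw [← hx, hc, mul_comm]⟩

end Pool.Agent.Lib_helper97.Ebe
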