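import Pool.Agent.Lib_helper97.Ebe.QA3

/-!
# Construction of the star
-/

namespace Pool.Agent.Lib_helper97.Ebe

open MvPolynomial Module Pool.Agent.Lib_helper26.Ebe Pool.Agent.Lib_helper26.SOS

variable {n p e : ℕ}

/-- At the end of a plateau the restriction to a generic subspace contains a full star. -/
theorem gen_star {τ : ℕ} (hτ : 3 ≤ τ) (U : Submodule ℂ (MvPolynomial (Fin n) ℂ))
    [FiniteDimensional ℂ U] (h2 : rk U τ = rk U (τ - 1) + 1)
    (h1 : rk U (τ - 1) = rk U (τ - 2) + 1) :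
    Gen (fun g : Fin n × Fin τ → ℂ =>
      ∃ w, w ≠ 0 ∧ ∀ η, lf η * w ∈ U.map (sub g).toLinearMap) := by
  obtain ⟨j, rfl⟩ : ∃ j, τ = j + 3 := ⟨τ - 3, by omega⟩
  rw [show j + 3 - 1 = j + 2 from rfl] at h1 h2
  rw [show j + 3 - 2 = j + 1 from rfl] at h1
  refine ((gen_rk U (j + 3)).and (gen_rk_map_all U (j + 3))).mono fun g hg => ?_
  obtain ⟨hg1, hg2⟩ := hg
  have e1 := hg2 (j + 2) (by omega)
  have e2 := hg2 (j + 1) (by omega)
  obtain ⟨h, ⟨hh1, hh2⟩, hh3⟩ := (((gen_injective (Nat.le_succ (j + 2))).and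
    (gen_rk (U.map (sub g).toLinearMap) (j + 2))).and
    (gen_rk_map (U.map (sub g).toLinearMap) (k := j + 2) (l := j + 1) (by omega))).exists
  obtain ⟨a, b, hab, hv⟩ := exists_pair_of_le
    ((U.map (sub g).toLinearMap).map (sub h).toLinearMap) (by
      rw [hh2, hh3, e1, e2]
      omega)
  obtain ⟨U', hU', hfdU, -, hmul⟩ := plateau (n := j + 1) (U.map (sub g).toLinearMap)
    (by rw [hg1, e1, e2]; omega) (by rw [hg1, e1]; omega) ⟨h, hh1, hh2, a, b, hab, hv⟩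
  have h3 : finrank ℂ U' = 1 := by
    rw [hg1, e1] at hU'
    omega
  have h4 : U' ≠ ⊥ := by
    rintro rfl
    rw [finrank_bot] at h3
    omega
  obtain ⟨w, hw, hw0⟩ := Submodule.exists_mem_ne_zero_of_ne_bot h4
  exact ⟨w, hw0, fun η => hmul w hw η⟩

/-- Juxtaposition of two matrices. -/
def jn (x : (Fin n × Fin p) ⊕ (Fin n × Fin e) → ℂ) : Fin n × Fin (p + e) → ℂ :=
  fun y => x (Fin.addCases (motive := fun _ => (Fin n × Fin p) ⊕ (Fin n × Fin e))
    (fun l => Sum.inl (y.1, l)) (fun l => Sum.inr (y.1, l)) y.2)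

theorem jn_left (x : (Fin n × Fin p) ⊕ (Fin n × Fin e) → ℂ) (i : Fin n) (l : Fin p) :
    jn x (i, Fin.castAdd e l) = x (Sum.inl (i, l)) := by
  simp [jn]

theorem jn_right (x : (Fin n × Fin p) ⊕ (Fin n × Fin e) → ℂ) (i : Fin n) (l : Fin e) :
    jn x (i, Fin.natAdd p l) = x (Sum.inr (i, l)) := by
  simp [jn]

theorem Gen.jn {P : (Fin n × Fin (p + e) → ℂ) → Prop} (h : Gen P) :
    Gen (fun x : (Fin n × Fin p) ⊕ (Fin n × Fin e) → ℂ => P (jn x)) := by
  refine (h.pull (fun y => X (Fin.addCases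
    (motive := fun _ => (Fin n × Fin p) ⊕ (Fin n × Fin e))
    (fun l => Sum.inl (y.1, l)) (fun l => Sum.inr (y.1, l)) y.2)) (fun g => ?_)).mono
    fun x hx => ?_
  · refine ⟨Sum.elim (fun z => g (z.1, Fin.castAdd e z.2)) (fun z => g (z.1, Fin.natAdd p z.2)),
      ?_⟩
    rintro ⟨i, l⟩
    rw [eval_X]
    refine Fin.addCases (fun l => ?_) (fun l => ?_) l
    · simp
    · simp
  · convert hx using 1
    funext y
    rw [eval_X]
    rfl

/-- The inclusion of the first coordinates. -/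
def iL (p e : ℕ) : Fin (p + e) × Fin p → ℂ := fun y => if y.1 = Fin.castAdd e y.2 then 1 else 0

/-- The inclusion of the last coordinates. -/
def iR (p e : ℕ) : Fin (p + e) × Fin e → ℂ := fun y => if y.1 = Fin.natAdd p y.2 then 1 else 0

theorem jn_iL (x : (Fin n × Fin p) ⊕ (Fin n × Fin e) → ℂ) :
    mulg (jn x) (iL p e) = x ∘ Sum.inl := by
  funext y
  rw [mulg, Finset.sum_eq_single (Fin.castAdd e y.2)]
  · rw [jn_left, iL, if_pos rfl, mul_one]
    rfl
  · intro l _ hl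
    rw [iL, if_neg hl, mul_zero]
  · simp

theorem jn_iR (x : (Fin n × Fin p) ⊕ (Fin n × Fin e) → ℂ) :
    mulg (jn x) (iR p e) = x ∘ Sum.inr := by
  funext y
  rw [mulg, Finset.sum_eq_single (Fin.natAdd p y.2)]
  · rw [jn_right, iR, if_pos rfl, mul_one]
    rfl
  · intro l _ hl
    rw [iR, if_neg hl, mul_zero]
  · simp

theorem sub_iR_rename (f : MvPolynomial (Fin e) ℂ) :
    sub (iR p e) (rename (Fin.natAdd p) f) = f := by
  have : (sub (iR p e)).comp (rename (Fin.natAdd p)) = AlgHom.id ℂ (MvPolynomial (Fin e) ℂ) := by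
    apply MvPolynomial.algHom_ext
    intro l
    rw [AlgHom.comp_apply, rename_X, sub_X, Finset.sum_eq_single l]
    · simp [iR]
    · intro j _ hj
      rw [iR, if_neg, C_0, zero_mul]
      intro h
      exact hj (Fin.natAdd_injective _ _ h).symm
    · simp
  exact AlgHom.congr_fun this f

theorem castAdd_ne_natAdd (i : Fin p) (j : Fin e) : Fin.natAdd p j ≠ Fin.castAdd e i := by
  intro h
  have := congrArg Fin.val h
  simp at this
  omega

theorem sub_iL_rename (ζ : Fin e → ℂ) : sub (iL p e) (rename (Fin.natAdd p) (lf ζ)) = 0 := by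
  unfold lf
  rw [map_sum, map_sum]
  refine Finset.sum_eq_zero fun l _ => ?_
  rw [map_mul, map_mul, rename_X, sub_X]
  have : ∑ j, C (iL p e (Fin.natAdd p l, j)) * (X j : MvPolynomial (Fin p) ℂ) = 0 := by
    refine Finset.sum_eq_zero fun j _ => ?_
    rw [iL, if_neg (castAdd_ne_natAdd j l), C_0, zero_mul]
  rw [this, mul_zero]

theorem rename_lf (ζ : Fin e → ℂ) :
    rename (Fin.natAdd p) (lf ζ) = lf (Fin.append (0 : Fin p → ℂ) ζ) := by
  unfold lf
  rw [map_sum, Fin.sum_univ_add]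
  simp

/-- The elements vanishing on a generic subspace, restricted to a complement. -/
theorem gen_restrict (U : Submodule ℂ (MvPolynomial (Fin n) ℂ)) [FiniteDimensional ℂ U]
    (hinj : rk U (p + e) = finrank ℂ U) (hpe : finrank ℂ U = rk U p + e)
    (hstar : Gen (fun g : Fin n × Fin (p + e) → ℂ =>
      ∃ w, w ≠ 0 ∧ ∀ η, lf η * w ∈ U.map (sub g).toLinearMap)) :
    Gen (fun x : (Fin n × Fin p) ⊕ (Fin n × Fin e) → ℂ =>
      ∃ P, ∀ u ∈ van U (Set.range (mv (x ∘ Sum.inl))), ∃ ζ, sub (x ∘ Sum.inr) u = P * lf ζ) := by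
  refine (((Gen.jn (gen_rk U (p + e))).and (gen_rk U p).fst).and (Gen.jn hstar)).mono
    fun x hx => ?_
  obtain ⟨⟨h1, h2⟩, w, hw, hstar⟩ := hx
  set V := U.map (sub (jn x)).toLinearMap with hV
  have hfdV : FiniteDimensional ℂ V := inferInstance
  let T : (Fin e → ℂ) →ₗ[ℂ] MvPolynomial (Fin (p + e)) ℂ :=
    (LinearMap.mulLeft ℂ w) ∘ₗ (rename (Fin.natAdd p)).toLinearMap ∘ₗ lfL e
  have hTa : ∀ ζ, T ζ = w * rename (Fin.natAdd p) (lf ζ) := fun ζ => rfl
  have hT : Function.Injective T := by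
    rw [← LinearMap.ker_eq_bot, LinearMap.ker_eq_bot']
    intro ζ hζ
    rw [hTa] at hζ
    have h3 := (mul_eq_zero.mp hζ).resolve_left hw
    by_contra hne
    apply lf_ne_zero hne
    apply rename_injective _ (Fin.natAdd_injective _ _)
    rw [h3, map_zero]
  have hTr := LinearMap.finrank_range_of_inj hT
  rw [finrank_fin_fun] at hTr
  have hN := finrank_map_add_van V (iL p e)
  have h3 : V.map (sub (iL p e)).toLinearMap = U.map (sub (x ∘ Sum.inl)).toLinearMap := by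
    rw [hV, ← map_sub_mulg, jn_iL]
  rw [h3, h2, h1, hinj] at hN
  have hle : LinearMap.range T ≤ van V (Set.range (mv (iL p e))) := by
    rintro _ ⟨ζ, rfl⟩
    refine ⟨?_, ?_⟩
    · rw [hTa, rename_lf, mul_comm]
      exact hstar _
    · rw [← sub_eq_zero_iff, hTa, map_mul, sub_iL_rename, mul_zero]
  have heq : LinearMap.range T = van V (Set.range (mv (iL p e))) :=
    Submodule.eq_of_le_of_finrank_eq hle (by omega)
  refine ⟨sub (iR p e) w, fun u hu => ?_⟩
  have hu' : sub (jn x) u ∈ van V (Set.range (mv (iL p e))) := by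
    refine ⟨⟨u, hu.1, rfl⟩, ?_⟩
    rw [← sub_eq_zero_iff]
    have h4 := AlgHom.congr_fun (sub_mulg (jn x) (iL p e)) u
    rw [jn_iL] at h4
    rw [← AlgHom.comp_apply, ← h4, sub_eq_zero_iff]
    exact hu.2
  rw [← heq] at hu'
  obtain ⟨ζ, hζ⟩ := hu'
  refine ⟨ζ, ?_⟩
  have h4 := AlgHom.congr_fun (sub_mulg (jn x) (iR p e)) u
  rw [jn_iR, AlgHom.comp_apply, ← hζ, hTa, map_mul, sub_iR_rename] at h4
  exact h4

theorem gen_centre {D : ℕ} (U : Submodule ℂ (MvPolynomial (Fin n) ℂ)) [FiniteDimensional ℂ U]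
    (hU : U ≤ homogeneousSubmodule (Fin n) ℂ D) (he : 2 ≤ e)
    (hinj : rk U (p + e) = finrank ℂ U) (hpe : finrank ℂ U = rk U p + e)
    (hstar : Gen (fun g : Fin n × Fin (p + e) → ℂ =>
      ∃ w, w ≠ 0 ∧ ∀ η, lf η * w ∈ U.map (sub g).toLinearMap)) :
    Gen (fun a : Fin n × Fin p → ℂ =>
      ∃ w, w ≠ 0 ∧ ∀ u ∈ van U (Set.range (mv a)), ∃ η, u = w * lf η) := by
  refine ((gen_restrict U hinj hpe hstar).pair.and (gen_rk U p)).mono fun a ha => ?_
  obtain ⟨h1, h2⟩ := ha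
  have h3 := finrank_map_add_van U a
  exact linear_of_restrict he (van U (Set.range (mv a))) ((van_le _ _).trans hU) (by omega) h1

theorem range_mv_subset (a b : Fin n × Fin p → ℂ) :
    Set.range (mv a) ⊆ Set.range (mv (jn (Sum.elim a b))) := by
  rintro _ ⟨y, rfl⟩
  refine ⟨mv (iL p p) y, ?_⟩
  rw [← mv_mulg, jn_iL]
  rfl

theorem range_mv_subset' (a b : Fin n × Fin p → ℂ) :
    Set.range (mv b) ⊆ Set.range (mv (jn (Sum.elim a b))) := by
  rintro _ ⟨y, rfl⟩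
  refine ⟨mv (iR p p) y, ?_⟩
  rw [← mv_mulg, jn_iR]
  rfl

theorem exists_centre {D : ℕ} (U : Submodule ℂ (MvPolynomial (Fin n) ℂ)) [FiniteDimensional ℂ U]
    (hU : U ≤ homogeneousSubmodule (Fin n) ℂ D) (he : 2 ≤ e)
    (hinj : rk U (p + e) = finrank ℂ U) (hpe : finrank ℂ U = rk U p + e)
    (hpp : rk U (p + p) + 2 ≤ finrank ℂ U)
    (hstar : Gen (fun g : Fin n × Fin (p + e) → ℂ =>
      ∃ w, w ≠ 0 ∧ ∀ η, lf η * w ∈ U.map (sub g).toLinearMap)) :
    ∃ w, w ≠ 0 ∧ Gen (fun a : Fin n × Fin p → ℂ =>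
      ∀ u ∈ van U (Set.range (mv a)), ∃ η, u = w * lf η) := by
  have hA := gen_centre U hU he hinj hpe hstar
  have hB : Gen (fun x : (Fin n × Fin p) ⊕ (Fin n × Fin p) → ℂ =>
      2 ≤ finrank ℂ (van U (Set.range (mv (jn x))))) := by
    refine (Gen.jn (gen_rk U (p + p))).mono fun x hx => ?_
    have h3 := finrank_map_add_van U (jn x)
    omega
  obtain ⟨a₀, ⟨w, hw, ha₀⟩, hb₀⟩ := (hA.and hB.pair).exists
  refine ⟨w, hw, (hA.and hb₀).mono fun a ha => ?_⟩
  obtain ⟨⟨w', hw', ha⟩, hb⟩ := ha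
  obtain ⟨c, rfl⟩ := star_change hw hw' hb
    (fun u hu => ha₀ u (van_anti (range_mv_subset a₀ a) hu))
    (fun u hu => ha u (van_anti (range_mv_subset' a₀ a) hu))
  intro u hu
  obtain ⟨η, rfl⟩ := ha u hu
  exact ⟨c • η, by rw [lf_smul]; ring⟩

theorem min_le_rk (W : Submodule ℂ (MvPolynomial (Fin n) ℂ)) [FiniteDimensional ℂ W] (p : ℕ) :
    min p (finrank ℂ W) ≤ rk W p := by
  classical
  obtain ⟨W', hW', hW'f⟩ := exists_le_finrank W (min_le_right p (finrank ℂ W))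
  have : FiniteDimensional ℂ W' := Submodule.finiteDimensional_of_le hW'
  obtain ⟨F, -, hF, hc⟩ := exists_finset_van_card W' Set.univ (by
    rw [eq_bot_iff]
    rintro v ⟨-, hv⟩
    rw [Submodule.mem_bot]
    exact MvPolynomial.funext fun z => by rw [hv z (Set.mem_univ z), map_zero])
  let f : Fin p → (Fin n → ℂ) := fun i =>
    if h : (i : ℕ) < F.card then (F.equivFin.symm ⟨i, h⟩ : Fin n → ℂ) else 0
  let g : Fin n × Fin p → ℂ := fun y => f y.2 y.1
  have hsub : (F : Set (Fin n → ℂ)) ⊆ Set.range (mv g) := by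
    intro z hz
    have hlt : (F.equivFin ⟨z, hz⟩ : ℕ) < F.card := (F.equivFin ⟨z, hz⟩).2
    refine ⟨Pi.single ⟨F.equivFin ⟨z, hz⟩, by omega⟩ 1, ?_⟩
    rw [mv_single]
    funext i
    simp only [g, f]
    rw [dif_pos hlt]
    simp
  have h1 : van W' (Set.range (mv g)) = ⊥ := by
    rw [eq_bot_iff, ← hF]
    exact van_anti hsub
  have h2 := finrank_van_add_le hW' h1
  have h3 := finrank_map_add_van W g
  have h4 := finrank_map_le_rk W g
  omega

/-- A plateau of length one produces a star. -/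
theorem exists_star {D : ℕ} (U : Submodule ℂ (MvPolynomial (Fin n) ℂ)) [FiniteDimensional ℂ U]
    (hU : U ≤ homogeneousSubmodule (Fin n) ℂ D) {q c : ℕ} (hκ : finrank ℂ U = q + c)
    (hq : 2 * c + 4 ≤ q) (hr : ∀ t, c + 1 ≤ t → t ≤ q → rk U t = t + c) :
    ∃ (w : MvPolynomial (Fin n) ℂ) (W : Submodule ℂ (MvPolynomial (Fin n) ℂ)),
      w ≠ 0 ∧ W ≤ U ∧ q ≤ finrank ℂ W ∧ ∀ u ∈ W, ∃ η, u = w * lf η := by
  obtain ⟨e, rfl⟩ : ∃ e, q = (c + 1) + e := ⟨q - (c + 1), by omega⟩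
  have h0 := hr (c + 1 + e) (by omega) le_rfl
  have h1 := hr (c + 1 + e - 1) (by omega) (by omega)
  have h2 := hr (c + 1 + e - 2) (by omega) (by omega)
  have h3 := hr (c + 1) le_rfl (by omega)
  have h4 := hr (c + 1 + (c + 1)) (by omega) (by omega)
  have hstar := gen_star (τ := c + 1 + e) (by omega) U (by omega) (by omega)
  obtain ⟨w, hw, hgen⟩ := exists_centre (p := c + 1) (e := e) U hU (by omega) (by omega)
    (by omega) (by omega) hstar
  let W : Submodule ℂ (MvPolynomial (Fin n) ℂ) := U ⊓ (L1 n).map (LinearMap.mulLeft ℂ w)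
  have hWU : W ≤ U := inf_le_left
  have hfdW : FiniteDimensional ℂ W := Submodule.finiteDimensional_of_le hWU
  have hmem : ∀ u ∈ U, (∃ η, u = w * lf η) → u ∈ W := by
    rintro _ hu ⟨η, rfl⟩
    exact ⟨hu, lf η, lf_mem_L1 η, rfl⟩
  refine ⟨w, W, hw, hWU, ?_, ?_⟩
  · obtain ⟨a, ⟨ha1, ha2⟩, ha3⟩ := ((hgen.and (gen_rk U (c + 1))).and (gen_rk W (c + 1))).exists
    have h5 := finrank_map_add_van U a
    have h6 := finrank_map_add_van W a
    have h7 : van U (Set.range (mv a)) ≤ van W (Set.range (mv a)) :=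
      fun u hu => ⟨hmem u hu.1 (ha1 u hu), hu.2⟩
    have h8 := Submodule.finrank_mono h7
    have h9 := min_le_rk W (c + 1)
    rcases min_choice (c + 1) (finrank ℂ W) with h10 | h10
    · rw [h10] at h9
      omega
    · rw [h10] at h9
      omega
  · rintro _ ⟨-, f, hf, rfl⟩
    obtain ⟨η, rfl⟩ := (mem_L1_iff f).mp hf
    exact ⟨η, rfl⟩

end Pool.Agent.Lib_helper97.Ebe
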