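import Pool.Agent.Lib_helper97.Ebe.QA4

/-!
# The spectrum of `dim S_1 U`
-/

namespace Pool.Agent.Lib_helper97.Ebe

open MvPolynomial Module Pool.Agent.Lib_helper26.Ebe Pool.Agent.Lib_helper26.SOS

variable {n : ℕ}

theorem S1_sup (U V : Submodule ℂ (MvPolynomial (Fin n) ℂ)) : S1 (U ⊔ V) = S1 U ⊔ S1 V := by
  unfold S1
  rw [Submodule.mul_sup]

theorem choose_add_choose (a : ℕ) : (a + 1).choose 2 + a.choose 2 = a * a := by
  induction a with
  | zero => simp
  | succ a ih =>
    rw [choose_succ_two (a + 1)]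
    rw [choose_succ_two a] at ih ⊢
    nlinarith

/-- Upper bound for `dim S_1` of a star. -/
theorem S1_star_le {w : MvPolynomial (Fin n) ℂ} (hw : w ≠ 0)
    {W : Submodule ℂ (MvPolynomial (Fin n) ℂ)} [FiniteDimensional ℂ W]
    (h : ∀ u ∈ W, ∃ η, u = w * lf η) :
    finrank ℂ W ≤ n ∧ finrank ℂ (S1 W) + (finrank ℂ W).choose 2 ≤ finrank ℂ W * n := by
  classical
  let T : (Fin n → ℂ) →ₗ[ℂ] MvPolynomial (Fin n) ℂ := (LinearMap.mulLeft ℂ w) ∘ₗ lfL n
  have hTa : ∀ ζ, T ζ = w * lf ζ := fun ζ => rfl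
  have hT : Function.Injective T := by
    rw [← LinearMap.ker_eq_bot, LinearMap.ker_eq_bot']
    intro ζ hζ
    rw [hTa] at hζ
    by_contra hne
    exact lf_ne_zero hne ((mul_eq_zero.mp hζ).resolve_left hw)
  let L : Submodule ℂ (Fin n → ℂ) := W.comap T
  have hLW : L.map T = W := by
    apply le_antisymm (Submodule.map_comap_le _ _)
    intro u hu
    obtain ⟨η, rfl⟩ := h u hu
    exact ⟨η, hu, rfl⟩
  have hfr : finrank ℂ L = finrank ℂ W := by
    rw [← hLW]
    exact (Submodule.equivMapOfInjective T hT L).finrank_eq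
  obtain ⟨L', hL'⟩ := Submodule.exists_isCompl L
  have hdim : finrank ℂ L + finrank ℂ L' = n := by
    have := Submodule.finrank_add_eq_of_isCompl hL'
    rwa [finrank_fin_fun] at this
  refine ⟨by omega, ?_⟩
  let b := finBasis ℂ L
  let b' := finBasis ℂ L'
  let F : Sym2 (Fin (finrank ℂ L)) ⊕ (Fin (finrank ℂ L) × Fin (finrank ℂ L')) →
      MvPolynomial (Fin n) ℂ := Sum.elim
    (Sym2.lift ⟨fun i j => w * lf (b i : Fin n → ℂ) * lf (b j : Fin n → ℂ), fun i j => by ring⟩)
    (fun x => w * lf (b x.1 : Fin n → ℂ) * lf (b' x.2 : Fin n → ℂ))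
  have hspan : S1 W ≤ Submodule.span ℂ (Set.range F) := by
    -- the statement for `lf ζ * (w * lf η)`, `η ∈ L`
    have key : ∀ η ∈ L, ∀ ζ : Fin n → ℂ, lf ζ * (w * lf η) ∈ Submodule.span ℂ (Set.range F) := by
      intro η hη ζ
      have hη' : η = ∑ i, b.repr ⟨η, hη⟩ i • (b i : Fin n → ℂ) := by
        have := b.sum_repr ⟨η, hη⟩
        conv_lhs => rw [← Subtype.coe_mk η hη, ← this]
        rw [Submodule.coe_sum]
        rfl
      obtain ⟨y, hy, z, hz, rfl⟩ : ∃ y ∈ L, ∃ z ∈ L', y + z = ζ := by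
        rw [← Submodule.mem_sup, hL'.sup_eq_top]
        trivial
      have hy' : y = ∑ i, b.repr ⟨y, hy⟩ i • (b i : Fin n → ℂ) := by
        have := b.sum_repr ⟨y, hy⟩
        conv_lhs => rw [← Subtype.coe_mk y hy, ← this]
        rw [Submodule.coe_sum]
        rfl
      have hz' : z = ∑ i, b'.repr ⟨z, hz⟩ i • (b' i : Fin n → ℂ) := by
        have := b'.sum_repr ⟨z, hz⟩
        conv_lhs => rw [← Subtype.coe_mk z hz, ← this]
        rw [Submodule.coe_sum]
        rfl
      have hLf : ∀ (m : ℕ) (c : Fin m → ℂ) (v : Fin m → Fin n → ℂ),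
          lf (∑ i, c i • v i) = ∑ i, C (c i) * lf (v i) := by
        intro m c v
        have := map_sum (lfL n) (fun i => c i • v i) Finset.univ
        rw [lfL_apply] at this
        rw [this]
        refine Finset.sum_congr rfl fun i _ => ?_
        rw [map_smul, lfL_apply, smul_eq_C_mul]
      rw [lf_add, add_mul]
      refine Submodule.add_mem _ ?_ ?_
      · rw [hη', hy', hLf, hLf, Finset.mul_sum, Finset.sum_mul]
        refine Submodule.sum_mem _ fun i _ => ?_
        rw [Finset.mul_sum]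
        refine Submodule.sum_mem _ fun j _ => ?_
        have : C (b.repr ⟨y, hy⟩ i) * lf (b i : Fin n → ℂ) *
            (w * (C (b.repr ⟨η, hη⟩ j) * lf (b j : Fin n → ℂ))) =
            (b.repr ⟨y, hy⟩ i * b.repr ⟨η, hη⟩ j) • F (Sum.inl s(i, j)) := by
          rw [smul_eq_C_mul, C_mul]
          simp only [F, Sum.elim_inl, Sym2.lift_mk]
          ring
        rw [this]
        exact Submodule.smul_mem _ _ (Submodule.subset_span ⟨_, rfl⟩)
      · rw [hη', hz', hLf, hLf, Finset.mul_sum, Finset.sum_mul]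
        refine Submodule.sum_mem _ fun i _ => ?_
        rw [Finset.mul_sum]
        refine Submodule.sum_mem _ fun j _ => ?_
        have : C (b'.repr ⟨z, hz⟩ i) * lf (b' i : Fin n → ℂ) *
            (w * (C (b.repr ⟨η, hη⟩ j) * lf (b j : Fin n → ℂ))) =
            (b'.repr ⟨z, hz⟩ i * b.repr ⟨η, hη⟩ j) • F (Sum.inr (j, i)) := by
          rw [smul_eq_C_mul, C_mul]
          simp only [F, Sum.elim_inr]
          ring
        rw [this]
        exact Submodule.smul_mem _ _ (Submodule.subset_span ⟨_, rfl⟩)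
    rw [S1_eq_span, Submodule.span_le]
    rintro _ ⟨i, u, hu, rfl⟩
    have hu' : u ∈ L.map T := by rw [hLW]; exact hu
    obtain ⟨η, hη, rfl⟩ := hu'
    have h1 := key η hη (Pi.single i 1)
    have h2 : lf (Pi.single i 1 : Fin n → ℂ) = X i := by
      unfold lf
      rw [Finset.sum_eq_single i]
      · simp
      · intro l _ hl
        simp [hl]
      · simp
    rw [h2] at h1
    exact h1
  have hcard : finrank ℂ (Submodule.span ℂ (Set.range F)) ≤
      (finrank ℂ L + 1).choose 2 + finrank ℂ L * finrank ℂ L' := by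
    refine (finrank_range_le_card F).trans ?_
    rw [Fintype.card_sum, Sym2.card, Fintype.card_prod, Fintype.card_fin, Fintype.card_fin]
  have hfdF : FiniteDimensional ℂ (Submodule.span ℂ (Set.range F)) :=
    FiniteDimensional.span_of_finite ℂ (Set.finite_range F)
  have h1 := Submodule.finrank_mono hspan
  have h2 := choose_add_choose (finrank ℂ L)
  rw [← hfr]
  have h3 : finrank ℂ L * n = finrank ℂ L * finrank ℂ L + finrank ℂ L * finrank ℂ L' := by
    rw [← mul_add, hdim]
  omega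

theorem S1_le_of_star {w : MvPolynomial (Fin n) ℂ} (hw : w ≠ 0)
    {U W : Submodule ℂ (MvPolynomial (Fin n) ℂ)} [FiniteDimensional ℂ U]
    (hWU : W ≤ U) (h : ∀ u ∈ W, ∃ η, u = w * lf η) :
    finrank ℂ (S1 U) + (finrank ℂ W).choose 2 ≤ finrank ℂ U * n := by
  have hfdW : FiniteDimensional ℂ W := Submodule.finiteDimensional_of_le hWU
  obtain ⟨C, hC, hsup⟩ := IsModularLattice.exists_disjoint_and_sup_eq hWU
  have hCU : C ≤ U := hsup ▸ le_sup_right
  have hfdC : FiniteDimensional ℂ C := Submodule.finiteDimensional_of_le hCU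
  have h1 := Submodule.finrank_sup_add_finrank_inf_eq W C
  rw [hsup, hC.eq_bot, finrank_bot, add_zero] at h1
  have h2 : finrank ℂ (S1 U) ≤ finrank ℂ (S1 W) + finrank ℂ (S1 C) := by
    rw [← hsup, S1_sup]
    exact Submodule.finrank_add_le_finrank_add_finrank _ _
  have h3 := (S1_star_le hw h).2
  have h4 := S1_upper C
  rw [h1, add_mul, mul_comm (finrank ℂ C) n]
  omega

/-- **The spectrum of `dim S_1 U`.** For a nonzero space `U` of homogeneous polynomials of the
same degree in `n` variables, of dimension `κ ≤ n`, the deficiency `κ n - dim S_1 U` is of the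
form `C(a,2) + C(c,2) + t` with `t ≤ c < a` and `a + c ≤ κ`. -/
theorem spectrum {D : ℕ} (U : Submodule ℂ (MvPolynomial (Fin n) ℂ)) [FiniteDimensional ℂ U]
    (hU : U ≤ homogeneousSubmodule (Fin n) ℂ D) (hU0 : U ≠ ⊥) (hκ : finrank ℂ U ≤ n) :
    ∃ a c t, t ≤ c ∧ c < a ∧ a + c ≤ finrank ℂ U ∧
      finrank ℂ (S1 U) + (a.choose 2 + c.choose 2 + t) = finrank ℂ U * n := by
  obtain ⟨κ, hκd⟩ : ∃ κ, κ = finrank ℂ U := ⟨_, rfl⟩
  have hκ1 : 1 ≤ κ := by
    rw [Nat.one_le_iff_ne_zero, hκd]
    intro h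
    exact hU0 (Submodule.finrank_eq_zero.mp h)
  have hrs := rseq U hU hU0
  rw [← hκd] at hrs hκ ⊢
  obtain ⟨q, hq⟩ := hrs.exists_q (by omega)
  have hlow := S1_lower U hκd.symm hκ
  have hup := S1_upper U
  rw [← hκd, mul_comm] at hup
  have hc2 : κ.choose 2 = κ * (κ - 1) / 2 := Nat.choose_two_right κ
  have hsum := sum_rk_le U
  have hsum2 : ∑ t ∈ Finset.range n, rk U (t + 1) +
      ∑ t ∈ Finset.range n, (κ - rk U (t + 1)) = κ * n := by
    rw [← Finset.sum_add_distrib, Finset.sum_congr rfl (g := fun _ => κ) (fun t _ => by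
      have := hrs.hle (t + 1)
      omega)]
    simp [mul_comm]
  obtain ⟨a, c, t, htc, hca, hac, hs⟩ := spectrum_arith (s := κ * n - finrank ℂ (S1 U)) hκ1
    (by omega) (by
      intro a haκ h1 h2 h3 h4
      rcases Nat.lt_or_ge a q with h5 | h5
      · -- a star of dimension `q`
        obtain ⟨e, he⟩ : ∃ e, κ = q + e := ⟨κ - q, by have := hq.hqκ; omega⟩
        obtain ⟨w, W, hw, hWU, hqW, hW⟩ := exists_star U hU (q := q) (c := e) (by omega)
          (by omega) (fun t ht htq => hq.plateau he (by omega) ht htq)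
        have h6 := S1_le_of_star hw hWU hW
        rw [← hκd] at h6
        have h7 : (a + 1).choose 2 ≤ (finrank ℂ W).choose 2 := Nat.choose_le_choose 2 (by omega)
        omega
      · have h6 := hq.sum_le h5 haκ.le
        omega)
  exact ⟨a, c, t, htc, hca, hac, by omega⟩

end Pool.Agent.Lib_helper97.Ebe
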