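import Pool.Agent.Lib_helper97.Ebe.Six

/-!
# The indefinite case: definitions
-/

namespace Pool.Agent.Lib_helper97.Ebe

open MvPolynomial Module Pool.Agent.Lib_helper26.Ebe Pool.Agent.Lib_helper26.SOS

/-- The range of `dg f ε`. -/
noncomputable def Yf {n ρ : ℕ} (f : Fin ρ → MvPolynomial (Fin n) ℂ) :
    Submodule ℂ (MvPolynomial (Fin n) ℂ) := Submodule.span ℂ (Set.range f)

/-- The number of negative signs. -/
noncomputable def beta {ρ : ℕ} (ε : Fin ρ → ℝ) : ℕ := Nat.card {k // ε k = -1}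

/-- At level `j` the generic restriction of `V` contains no nonzero multiple of the square of a
generic linear form. -/
def N2 {n : ℕ} (V : Submodule ℂ (MvPolynomial (Fin n) ℂ)) (j : ℕ) : Prop :=
  Gen (fun x : (Fin n × Fin j) ⊕ Fin j → ℂ =>
    ∀ v ∈ V.map (sub (x ∘ Sum.inl)).toLinearMap, lf (x ∘ Sum.inr) ^ 2 ∣ v → v = 0)

/-- There are `r` points in an at most `i`-dimensional subspace and `r` points in an at most
`j`-dimensional subspace of its annihilator at which `A` has a nonzero determinant. -/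
def Wit {n : ℕ} (A : MvPolynomial (Fin n ⊕ Fin n) ℂ) (i j r : ℕ) : Prop :=
  ∃ (P Q : Submodule ℂ (Fin n → ℂ)) (z w : Fin r → Fin n → ℂ),
    finrank ℂ P ≤ i ∧ finrank ℂ Q ≤ j ∧ (∀ x ∈ P, ∀ y ∈ Q, ∑ k, x k * y k = 0) ∧
    (∀ a, z a ∈ P) ∧ (∀ a, w a ∈ Q) ∧
    (Matrix.of fun a b => eval (Sum.elim (z a) (w b)) A).det ≠ 0

/-- The numerical facts about the ranks `r` of `V`, `u` of `Y` and `E i j` of `A` on orthogonal
subspaces of dimensions `i` and `j`; `s` is the last level which is not `N2`. -/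
structure ESeq (n : ℕ) (r u : ℕ → ℕ) (s : ℕ) (E : ℕ → ℕ → ℕ) : Prop where
  hs : s ≤ n
  hs1 : 1 ≤ s
  hsym : ∀ i j, i + j ≤ n → E i j = E j i
  hgrow : ∀ i j, i + j < n → E i j < E i (n - i) → E i j < E i (j + 1)
  hmono : ∀ i j, i + j < n → E i j ≤ E i (j + 1)
  hfull : ∀ i, 1 ≤ i → i + s ≤ n → E i (n - i) = u i
  hhi : ∀ i, s < i → i ≤ n → r (i - 1) + u (n - i + 1) ≤ r i
  hlo : ∀ j, 1 ≤ j → j + s ≤ n → r (j - 1) + u j ≤ r j
  hmid : ∀ j i, 2 ≤ j → j ≤ s → i < j → r (j - 1) + j + E i (n - j + 1) ≤ r j + i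

end Pool.Agent.Lib_helper97.Ebe
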